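import Mathlib

/-! Abstract finiteness lemma for piecewise isometries with holes. -/

namespace Bil62

open Set

/-- iterates of a relation -/
def relPow {α : Type*} (R : α → α → Prop) : ℕ → α → α → Prop
  | 0 => fun x y => x = y
  | (m+1) => fun x y => ∃ z, relPow R m x z ∧ R z y

section relPow

variable {α : Type*} {R : α → α → Prop}

theorem relPow_zero (x y : α) : relPow R 0 x y ↔ x = y := Iff.rfl

theorem relPow_succ (m : ℕ) (x y : α) :
    relPow R (m+1) x y ↔ ∃ z, relPow R m x z ∧ R z y := Iff.rfl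

theorem relPow_add (m k : ℕ) (x y : α) :
    relPow R (m+k) x y ↔ ∃ z, relPow R m x z ∧ relPow R k z y := by
  induction k generalizing y with
  | zero => simp [relPow_zero]
  | succ k ih =>
    rw [← add_assoc, relPow_succ]
    constructor
    · rintro ⟨z, hz, hzy⟩
      obtain ⟨w, hw, hwz⟩ := (ih z).1 hz
      exact ⟨w, hw, (relPow_succ _ _ _).2 ⟨z, hwz, hzy⟩⟩
    · rintro ⟨w, hw, hwy⟩
      obtain ⟨z, hz, hzy⟩ := (relPow_succ _ _ _).1 hwy
      exact ⟨z, (ih z).2 ⟨w, hw, hz⟩, hzy⟩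

theorem relPow_one (x y : α) : relPow R 1 x y ↔ R x y := by
  simp [relPow_succ, relPow_zero]

theorem relPow_succ' (m : ℕ) (x y : α) :
    relPow R (m+1) x y ↔ ∃ z, R x z ∧ relPow R m z y := by
  rw [add_comm, relPow_add]
  simp only [relPow_one]

theorem relPow_flip (m : ℕ) (x y : α) :
    relPow (fun a b => R b a) m x y ↔ relPow R m y x := by
  induction m generalizing y with
  | zero => simp only [relPow_zero]; exact eq_comm
  | succ m ih =>
    rw [relPow_succ, relPow_succ']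
    constructor
    · rintro ⟨z, hz, h⟩
      exact ⟨z, h, (ih z).1 hz⟩
    · rintro ⟨z, h, hz⟩
      exact ⟨z, (ih z).2 hz, h⟩

/-- backward determinism for iterates -/
theorem relPow_bwd (hb : ∀ x x' y, R x y → R x' y → x = x') (m : ℕ) :
    ∀ x x' y, relPow R m x y → relPow R m x' y → x = x' := by
  induction m with
  | zero => intro x x' y h h'; rw [relPow_zero] at h h'; rw [h, h']
  | succ m ih =>
    intro x x' y h h'
    obtain ⟨z, hz, hzy⟩ := h
    obtain ⟨z', hz', hzy'⟩ := h'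
    have := hb _ _ _ hzy hzy'
    subst this
    exact ih _ _ _ hz hz'

theorem relPow_fwd (hf : ∀ x y y', R x y → R x y' → y = y') (m : ℕ) :
    ∀ x y y', relPow R m x y → relPow R m x y' → y = y' := by
  induction m with
  | zero => intro x y y' h h'; rw [relPow_zero] at h h'; rw [← h, h']
  | succ m ih =>
    intro x y y' h h'
    obtain ⟨z, hz, hzy⟩ := h
    obtain ⟨z', hz', hzy'⟩ := h'
    have := ih _ _ _ hz hz'
    subst this
    exact hf _ _ _ hzy hzy'

/-- comparing two backward paths -/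
theorem relPow_cmp (hb : ∀ x x' y, R x y → R x' y → x = x') {m m' : ℕ} (hm : m ≤ m')
    {x x' y : α} (h : relPow R m x y) (h' : relPow R m' x' y) :
    relPow R (m' - m) x' x := by
  obtain ⟨k, rfl⟩ := Nat.exists_eq_add_of_le hm
  rw [add_comm, relPow_add] at h'
  obtain ⟨z, hz, hzy⟩ := h'
  have := relPow_bwd hb m _ _ _ h hzy
  subst this
  simpa using hz

theorem relPow_cmp_fwd (hf : ∀ x y y', R x y → R x y' → y = y') {m m' : ℕ} (hm : m ≤ m')
    {x y y' : α} (h : relPow R m x y) (h' : relPow R m' x y') :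
    relPow R (m' - m) y y' := by
  obtain ⟨k, rfl⟩ := Nat.exists_eq_add_of_le hm
  rw [relPow_add] at h'
  obtain ⟨z, hz, hzy⟩ := h'
  have := relPow_fwd hf m _ _ _ h hz
  subst this
  simpa using hzy

end relPow

/-- A finite system of intervals with a partially defined piecewise isometry. -/
structure Sys (Q : Type*) where
  a : Q → ℝ
  b : Q → ℝ
  R : Q × ℝ → Q × ℝ → Prop
  X : Q × ℝ → Prop
  N : Q × ℝ → Prop
  D : Set (Q × ℝ)
  D' : Set (Q × ℝ)
  R_left : ∀ x y, R x y → a x.1 < x.2 ∧ x.2 < b x.1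
  R_right : ∀ x y, R x y → a y.1 < y.2 ∧ y.2 < b y.1
  fwd : ∀ x y y', R x y → R x y' → y = y'
  bwd : ∀ x x' y, R x y → R x' y → x = x'
  Dfin : D.Finite
  D'fin : D'.Finite
  X_E : ∀ x, X x → a x.1 < x.2 ∧ x.2 < b x.1
  N_E : ∀ x, N x → a x.1 < x.2 ∧ x.2 < b x.1
  X_D : ∀ x, X x → x ∉ D
  N_D' : ∀ x, N x → x ∉ D'
  X_no : ∀ x y, X x → ¬ R x y
  N_no : ∀ x y, N y → ¬ R x y
  D_no : ∀ x y, x ∈ D → ¬ R x y
  D'_no : ∀ x y, y ∈ D' → ¬ R x y
  stepf : ∀ q c d, c < d → a q ≤ c → d ≤ b q → (∀ p ∈ Ioo c d, (q, p) ∉ D) →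
    (∀ p ∈ Ioo c d, X (q, p)) ∨
      ∃ q' σ τ, (σ = (1:ℝ) ∨ σ = -1) ∧ ∀ p ∈ Ioo c d, R (q, p) (q', σ * p + τ)
  stepb : ∀ q c d, c < d → a q ≤ c → d ≤ b q → (∀ p ∈ Ioo c d, (q, p) ∉ D') →
    (∀ p ∈ Ioo c d, N (q, p)) ∨
      ∃ q' σ τ, (σ = (1:ℝ) ∨ σ = -1) ∧ ∀ p ∈ Ioo c d, R (q', σ * p + τ) (q, p)

namespace Sys

variable {Q : Type*} (S : Sys Q)

def E (x : Q × ℝ) : Prop := S.a x.1 < x.2 ∧ x.2 < S.b x.1

/-- time reversal -/
def rev : Sys Q where
  a := S.a
  b := S.b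
  R := fun x y => S.R y x
  X := S.N
  N := S.X
  D := S.D'
  D' := S.D
  R_left := fun x y h => S.R_right y x h
  R_right := fun x y h => S.R_left y x h
  fwd := fun x y y' h h' => S.bwd y y' x h h'
  bwd := fun x x' y h h' => S.fwd y x x' h h'
  Dfin := S.D'fin
  D'fin := S.Dfin
  X_E := S.N_E
  N_E := S.X_E
  X_D := S.N_D'
  N_D' := S.X_D
  X_no := fun x y h h' => S.N_no y x h h'
  N_no := fun x y h h' => S.X_no y x h h'
  D_no := fun x y h h' => S.D'_no y x h h'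
  D'_no := fun x y h h' => S.D_no y x h h'
  stepf := S.stepb
  stepb := S.stepf

/-- small interval around a point avoiding a finite set -/
theorem exists_small {F : Set (Q × ℝ)} (hF : F.Finite) {q : Q} {p : ℝ} {a b : ℝ}
    (hab : a < p ∧ p < b) (hp : (q, p) ∉ F) :
    ∃ ε > 0, a ≤ p - ε ∧ p + ε ≤ b ∧ ∀ p' ∈ Ioo (p - ε) (p + ε), (q, p') ∉ F := by
  have hfin : {p' : ℝ | (q, p') ∈ F}.Finite := by
    have : {p' : ℝ | (q, p') ∈ F} = (fun t : ℝ => (q, t)) ⁻¹' F := rfl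
    rw [this]
    exact hF.preimage (fun x _ y _ h => by simpa using h)
  have hopen : IsOpen ({p' : ℝ | (q, p') ∈ F}ᶜ) := hfin.isClosed.isOpen_compl
  obtain ⟨ε, hε, hsub⟩ := Metric.isOpen_iff.1 hopen p hp
  refine ⟨min ε (min (p - a) (b - p)), ?_, ?_, ?_, ?_⟩
  · exact lt_min hε (lt_min (by linarith [hab.1]) (by linarith [hab.2]))
  · have := (min_le_right ε (min (p - a) (b - p))).trans (min_le_left _ _)
    linarith
  · have := (min_le_right ε (min (p - a) (b - p))).trans (min_le_right _ _)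
    linarith
  · intro p' hp'
    have h1 := min_le_left ε (min (p - a) (b - p))
    have : p' ∈ Metric.ball p ε := by
      rw [Metric.mem_ball, Real.dist_eq, abs_lt]
      constructor <;> linarith [hp'.1, hp'.2]
    exact hsub this

/-- a punctured neighbourhood avoiding a finite set -/
theorem exists_small' {F : Set (Q × ℝ)} (hF : F.Finite) {q : Q} {p : ℝ} :
    ∃ ε > 0, ∀ h, h ≠ 0 → |h| < ε → (q, p + h) ∉ F := by
  have hfin : ({p' : ℝ | (q, p') ∈ F} \ {p}).Finite := by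
    refine Finite.subset ?_ sdiff_subset
    have : {p' : ℝ | (q, p') ∈ F} = (fun t : ℝ => (q, t)) ⁻¹' F := rfl
    rw [this]
    exact hF.preimage (fun x _ y _ h => by simpa using h)
  have hopen : IsOpen (({p' : ℝ | (q, p') ∈ F} \ {p})ᶜ) := hfin.isClosed.isOpen_compl
  obtain ⟨ε, hε, hsub⟩ := Metric.isOpen_iff.1 hopen p (by simp)
  refine ⟨ε, hε, fun h h0 hlt hmem => ?_⟩
  have : p + h ∈ Metric.ball p ε := by
    rw [Metric.mem_ball, Real.dist_eq]
    simpa using hlt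
  have h2 := hsub this
  simp only [mem_compl_iff, mem_sdiff, mem_ofPred_eq, mem_singleton_iff, not_and, not_not] at h2
  exact h0 (by linarith [h2 hmem])

/-- local structure backwards -/
theorem loc_back {x : Q × ℝ} {q : Q} {p : ℝ} (h : S.R x (q, p)) :
    ∃ ε > 0, ∃ σ : ℝ, (σ = 1 ∨ σ = -1) ∧ ∀ t, |t| < ε → S.R (x.1, x.2 + σ * t) (q, p + t) := by
  have hE := S.R_right _ _ h
  have hD : (q, p) ∉ S.D' := fun h' => S.D'_no _ _ h' h
  obtain ⟨ε, hε, h1, h2, h3⟩ := exists_small S.D'fin (q := q) (p := p) (a := S.a q) (b := S.b q) hE hD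
  rcases S.stepb q (p - ε) (p + ε) (by linarith) h1 h2 h3 with hN | ⟨q', σ, τ, hσ, hR⟩
  · exact absurd h (S.N_no _ _ (hN p ⟨by linarith, by linarith⟩))
  · refine ⟨ε, hε, σ, hσ, fun t ht => ?_⟩
    have hp := hR p ⟨by linarith, by linarith⟩
    have hx := S.bwd _ _ _ h hp
    rw [abs_lt] at ht
    have ht' := hR (p + t) ⟨by linarith, by linarith⟩
    rw [hx]
    convert ht' using 2
    simp only
    ring

/-- local structure backwards for iterates -/
theorem loc_back_pow (m : ℕ) : ∀ {x y : Q × ℝ}, relPow S.R m x y →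
    ∃ ε > 0, ∃ σ : ℝ, (σ = 1 ∨ σ = -1) ∧
      ∀ t, |t| < ε → relPow S.R m (x.1, x.2 + σ * t) (y.1, y.2 + t) := by
  induction m with
  | zero =>
    intro x y h
    rw [relPow_zero] at h
    subst h
    exact ⟨1, one_pos, 1, Or.inl rfl, fun t _ => by simp [relPow_zero]⟩
  | succ m ih =>
    intro x y h
    obtain ⟨z, hz, hzy⟩ := h
    obtain ⟨ε₁, hε₁, σ₁, hσ₁, h₁⟩ := S.loc_back (x := z) (q := y.1) (p := y.2) hzy
    obtain ⟨ε₂, hε₂, σ₂, hσ₂, h₂⟩ := ih hz
    refine ⟨min ε₁ ε₂, lt_min hε₁ hε₂, σ₂ * σ₁, ?_, fun t ht => ?_⟩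
    · rcases hσ₁ with rfl | rfl <;> rcases hσ₂ with rfl | rfl <;> simp
    · have ht₁ := lt_of_lt_of_le ht (min_le_left _ _)
      have ht₂ := lt_of_lt_of_le ht (min_le_right _ _)
      refine ⟨(z.1, z.2 + σ₁ * t), ?_, h₁ t ht₁⟩
      have : |σ₁ * t| < ε₂ := by
        rcases hσ₁ with rfl | rfl <;> simpa using ht₂
      have h3 := h₂ (σ₁ * t) this
      rw [mul_assoc]
      exact h3

/-- entry points are locally entry points -/
theorem loc_N {q : Q} {p : ℝ} (hN : S.N (q, p)) :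
    ∃ ε > 0, ∀ t, |t| < ε → S.N (q, p + t) := by
  have hE := S.N_E _ hN
  have hD := S.N_D' _ hN
  obtain ⟨ε, hε, h1, h2, h3⟩ := exists_small S.D'fin (q := q) (p := p) (a := S.a q) (b := S.b q) hE hD
  rcases S.stepb q (p - ε) (p + ε) (by linarith) h1 h2 h3 with h | ⟨q', σ, τ, hσ, hR⟩
  · refine ⟨ε, hε, fun t ht => h _ ?_⟩
    rw [abs_lt] at ht
    constructor <;> linarith
  · exact absurd (hR p ⟨by linarith, by linarith⟩) (S.N_no _ _ hN)

/-- trichotomy backwards -/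
theorem tri_back {q : Q} {p : ℝ} (hE : S.E (q, p)) :
    (q, p) ∈ S.D' ∨ S.N (q, p) ∨ ∃ x, S.R x (q, p) := by
  by_cases hD : (q, p) ∈ S.D'
  · exact Or.inl hD
  obtain ⟨ε, hε, h1, h2, h3⟩ := exists_small S.D'fin (q := q) (p := p) (a := S.a q) (b := S.b q) hE hD
  rcases S.stepb q (p - ε) (p + ε) (by linarith) h1 h2 h3 with h | ⟨q', σ, τ, hσ, hR⟩
  · exact Or.inr (Or.inl (h _ ⟨by linarith, by linarith⟩))
  · exact Or.inr (Or.inr ⟨_, hR p ⟨by linarith, by linarith⟩⟩)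

theorem relPow_E {m : ℕ} {x y : Q × ℝ} (hx : S.E x) (h : relPow S.R m x y) : S.E y := by
  cases m with
  | zero => rw [relPow_zero] at h; rwa [← h]
  | succ m => obtain ⟨z, _, hz⟩ := h; exact S.R_right _ _ hz

/-- an interval of starting points whose orbits do not meet `D` moves rigidly until exit -/
theorem iter_interval {q : Q} {c d : ℝ} (hcd : c < d) (hE : ∀ p ∈ Ioo c d, S.E (q, p))
    (hD : ∀ p ∈ Ioo c d, ∀ m y, relPow S.R m (q, p) y → y ∉ S.D) (m : ℕ) :
    (∃ m' ≤ m, ∀ p ∈ Ioo c d, ∃ y, relPow S.R m' (q, p) y ∧ S.X y) ∨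
    ∃ q' σ τ, (σ = (1:ℝ) ∨ σ = -1) ∧ ∀ p ∈ Ioo c d, relPow S.R m (q, p) (q', σ * p + τ) := by
  induction m with
  | zero => exact Or.inr ⟨q, 1, 0, Or.inl rfl, fun p _ => by simp [relPow_zero]⟩
  | succ m ih =>
    rcases ih with ⟨m', hm', h⟩ | ⟨q', σ, τ, hσ, h⟩
    · exact Or.inl ⟨m', by omega, h⟩
    · -- image interval
      obtain ⟨c', d', hcd', himg⟩ : ∃ c' d', c' < d' ∧
          ∀ t, t ∈ Ioo c' d' ↔ σ * (t - τ) ∈ Ioo c d := by
        rcases hσ with rfl | rfl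
        · refine ⟨c + τ, d + τ, by linarith, fun t => ?_⟩
          simp only [mem_Ioo, one_mul]
          constructor <;> rintro ⟨h1, h2⟩ <;> constructor <;> linarith
        · refine ⟨τ - d, τ - c, by linarith, fun t => ?_⟩
          simp only [mem_Ioo]
          constructor <;> rintro ⟨h1, h2⟩ <;> constructor <;> linarith
      have hσ2 : σ * σ = 1 := by rcases hσ with rfl | rfl <;> norm_num
      have himg2 : ∀ t ∈ Ioo c' d', relPow S.R m (q, σ * (t - τ)) (q', t) := by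
        intro t ht
        have := h _ ((himg t).1 ht)
        convert this using 2
        linear_combination (τ - t) * hσ2
      have hE' : Ioo c' d' ⊆ Ioo (S.a q') (S.b q') := by
        intro t ht
        exact S.relPow_E (hE _ ((himg t).1 ht)) (himg2 t ht)
      obtain ⟨hc', hd'⟩ := (Ioo_subset_Ioo_iff hcd').1 hE'
      have hD2 : ∀ p ∈ Ioo c' d', (q', p) ∉ S.D := fun t ht =>
        hD _ ((himg t).1 ht) m _ (himg2 t ht)
      have hback : ∀ p ∈ Ioo c d, σ * p + τ ∈ Ioo c' d' := by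
        intro p hp
        rw [himg]
        have : σ * (σ * p + τ - τ) = p := by linear_combination p * hσ2
        rwa [this]
      rcases S.stepf q' c' d' hcd' hc' hd' hD2 with hX | ⟨q'', σ', τ', hσ', hR⟩
      · refine Or.inl ⟨m, by omega, fun p hp => ⟨_, h p hp, hX _ (hback p hp)⟩⟩
      · refine Or.inr ⟨q'', σ' * σ, σ' * τ + τ', ?_, fun p hp => ?_⟩
        · rcases hσ with rfl | rfl <;> rcases hσ' with rfl | rfl <;> simp
        · refine ⟨_, h p hp, ?_⟩
          convert hR _ (hback p hp) using 2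
          ring

end Sys

/-- gaps of a finite set of reals -/
theorem exists_gap (B : Finset ℝ) : ∃ δ > 0, ∀ p, p ∉ B → (∃ b ∈ B, b < p) → (∃ b ∈ B, p < b) →
    ∃ c ∈ B, ∃ d ∈ B, c < p ∧ p < d ∧ δ ≤ d - c ∧ ∀ t ∈ Ioo c d, t ∉ B := by
  classical
  obtain ⟨δ, hδ, hmin⟩ : ∃ δ > 0, ∀ c ∈ B, ∀ d ∈ B, c < d → δ ≤ d - c := by
    by_cases hne : ((B ×ˢ B).filter (fun x => x.1 < x.2)).Nonempty
    · obtain ⟨x, hx, hx'⟩ := Finset.exists_min_image _ (fun x : ℝ × ℝ => x.2 - x.1) hne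
      simp only [Finset.mem_filter, Finset.mem_product] at hx hx'
      exact ⟨x.2 - x.1, by linarith [hx.2], fun c hc d hd hcd => hx' (c, d) ⟨⟨hc, hd⟩, hcd⟩⟩
    · refine ⟨1, one_pos, fun c hc d hd hcd => ?_⟩
      exact absurd ⟨(c, d), by simp [hc, hd, hcd]⟩ hne
  refine ⟨δ, hδ, fun p hp hlo hhi => ?_⟩
  have h1 : (B.filter (fun b => b < p)).Nonempty := by
    obtain ⟨b, hb, hbp⟩ := hlo
    exact ⟨b, by simp [hb, hbp]⟩
  have h2 : (B.filter (fun b => p < b)).Nonempty := by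
    obtain ⟨b, hb, hbp⟩ := hhi
    exact ⟨b, by simp [hb, hbp]⟩
  have hc := Finset.max'_mem _ h1
  have hd := Finset.min'_mem _ h2
  set c := (B.filter (fun b => b < p)).max' h1
  set d := (B.filter (fun b => p < b)).min' h2
  simp only [Finset.mem_filter] at hc hd
  refine ⟨c, hc.1, d, hd.1, hc.2, hd.2, hmin c hc.1 d hd.1 (by linarith [hc.2, hd.2]), fun t ht htB => ?_⟩
  rcases lt_trichotomy t p with h | h | h
  · have := Finset.le_max' (B.filter (fun b => b < p)) t (Finset.mem_filter.2 ⟨htB, h⟩)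
    have := ht.1
    linarith
  · exact hp (h ▸ htB)
  · have := Finset.min'_le (B.filter (fun b => p < b)) t (Finset.mem_filter.2 ⟨htB, h⟩)
    have := ht.2
    linarith

/-- pigeonhole in finitely many bounded intervals -/
theorem exists_pigeon {Q : Type*} [Finite Q] (a b : Q → ℝ) {δ : ℝ} (hδ : 0 < δ) :
    ∃ M : ℕ, ∀ y : ℕ → Q × ℝ, (∀ j ≤ M, a (y j).1 < (y j).2 ∧ (y j).2 < b (y j).1) →
      ∃ j j', j < j' ∧ j' ≤ M ∧ (y j).1 = (y j').1 ∧ |(y j').2 - (y j).2| < δ := by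
  classical
  have := Fintype.ofFinite Q
  obtain ⟨L, hL⟩ : ∃ L : ℝ, ∀ q, b q - a q ≤ L := by
    obtain ⟨L, hL⟩ := (Set.finite_range (fun q => b q - a q)).bddAbove
    exact ⟨L, fun q => hL ⟨q, rfl⟩⟩
  set K : ℕ := ⌊L / δ⌋₊ + 1 with hK
  refine ⟨Fintype.card (Q × Fin K), fun y hy => ?_⟩
  have hcell : ∀ j ≤ Fintype.card (Q × Fin K), ⌊((y j).2 - a (y j).1) / δ⌋₊ < K := by
    intro j hj
    have h1 := hy j hj
    have h2 := hL (y j).1
    rw [hK, Nat.lt_succ_iff]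
    apply Nat.floor_le_floor
    gcongr
    linarith
  obtain ⟨j, j', hne, heq⟩ := Fintype.exists_ne_map_eq_of_card_lt
    (f := fun j : Fin (Fintype.card (Q × Fin K) + 1) =>
      ((y j).1, (⟨⌊((y j).2 - a (y j).1) / δ⌋₊, hcell j (by omega)⟩ : Fin K)))
    (by simp)
  have key : ∀ j j' : Fin (Fintype.card (Q × Fin K) + 1), j < j' →
      (((y j).1, (⟨⌊((y j).2 - a (y j).1) / δ⌋₊, hcell j (by omega)⟩ : Fin K)) : Q × Fin K) =
      ((y j').1, (⟨⌊((y j').2 - a (y j').1) / δ⌋₊, hcell j' (by omega)⟩ : Fin K)) →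
      ∃ j j', j < j' ∧ j' ≤ Fintype.card (Q × Fin K) ∧ (y j).1 = (y j').1 ∧
        |(y j').2 - (y j).2| < δ := by
    intro j j' hlt heq
    simp only [Prod.mk.injEq, Fin.mk.injEq] at heq
    obtain ⟨h1, h2⟩ := heq
    refine ⟨j, j', hlt, by omega, h1, ?_⟩
    have e1 := hy j (by omega)
    have e2 := hy j' (by omega)
    have p1 : 0 ≤ ((y j).2 - a (y j).1) / δ := div_nonneg (by linarith) hδ.le
    have p2 : 0 ≤ ((y j').2 - a (y j').1) / δ := div_nonneg (by linarith) hδ.le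
    have f1 := Nat.floor_le p1
    have f2 := Nat.floor_le p2
    have g1 := Nat.lt_floor_add_one (((y j).2 - a (y j).1) / δ)
    have g2 := Nat.lt_floor_add_one (((y j').2 - a (y j').1) / δ)
    rw [← h1] at f2 g2 h2
    rw [← h2] at f2 g2
    have : |((y j').2 - a (y j).1) / δ - ((y j).2 - a (y j).1) / δ| < 1 := by
      rw [abs_lt]; constructor <;> linarith
    have e : ((y j').2 - a (y j).1) / δ - ((y j).2 - a (y j).1) / δ = ((y j').2 - (y j).2) / δ := by
      ring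
    rw [e, abs_div, abs_of_pos hδ, div_lt_one hδ] at this
    exact this
  rcases lt_or_gt_of_ne hne with h | h
  · exact key j j' h heq
  · exact key j' j h heq.symm

namespace Sys

variable {Q : Type*} (S : Sys Q)

theorem N_unique {x x' y : Q × ℝ} {m m' : ℕ} (hx : S.N x) (hx' : S.N x')
    (h : relPow S.R m x y) (h' : relPow S.R m' x' y) : x = x' := by
  have main : ∀ {x x' y : Q × ℝ} {m m' : ℕ}, S.N x → S.N x' → m ≤ m' →
      relPow S.R m x y → relPow S.R m' x' y → x = x' := by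
    intro x x' y m m' hx hx' hm h h'
    have := relPow_cmp S.bwd hm h h'
    cases hk : m' - m with
    | zero => rw [hk, relPow_zero] at this; exact this.symm
    | succ k =>
      rw [hk] at this
      obtain ⟨z, _, hz⟩ := this
      exact absurd hz (S.N_no _ _ hx)
  rcases le_total m m' with hm | hm
  · exact main hx hx' hm h h'
  · exact (main hx' hx hm h' h).symm

theorem singset_finite : {x | S.N x ∧ ∃ m y, relPow S.R m x y ∧ y ∈ S.D}.Finite := by
  refine Finite.subset (S.Dfin.biUnion (t := fun y => {x | S.N x ∧ ∃ m, relPow S.R m x y})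
    (fun y _ => Set.Subsingleton.finite ?_)) ?_
  · rintro x ⟨hx, m, h⟩ x' ⟨hx', m', h'⟩
    exact S.N_unique hx hx' h h'
  · rintro x ⟨hx, m, y, h, hy⟩
    simp only [mem_iUnion]
    exact ⟨y, hy, hx, m, h⟩

/-- Every entry point leaves (or hits a vertex) within a bounded time. -/
theorem key [Finite Q] : ∃ N₀ : ℕ, ∀ x, S.N x →
    ∃ m ≤ N₀, ∃ y, relPow S.R m x y ∧ (S.X y ∨ y ∈ S.D) := by
  classical
  set F : Set (Q × ℝ) := {x | S.N x ∧ ∃ m y, relPow S.R m x y ∧ y ∈ S.D} with hF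
  have hFfin : F.Finite := S.singset_finite
  -- bound on F
  obtain ⟨N₁, hN₁⟩ : ∃ N₁ : ℕ, ∀ x ∈ F, ∃ m ≤ N₁, ∃ y, relPow S.R m x y ∧ y ∈ S.D := by
    have hch : ∀ x : Q × ℝ, ∃ m : ℕ, x ∈ F → ∃ y, relPow S.R m x y ∧ y ∈ S.D := by
      intro x
      by_cases hx : x ∈ F
      · obtain ⟨_, m, y, h⟩ := hx
        exact ⟨m, fun _ => ⟨y, h⟩⟩
      · exact ⟨0, fun h => absurd h hx⟩
    choose f hf using hch
    obtain ⟨N₁, hN₁⟩ := (hFfin.image f).bddAbove
    exact ⟨N₁, fun x hx => ⟨f x, hN₁ ⟨x, hx, rfl⟩, hf x hx⟩⟩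
  -- gaps
  have hBfin : ∀ q, ({t : ℝ | (q, t) ∈ F ∪ S.D'} ∪ {S.a q, S.b q}).Finite := by
    intro q
    refine Finite.union ?_ (by simp)
    have : {t : ℝ | (q, t) ∈ F ∪ S.D'} = (fun t : ℝ => (q, t)) ⁻¹' (F ∪ S.D') := rfl
    rw [this]
    exact (hFfin.union S.D'fin).preimage (fun x _ y _ h => by simpa using h)
  have hgap := fun q => exists_gap (hBfin q).toFinset
  choose δf hδf hgapf using hgap
  obtain ⟨δ, hδ, hδle⟩ : ∃ δ > 0, ∀ q, δ ≤ δf q := by
    rcases isEmpty_or_nonempty Q with hQ | hQ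
    · exact ⟨1, one_pos, fun q => hQ.elim q⟩
    · obtain ⟨q₀, hq₀⟩ := Finite.exists_min δf
      exact ⟨δf q₀, hδf q₀, hq₀⟩
  obtain ⟨M, hM⟩ := exists_pigeon S.a S.b (half_pos hδ)
  refine ⟨max M N₁, fun x hx => ?_⟩
  by_cases hxF : x ∈ F
  · obtain ⟨m, hm, y, h, hy⟩ := hN₁ x hxF
    exact ⟨m, hm.trans (le_max_right _ _), y, h, Or.inr hy⟩
  obtain ⟨q, p⟩ := x
  have hEx := S.N_E _ hx
  have hD'x := S.N_D' _ hx
  simp only at hEx
  have hpB : p ∉ (hBfin q).toFinset := by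
    simp only [Finite.mem_toFinset, mem_union, mem_ofPred_eq, mem_insert_iff, mem_singleton_iff,
      not_or]
    exact ⟨⟨hxF, hD'x⟩, ne_of_gt hEx.1, ne_of_lt hEx.2⟩
  obtain ⟨c, hc, d, hd, hcp, hpd, hgd, hav⟩ := hgapf q p hpB
    ⟨S.a q, by simp, hEx.1⟩ ⟨S.b q, by simp, hEx.2⟩
  have hac : S.a q ≤ c := by
    by_contra hlt
    exact hav (S.a q) ⟨not_le.1 hlt, by linarith⟩ (by simp)
  have hdb : d ≤ S.b q := by
    by_contra hlt
    exact hav (S.b q) ⟨by linarith, not_le.1 hlt⟩ (by simp)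
  have havF : ∀ t ∈ Ioo c d, (q, t) ∉ F ∧ (q, t) ∉ S.D' := by
    intro t ht
    have := hav t ht
    simp only [Finite.mem_toFinset, mem_union, mem_ofPred_eq, mem_insert_iff, mem_singleton_iff,
      not_or] at this
    exact this.1
  have hN : ∀ t ∈ Ioo c d, S.N (q, t) := by
    rcases S.stepb q c d (by linarith) hac hdb (fun t ht => (havF t ht).2) with h | ⟨q', σ, τ, hσ, hR⟩
    · exact h
    · exact absurd (hR p ⟨hcp, hpd⟩) (S.N_no _ _ hx)
  have hE : ∀ t ∈ Ioo c d, S.E (q, t) := fun t ht => S.N_E _ (hN t ht)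
  have hD : ∀ t ∈ Ioo c d, ∀ m y, relPow S.R m (q, t) y → y ∉ S.D := by
    intro t ht m y h hy
    exact (havF t ht).1 ⟨hN t ht, m, y, h, hy⟩
  have hiter := fun m => S.iter_interval (by linarith : c < d) hE hD m
  by_cases hfirst : ∃ m' ≤ M, ∀ t ∈ Ioo c d, ∃ y, relPow S.R m' (q, t) y ∧ S.X y
  · obtain ⟨m', hm', h⟩ := hfirst
    obtain ⟨y, hy, hXy⟩ := h p ⟨hcp, hpd⟩
    exact ⟨m', hm'.trans (le_max_left _ _), y, hy, Or.inl hXy⟩
  · exfalso
    have hsec : ∀ j : ℕ, ∃ q' σ τ, j ≤ M → (σ = (1:ℝ) ∨ σ = -1) ∧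
        ∀ t ∈ Ioo c d, relPow S.R j (q, t) (q', σ * t + τ) := by
      intro j
      by_cases hj : j ≤ M
      · rcases hiter j with ⟨m', hm', h⟩ | ⟨q', σ, τ, h⟩
        · exact absurd ⟨m', hm'.trans hj, h⟩ hfirst
        · exact ⟨q', σ, τ, fun _ => h⟩
      · exact ⟨q, 0, 0, fun h => absurd h hj⟩
    choose qf σf τf hf using hsec
    have hmid : (c + d) / 2 ∈ Ioo c d := ⟨by linarith, by linarith⟩
    obtain ⟨j, j', hjj, hj'M, hq, hdist⟩ := hM (fun j => (qf j, σf j * ((c + d) / 2) + τf j))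
      (fun j hj => S.relPow_E (hE _ hmid) ((hf j hj).2 _ hmid))
    simp only at hq hdist
    obtain ⟨hσ, h1⟩ := hf j (by omega)
    obtain ⟨hσ', h1'⟩ := hf j' hj'M
    have hσ2 : σf j * σf j = 1 := by rcases hσ with h | h <;> rw [h] <;> norm_num
    set u := σf j' * ((c + d) / 2) + τf j' with hu
    set t := σf j * (u - τf j) with ht
    have e1 : σf j * t + τf j = u := by rw [ht]; linear_combination (u - τf j) * hσ2
    have e2 : t - (c + d) / 2 = σf j * (u - (σf j * ((c + d) / 2) + τf j)) := by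
      rw [ht]; linear_combination ((c + d) / 2) * hσ2
    have e3 : |t - (c + d) / 2| < δ / 2 := by
      rw [e2, abs_mul]
      have : |σf j| = 1 := by rcases hσ with h | h <;> rw [h] <;> simp
      rw [this, one_mul]
      exact hdist
    have hle := (hδle q).trans hgd
    have htm : t ∈ Ioo c d := by
      rw [abs_lt] at e3
      constructor <;> linarith
    have r1 := h1 t htm
    rw [e1, hq] at r1
    have r2 := h1' _ hmid
    rw [← hu] at r2
    have r3 := relPow_cmp S.bwd (by omega : j ≤ j') r1 r2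
    obtain ⟨k, hk⟩ : ∃ k, j' - j = k + 1 := ⟨j' - j - 1, by omega⟩
    rw [hk] at r3
    obtain ⟨z, _, hz⟩ := r3
    exact S.N_no _ _ (hN t htm) hz

/-- forward hull of the entries -/
def U (y : Q × ℝ) : Prop := ∃ m x, relPow S.R m x y ∧ S.N x

theorem U_rev (y : Q × ℝ) : S.rev.U y ↔ ∃ m x, relPow S.R m y x ∧ S.X x := by
  unfold U rev
  simp only [relPow_flip]

theorem U_open {q : Q} {p : ℝ} (h : S.U (q, p)) : ∃ ε > 0, ∀ t, |t| < ε → S.U (q, p + t) := by
  obtain ⟨m, x, hx, hN⟩ := h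
  obtain ⟨ε₁, hε₁, σ, hσ, h1⟩ := S.loc_back_pow m hx
  obtain ⟨ε₂, hε₂, h2⟩ := S.loc_N (q := x.1) (p := x.2) hN
  refine ⟨min ε₁ ε₂, lt_min hε₁ hε₂, fun t ht => ⟨m, _, h1 t (lt_of_lt_of_le ht (min_le_left _ _)),
    h2 _ ?_⟩⟩
  rcases hσ with rfl | rfl <;> simpa using lt_of_lt_of_le ht (min_le_right _ _)

/-- points outside `U` whose backward orbit is long are exterior to `U` -/
theorem ext_U {N₀ : ℕ} (hkey : ∀ x, S.N x → ∃ m ≤ N₀, ∃ y, relPow S.R m x y ∧ (S.X y ∨ y ∈ S.D))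
    {q : Q} {p : ℝ} {w : Q × ℝ} (hw : relPow S.R (N₀ + 1) w (q, p)) :
    ∃ ε > 0, ∀ t, |t| < ε → ¬ S.U (q, p + t) := by
  obtain ⟨ε, hε, σ, hσ, h1⟩ := S.loc_back_pow _ hw
  refine ⟨ε, hε, fun t ht hU => ?_⟩
  have h2 := h1 t ht
  obtain ⟨m, x, hx, hN⟩ := hU
  rcases le_or_gt m N₀ with hm | hm
  · have := relPow_cmp S.bwd (by omega : m ≤ N₀ + 1) hx h2
    obtain ⟨k, hk⟩ : ∃ k, N₀ + 1 - m = k + 1 := ⟨N₀ - m, by omega⟩
    rw [hk] at this
    obtain ⟨z, _, hz⟩ := this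
    exact S.N_no _ _ hN hz
  · obtain ⟨m', hm', y, hy, hXD⟩ := hkey x hN
    have := relPow_cmp_fwd S.fwd (by omega : m' ≤ m) hy hx
    obtain ⟨k, hk⟩ : ∃ k, m - m' = k + 1 := ⟨m - m' - 1, by omega⟩
    rw [hk, relPow_succ'] at this
    obtain ⟨z, hz, _⟩ := this
    rcases hXD with hX | hD
    · exact S.X_no _ _ hX hz
    · exact S.D_no _ _ hD hz

/-- backward dichotomy for points outside `U` -/
theorem back_or {q : Q} {p : ℝ} (hE : S.E (q, p)) (hU : ¬ S.U (q, p)) (m : ℕ) :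
    (∃ w ∈ S.D', ∃ m' ≤ m, relPow S.R m' w (q, p)) ∨ ∃ w, relPow S.R m w (q, p) := by
  induction m with
  | zero => exact Or.inr ⟨_, rfl⟩
  | succ m ih =>
    rcases ih with ⟨w, hw, m', hm', h⟩ | ⟨w, h⟩
    · exact Or.inl ⟨w, hw, m', by omega, h⟩
    · have hEw : S.E w := by
        cases m with
        | zero => rw [relPow_zero] at h; rw [h]; exact hE
        | succ m =>
          rw [relPow_succ'] at h
          obtain ⟨z, hz, _⟩ := h
          exact S.R_left _ _ hz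
      rcases S.tri_back (q := w.1) (p := w.2) hEw with h1 | h1 | ⟨x, hx⟩
      · exact Or.inl ⟨w, h1, m, by omega, h⟩
      · exact absurd ⟨m, w, h, h1⟩ hU
      · refine Or.inr ⟨x, ?_⟩
        rw [relPow_succ']
        exact ⟨w, hx, h⟩

/-- The main abstract statement: without connections every interval that contains an entry or an
exit point consists of points whose forward or backward orbit leaves. -/
theorem main [Finite Q] (hconn : ∀ x ∈ S.D', ∀ y ∈ S.D, ∀ m, ¬ relPow S.R m x y)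
    (q : Q) (hq : ∃ p, S.X (q, p) ∨ S.N (q, p)) (p : ℝ) (hp : S.E (q, p)) :
    S.U (q, p) ∨ S.rev.U (q, p) := by
  classical
  obtain ⟨N₀, hkey⟩ := S.key
  obtain ⟨N₁, hkey'⟩ := S.rev.key
  -- exceptional finite sets
  set Ex : Set (Q × ℝ) := {x | S.N x ∧ ∃ m y, relPow S.R m x y ∧ y ∈ S.D} with hEx
  -- preorbits of D
  have hpre : {z : Q × ℝ | ∃ y ∈ S.D, ∃ m ≤ N₀, relPow S.R m z y}.Finite := by
    refine Finite.subset (S.Dfin.biUnion (t := fun y => ⋃ m ∈ Finset.range (N₀ + 1),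
      {z | relPow S.R m z y}) (fun y _ => ?_)) ?_
    · refine Set.Finite.biUnion (Finset.finite_toSet _) (fun m _ => Set.Subsingleton.finite ?_)
      intro z hz z' hz'
      exact relPow_bwd S.bwd m _ _ _ hz hz'
    · rintro z ⟨y, hy, m, hm, h⟩
      simp only [mem_iUnion]
      exact ⟨y, hy, m, by simpa using Nat.lt_succ_of_le hm, h⟩
  have hpre' : {z : Q × ℝ | ∃ y ∈ S.D', ∃ m ≤ N₁, relPow S.R m y z}.Finite := by
    refine Finite.subset (S.D'fin.biUnion (t := fun y => ⋃ m ∈ Finset.range (N₁ + 1),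
      {z | relPow S.R m y z}) (fun y _ => ?_)) ?_
    · refine Set.Finite.biUnion (Finset.finite_toSet _) (fun m _ => Set.Subsingleton.finite ?_)
      intro z hz z' hz'
      exact relPow_fwd S.fwd m _ _ _ hz hz'
    · rintro z ⟨y, hy, m, hm, h⟩
      simp only [mem_iUnion]
      exact ⟨y, hy, m, by simpa using Nat.lt_succ_of_le hm, h⟩
  -- comparison of the two hulls
  have hUV : ∀ z, S.U z → S.rev.U z ∨ z ∈ {z : Q × ℝ | ∃ y ∈ S.D, ∃ m ≤ N₀, relPow S.R m z y} := by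
    rintro z ⟨m, x, hx, hN⟩
    obtain ⟨m', hm', y, hy, hXD⟩ := hkey x hN
    have hmm : m ≤ m' := by
      by_contra hlt
      have := relPow_cmp_fwd S.fwd (by omega : m' ≤ m) hy hx
      obtain ⟨k, hk⟩ : ∃ k, m - m' = k + 1 := ⟨m - m' - 1, by omega⟩
      rw [hk, relPow_succ'] at this
      obtain ⟨z', hz', _⟩ := this
      rcases hXD with hX | hD
      · exact S.X_no _ _ hX hz'
      · exact S.D_no _ _ hD hz'
    have hzy := relPow_cmp_fwd S.fwd hmm hx hy
    rcases hXD with hX | hD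
    · left
      rw [S.U_rev]
      exact ⟨_, y, hzy, hX⟩
    · right
      exact ⟨y, hD, m' - m, by omega, hzy⟩
  have hVU : ∀ z, S.rev.U z → S.U z ∨ z ∈ {z : Q × ℝ | ∃ y ∈ S.D', ∃ m ≤ N₁, relPow S.R m y z} := by
    rintro z hz
    rw [S.U_rev] at hz
    obtain ⟨m, x, hx, hX⟩ := hz
    obtain ⟨m', hm', y, hy, hND⟩ := hkey' x hX
    change relPow (fun a b => S.R b a) m' x y at hy
    rw [relPow_flip] at hy
    have hmm : m ≤ m' := by
      by_contra hlt
      have := relPow_cmp S.bwd (by omega : m' ≤ m) hy hx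
      obtain ⟨k, hk⟩ : ∃ k, m - m' = k + 1 := ⟨m - m' - 1, by omega⟩
      rw [hk] at this
      obtain ⟨z', _, hz'⟩ := this
      rcases hND with hX | hD
      · exact S.N_no _ _ hX hz'
      · exact S.D'_no _ _ hD hz'
    have hzy := relPow_cmp S.bwd hmm hx hy
    rcases hND with hX | hD
    · left
      exact ⟨_, y, hzy, hX⟩
    · right
      exact ⟨y, hD, m' - m, by omega, hzy⟩
  -- clopen argument on the interval
  set W : Set ℝ := {t | S.U (q, t) ∨ S.rev.U (q, t)} with hW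
  have hopen1 : ∀ t ∈ W, ∃ ε > 0, ∀ h, |h| < ε → t + h ∈ W := by
    intro t ht
    rcases ht with ht | ht
    · obtain ⟨ε, hε, h⟩ := S.U_open ht
      exact ⟨ε, hε, fun h' hh => Or.inl (h h' hh)⟩
    · obtain ⟨ε, hε, h⟩ := S.rev.U_open ht
      exact ⟨ε, hε, fun h' hh => Or.inr (h h' hh)⟩
  have hopen2 : ∀ t, S.E (q, t) → t ∉ W → ∃ ε > 0, ∀ h, |h| < ε → t + h ∉ W := by
    intro t hE ht
    have hnU : ¬ S.U (q, t) := fun h => ht (Or.inl h)
    have hnV : ¬ S.rev.U (q, t) := fun h => ht (Or.inr h)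
    -- small punctured neighbourhoods avoiding the exceptional sets
    obtain ⟨ε₁, hε₁, hav₁⟩ := exists_small' hpre (q := q) (p := t)
    obtain ⟨ε₂, hε₂, hav₂⟩ := exists_small' hpre' (q := q) (p := t)
    by_contra hcon
    push Not at hcon
    -- points of U accumulate or points of V accumulate: both
    have hU' : ∀ ε > 0, ∃ h, |h| < ε ∧ S.U (q, t + h) := by
      intro ε hε
      obtain ⟨h, hh, hmem⟩ := hcon (min ε (min ε₁ ε₂)) (lt_min hε (lt_min hε₁ hε₂))
      refine ⟨h, lt_of_lt_of_le hh (min_le_left _ _), ?_⟩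
      have h0 : h ≠ 0 := by
        rintro rfl
        rw [add_zero] at hmem
        exact ht hmem
      rcases hmem with h1 | h1
      · exact h1
      · rcases hVU _ h1 with h2 | h2
        · exact h2
        · exact absurd h2 (hav₂ h h0 (lt_of_lt_of_le hh ((min_le_right _ _).trans (min_le_right _ _))))
    have hV' : ∀ ε > 0, ∃ h, |h| < ε ∧ S.rev.U (q, t + h) := by
      intro ε hε
      obtain ⟨h, hh, hmem⟩ := hcon (min ε (min ε₁ ε₂)) (lt_min hε (lt_min hε₁ hε₂))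
      refine ⟨h, lt_of_lt_of_le hh (min_le_left _ _), ?_⟩
      have h0 : h ≠ 0 := by
        rintro rfl
        rw [add_zero] at hmem
        exact ht hmem
      rcases hmem with h1 | h1
      · rcases hUV _ h1 with h2 | h2
        · exact h2
        · exact absurd h2 (hav₁ h h0 (lt_of_lt_of_le hh ((min_le_right _ _).trans (min_le_left _ _))))
      · exact h1
    -- backward orbit meets D', forward orbit meets D
    rcases S.back_or hE hnU (N₀ + 1) with ⟨w, hw, m, _, h1⟩ | ⟨w, h1⟩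
    · rcases S.rev.back_or hE hnV (N₁ + 1) with ⟨w', hw', m', _, h2⟩ | ⟨w', h2⟩
      · change relPow (fun a b => S.R b a) m' w' (q, t) at h2
        rw [relPow_flip] at h2
        exact hconn w hw w' hw' (m + m') ((relPow_add _ _ _ _).2 ⟨_, h1, h2⟩)
      · obtain ⟨ε, hε, h3⟩ := S.rev.ext_U hkey' h2
        obtain ⟨h, hh, hm⟩ := hV' ε hε
        exact h3 h hh hm
    · obtain ⟨ε, hε, h3⟩ := S.ext_U hkey h1
      obtain ⟨h, hh, hm⟩ := hU' ε hε
      exact h3 h hh hm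
  -- conclude by connectedness
  obtain ⟨p₀, hp₀⟩ := hq
  have hEp₀ : S.E (q, p₀) := by
    rcases hp₀ with h | h
    · exact S.X_E _ h
    · exact S.N_E _ h
  have hWp₀ : p₀ ∈ W := by
    rcases hp₀ with h | h
    · right
      rw [S.U_rev]
      exact ⟨0, _, rfl, h⟩
    · left
      exact ⟨0, _, rfl, h⟩
  have hconnI : IsPreconnected (Ioo (S.a q) (S.b q)) := isPreconnected_Ioo
  have hO1 : IsOpen (W ∩ Ioo (S.a q) (S.b q)) := by
    rw [Metric.isOpen_iff]
    rintro t ⟨ht, htI⟩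
    obtain ⟨ε, hε, h⟩ := hopen1 t ht
    obtain ⟨ε', hε', h'⟩ := Metric.isOpen_iff.1 isOpen_Ioo t htI
    refine ⟨min ε ε', lt_min hε hε', fun s hs => ⟨?_, h' ?_⟩⟩
    · have := h (s - t) (by rw [Metric.mem_ball, Real.dist_eq] at hs; exact lt_of_lt_of_le hs (min_le_left _ _))
      simpa using this
    · rw [Metric.mem_ball] at hs ⊢
      exact lt_of_lt_of_le hs (min_le_right _ _)
  have hO2 : IsOpen (Wᶜ ∩ Ioo (S.a q) (S.b q)) := by
    rw [Metric.isOpen_iff]
    rintro t ⟨ht, htI⟩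
    obtain ⟨ε, hε, h⟩ := hopen2 t htI ht
    obtain ⟨ε', hε', h'⟩ := Metric.isOpen_iff.1 isOpen_Ioo t htI
    refine ⟨min ε ε', lt_min hε hε', fun s hs => ⟨?_, h' ?_⟩⟩
    · have := h (s - t) (by rw [Metric.mem_ball, Real.dist_eq] at hs; exact lt_of_lt_of_le hs (min_le_left _ _))
      simpa using this
    · rw [Metric.mem_ball] at hs ⊢
      exact lt_of_lt_of_le hs (min_le_right _ _)
  by_contra hnot
  have hpW : p ∉ W := hnot
  have := hconnI _ _ hO1 hO2 (fun t ht => by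
      by_cases h : t ∈ W
      · exact Or.inl ⟨h, ht⟩
      · exact Or.inr ⟨h, ht⟩)
    ⟨p₀, hEp₀, hWp₀, hEp₀⟩ ⟨p, hp, hpW, hp⟩
  obtain ⟨t, _, h1, h2⟩ := this
  exact h2.1 h1.1

/-- no bi-infinite orbits -/
theorem no_orbit [Finite Q] (hconn : ∀ x ∈ S.D', ∀ y ∈ S.D, ∀ m, ¬ relPow S.R m x y)
    (hq : ∀ q, ∃ p, S.X (q, p) ∨ S.N (q, p)) (z : ℤ → Q × ℝ) (hz : ∀ n, S.R (z n) (z (n+1))) :
    False := by
  have hback : ∀ m : ℕ, relPow S.R m (z (-m)) (z 0) := by
    intro m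
    induction m with
    | zero => simp [relPow_zero]
    | succ m ih =>
      rw [relPow_succ']
      refine ⟨z (-m), ?_, ih⟩
      have := hz (-(m+1 : ℕ))
      convert this using 2
      push_cast
      ring
  have hfwd : ∀ m : ℕ, relPow S.R m (z 0) (z m) := by
    intro m
    induction m with
    | zero => simp [relPow_zero]
    | succ m ih => exact ⟨z m, ih, by exact_mod_cast hz m⟩
  rcases S.main hconn (z 0).1 (hq _) (z 0).2 (S.R_left _ _ (hz 0)) with h | h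
  · obtain ⟨m, x, hx, hN⟩ := h
    have h2 := relPow_bwd S.bwd m _ _ _ hx (hback m)
    subst h2
    have := hz (-(m:ℤ) - 1)
    rw [sub_add_cancel] at this
    exact S.N_no _ _ hN this
  · rw [S.U_rev] at h
    obtain ⟨m, x, hx, hX⟩ := h
    have h2 := relPow_fwd S.fwd m _ _ _ hx (hfwd m)
    subst h2
    exact S.X_no _ _ hX (hz m)

end Sys

end Bil62
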