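import Pool.Agent.Helper62.Bil.Dyn

/-! Conditions on the sides other than `a_i` under which traps are null. -/

namespace Bil62

open MeasureTheory Set

open scoped ComplexConjugate ENNReal

namespace ConvexPolygon

variable {n : ℕ} [NeZero n] {P : ConvexPolygon n} {i : Fin n} {N : Set (Fin n × ℝ × ℝ)}

theorem measurable_vel : Measurable P.vel := by
  apply measurable_from_prod_countable_right
  intro k
  apply Continuous.measurable
  unfold vel
  fun_prop

theorem measurable_pos : Measurable P.pos := by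
  apply measurable_from_prod_countable_right
  intro k
  apply Continuous.measurable
  unfold pos
  fun_prop

theorem measurable_cross {α : Type*} [MeasurableSpace α] {f g : α → ℂ} (hf : Measurable f)
    (hg : Measurable g) : Measurable fun x => cross (f x) (g x) := by
  unfold cross
  exact ((Complex.measurable_re.comp hf).mul (Complex.measurable_im.comp hg)).sub
    ((Complex.measurable_im.comp hf).mul (Complex.measurable_re.comp hg))

theorem measurable_dot {α : Type*} [MeasurableSpace α] {f g : α → ℂ} (hf : Measurable f)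
    (hg : Measurable g) : Measurable fun x => dot (f x) (g x) := by
  unfold dot
  exact ((Complex.measurable_re.comp hf).mul (Complex.measurable_re.comp hg)).add
    ((Complex.measurable_im.comp hf).mul (Complex.measurable_im.comp hg))

theorem abs_dot_le (u v : ℂ) : |dot u v| ≤ ‖u‖ * ‖v‖ := by
  have : dot u v = (conj u * v).re := by simp [dot]
  rw [this]
  refine (Complex.abs_re_le_norm _).trans ?_
  rw [norm_mul, RCLike.norm_conj]

theorem abs_cross_le' (u v : ℂ) : |cross u v| ≤ ‖u‖ * ‖v‖ := by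
  have : cross u v = (conj u * v).im := by simp [cross]; ring
  rw [this]
  refine (Complex.abs_im_le_norm _).trans ?_
  rw [norm_mul, RCLike.norm_conj]

/-- outgoing velocity in terms of the incoming one -/
theorem hits_vel {z z' : Fin n × ℝ × ℝ} (h : P.Hits z z') :
    P.vel z' = P.vel z + ((2 * Real.sin z'.2.1 : ℝ) : ℂ) * (Complex.I * P.dir z'.1) := by
  obtain ⟨t, ht, hpos, _, hvel⟩ := h
  rw [hvel]
  unfold vel
  rw [neg_mul, Complex.exp_neg, ← Complex.exp_neg]
  rw [Complex.exp_mul_I, show -((z'.2.1 : ℂ) * Complex.I) = (-(z'.2.1 : ℂ)) * Complex.I by ring,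
    Complex.exp_mul_I, Complex.cos_neg, Complex.sin_neg]
  push_cast
  ring

theorem dot_I_mul (d e : ℂ) : dot (Complex.I * d) e = cross d e := by
  simp [dot, cross]; ring

theorem hits_dot {z z' : Fin n × ℝ × ℝ} (h : P.Hits z z') (e : ℂ) :
    dot (P.vel z') e = dot (P.vel z) e + 2 * Real.sin z'.2.1 * cross (P.dir z'.1) e := by
  rw [hits_vel h, dot_add_left, dot_smul_left, dot_I_mul]

theorem hits_ang {z z' : Fin n × ℝ × ℝ} (h : P.Hits z z') (o : ℂ) :
    cross (P.pos z' - o) (P.vel z') = cross (P.pos z - o) (P.vel z) +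
      2 * Real.sin z'.2.1 * dot (P.pos z' - o) (P.dir z'.1) := by
  rw [hits_vel h, cross_add_right, cross_smul_right, cross_I_mul]
  obtain ⟨t, ht, hpos, _, hvel⟩ := h
  rw [hpos, show P.pos z + (t : ℂ) * P.vel z - o = (P.pos z - o) + (t : ℂ) * P.vel z by ring,
    cross_add_left, cross_smul_left, cross_self]
  ring

theorem norm_pos_le : ∃ K : ℝ, ∀ z ∈ P.Phase, ‖P.pos z‖ ≤ K := by
  refine ⟨∑ k, (‖P.V k‖ + P.len k), fun z hz => ?_⟩
  have h1 : ‖P.pos z‖ ≤ ‖P.V z.1‖ + P.len z.1 := by
    unfold pos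
    refine (norm_add_le _ _).trans ?_
    rw [norm_mul, Complex.norm_real, P.norm_dir, mul_one, Real.norm_eq_abs,
      abs_of_pos hz.2.1]
    linarith [hz.2.2]
  refine h1.trans ?_
  exact Finset.single_le_sum (f := fun k => ‖P.V k‖ + P.len k)
    (fun k _ => add_nonneg (norm_nonneg _) (P.len_pos k).le) (Finset.mem_univ z.1)

/-- type S: strict monotonicity of the angular momentum -/
theorem Trap.null_of_ang (hT : P.Trap i N) (o : ℂ)
    (h : (∀ k, k ≠ i → 0 ≤ dot (P.dir k) (o - P.V (k + 1))) ∨
      (∀ k, k ≠ i → dot (P.dir k) (o - P.V k) ≤ 0)) : P.mu N = 0 := by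
  obtain ⟨K, hK⟩ := P.norm_pos_le
  have hm : Measurable fun z => cross (P.pos z - o) (P.vel z) :=
    measurable_cross (measurable_pos.sub_const o) measurable_vel
  have hb : ∀ᵐ z ∂P.mu, z ∈ N → |cross (P.pos z - o) (P.vel z)| ≤ K + ‖o‖ := by
    filter_upwards [P.ae_dom] with z hz _
    refine (abs_cross_le' _ _).trans ?_
    rw [P.norm_vel, mul_one]
    exact (norm_sub_le _ _).trans (by linarith [hK z hz.1])
  rcases h with h | h
  · -- decreasing
    have hlt : ∀ᵐ z ∂P.mu, z ∈ N → cross (P.pos (P.phi z) - o) (P.vel (P.phi z)) <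
        cross (P.pos z - o) (P.vel z) := by
      filter_upwards [hT.hits] with z hz hN
      obtain ⟨_, h2, h3, h4⟩ := hz hN
      have h5 := h _ h4
      have hs := P.sin_pos_of_phase h2
      rw [hits_ang h3 o]
      have h6 : dot (P.pos (P.phi z) - o) (P.dir (P.phi z).1) < 0 := by
        have e : P.pos (P.phi z) - o = -(o - P.V ((P.phi z).1 + 1)) +
            (((P.phi z).2.2 - P.len (P.phi z).1 : ℝ) : ℂ) * P.dir (P.phi z).1 := by
          unfold pos
          rw [P.V_succ]; push_cast; ring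
        rw [e, dot_add_left, dot_smul_left, dot_self_of_norm _ (P.norm_dir _), mul_one]
        have e2 : dot (-(o - P.V ((P.phi z).1 + 1))) (P.dir (P.phi z).1) =
            - dot (P.dir (P.phi z).1) (o - P.V ((P.phi z).1 + 1)) := by
          simp [dot]; ring
        rw [e2]
        linarith [h2.2.2]
      nlinarith
    have heq := mono_eq P.measurePreserving_phi hT.meas hT.inv hm hb
      (by filter_upwards [hlt] with z hz hN; exact (hz hN).le)
    rw [measure_eq_zero_iff_ae_notMem]
    filter_upwards [hlt, heq] with z h1 h2 h3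
    exact absurd (h2 h3) (h1 h3).ne
  · have hlt : ∀ᵐ z ∂P.mu, z ∈ N → - cross (P.pos (P.phi z) - o) (P.vel (P.phi z)) <
        - cross (P.pos z - o) (P.vel z) := by
      filter_upwards [hT.hits] with z hz hN
      obtain ⟨_, h2, h3, h4⟩ := hz hN
      have h5 := h _ h4
      have hs := P.sin_pos_of_phase h2
      rw [hits_ang h3 o]
      have h6 : 0 < dot (P.pos (P.phi z) - o) (P.dir (P.phi z).1) := by
        have e : P.pos (P.phi z) - o = -(o - P.V (P.phi z).1) +
            (((P.phi z).2.2 : ℝ) : ℂ) * P.dir (P.phi z).1 := by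
          unfold pos; ring
        rw [e, dot_add_left, dot_smul_left, dot_self_of_norm _ (P.norm_dir _), mul_one]
        have e2 : dot (-(o - P.V (P.phi z).1)) (P.dir (P.phi z).1) =
            - dot (P.dir (P.phi z).1) (o - P.V (P.phi z).1) := by
          simp [dot]; ring
        rw [e2]
        linarith [h2.2.1]
      nlinarith
    have heq := mono_eq P.measurePreserving_phi hT.meas hT.inv hm.neg
      (K := K + ‖o‖) (by filter_upwards [hb] with z hz hN; rw [Pi.neg_apply, abs_neg]; exact hz hN)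
      (by filter_upwards [hlt] with z hz hN; exact (hz hN).le)
    rw [measure_eq_zero_iff_ae_notMem]
    filter_upwards [hlt, heq] with z h1 h2 h3
    exact absurd (h2 h3) (h1 h3).ne

/-- type E: monotonicity of a component of the velocity -/
theorem Trap.null_of_halfplane (hT : P.Trap i N) (e : ℂ) (he : e ≠ 0)
    (h : ∀ k, k ≠ i → cross (P.dir k) e ≤ 0) : P.mu N = 0 := by
  obtain ⟨K, hK⟩ := P.norm_pos_le
  have hm : Measurable fun z => dot (P.vel z) e := measurable_dot measurable_vel measurable_const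
  have hm' : Measurable fun z => dot (P.pos z) e := measurable_dot measurable_pos measurable_const
  have hb : ∀ᵐ z ∂P.mu, z ∈ N → |dot (P.vel z) e| ≤ ‖e‖ := by
    filter_upwards with z hz
    refine (abs_dot_le _ _).trans ?_
    rw [P.norm_vel, one_mul]
  have hg := mono_eq P.measurePreserving_phi hT.meas hT.inv hm hb (by
    filter_upwards [hT.hits] with z hz hN
    obtain ⟨_, h2, h3, h4⟩ := hz hN
    have hs := P.sin_pos_of_phase h2
    rw [hits_dot h3 e]
    nlinarith [h _ h4])
  -- the parts where the component is positive or negative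
  have hnull : ∀ s : ℝ, (s = 1 ∨ s = -1) → ∀ᵐ z ∂P.mu, z ∈ N → ¬ (0 < s * dot (P.vel z) e) := by
    intro s hs
    have hms : Measurable fun z => s * dot (P.vel z) e := hm.const_mul s
    have hT' : P.Trap i (N ∩ (fun z => s * dot (P.vel z) e) ⁻¹' Ioi 0) :=
      hT.inter hms (by filter_upwards [hg] with z hz hN; rw [hz hN]) measurableSet_Ioi
    have hms' : Measurable fun z => - (s * dot (P.pos z) e) := (hm'.const_mul s).neg
    have hlt : ∀ᵐ z ∂P.mu, z ∈ (N ∩ (fun z => s * dot (P.vel z) e) ⁻¹' Ioi 0) →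
        - (s * dot (P.pos (P.phi z)) e) < - (s * dot (P.pos z) e) := by
      filter_upwards [hT'.hits] with z hz hN
      obtain ⟨_, h2, ⟨t, ht, hpos, _, _⟩, h4⟩ := hz hN
      rw [hpos, dot_add_left, dot_smul_left]
      have h5 : 0 < s * dot (P.vel z) e := hN.2
      nlinarith [mul_pos ht h5]
    have heq := mono_eq P.measurePreserving_phi hT'.meas hT'.inv hms' (K := K * ‖e‖) (by
      filter_upwards [P.ae_dom] with z hz _
      rw [abs_neg, abs_mul]
      have : |s| = 1 := by rcases hs with rfl | rfl <;> simp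
      rw [this, one_mul]
      refine (abs_dot_le _ _).trans ?_
      exact mul_le_mul_of_nonneg_right (hK z hz.1) (norm_nonneg _))
      (by filter_upwards [hlt] with z hz hN; exact (hz hN).le)
    filter_upwards [hlt, heq] with z h1 h2 h3 h4
    exact absurd (h2 ⟨h3, h4⟩) (h1 ⟨h3, h4⟩).ne
  -- the rest has only finitely many directions
  have hfin : {u : ℂ | ‖u‖ = 1 ∧ cross u (Complex.I * e) = 0}.Countable :=
    (finite_parallel (mul_ne_zero Complex.I_ne_zero he)).countable
  rw [measure_eq_zero_iff_ae_notMem]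
  filter_upwards [hnull 1 (Or.inl rfl), hnull (-1) (Or.inr rfl), ae_vel_notMem hfin] with z h1 h2 h3 h4
  have h5 := h1 h4
  have h6 := h2 h4
  apply h3
  refine ⟨P.norm_vel z, ?_⟩
  rw [cross_I_mul]
  linarith

/-- the chord sequence of an orbit -/
theorem chord_of_orbit {y : ℤ → Fin n × ℝ × ℝ}
    (hy : ∀ m, y m ∈ P.Phase ∧ (y m).1 ≠ i ∧ P.Hits (y m) (y (m + 1))) (m : ℤ) :
    P.ChordR i (P.vel (y m), P.pv (y m)) (P.vel (y (m + 1)), P.pv (y (m + 1))) :=
  P.hits_chord (hy (m + 1)).1 (hy m).2.2 (hy (m + 1)).2.1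

/-- almost every orbit in a trap has infinitely many directions -/
theorem Trap.infinite_dir (hT : P.Trap i N) : ∀ᵐ z ∂P.mu, z ∈ N → ∀ y : ℤ → Fin n × ℝ × ℝ,
    y 0 = z → (∀ m, y m ∈ P.Phase ∧ (y m).1 ≠ i ∧ P.Hits (y m) (y (m + 1))) →
    (range fun m => P.vel (y m)).Infinite := by
  filter_upwards [ae_vel_notMem (P := P) (P.countable_not_good i)] with z hz hN y hy0 hy hfin
  have hg : P.Good i (P.vel z) := by
    by_contra hg
    exact hz ⟨P.norm_vel z, hg⟩
  refine P.no_finite_orbit i (fun m => (P.vel (y m), P.pv (y m))) (chord_of_orbit hy)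
    (P.norm_vel _) ?_ ?_
  · simpa [hy0] using hg
  · exact hfin

theorem Trap.null_of_finite (hT : P.Trap i N)
    (h : ∀ z : ℤ → ℂ × ℝ, (∀ m, P.ChordR i (z m) (z (m + 1))) → (∀ m, ‖(z m).1‖ = 1) →
      (range fun m => (z m).1).Finite) : P.mu N = 0 := by
  rw [measure_eq_zero_iff_ae_notMem]
  filter_upwards [hT.orbit, hT.infinite_dir] with z h1 h2 h3
  obtain ⟨y, hy0, hy⟩ := h1 h3
  exact h2 h3 y hy0 hy (h (fun m => (P.vel (y m), P.pv (y m))) (chord_of_orbit hy)
    (fun m => P.norm_vel _))

/-- type D -/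
theorem Trap.null_of_doors (hT : P.Trap i N) {w ζ : ℂ} (hw : ‖w‖ = 1) (hζ : ‖ζ‖ = 1)
    (hD : ∀ k, k ≠ i → (P.dir k ^ 2 = w ∨ P.dir k ^ 2 = -w) ∨
      ((k = i + 1 ∨ k + 1 = i) ∧ (P.dir k ^ 2 = w * ζ ∨ P.dir k ^ 2 = w * conj ζ))) :
    P.mu N = 0 :=
  hT.null_of_finite fun z hz hn => P.confine i hw hζ hD z hz hn

/-- type R -/
theorem Trap.null_of_rational (hT : P.Trap i N) {w : ℂ} {m : ℕ} (hm : 0 < m)
    (hR : ∀ k, k ≠ i → P.dir k ^ (2 * m) = w) : P.mu N = 0 := by
  refine hT.null_of_finite fun z hz hn => ?_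
  have key : ∀ a : ℤ, (z a).1 ^ m = (z 0).1 ^ m ∨ (z a).1 ^ m = w * conj ((z 0).1 ^ m) := by
    have hstep : ∀ a, (z (a + 1)).1 ^ m = w * conj ((z a).1 ^ m) := by
      intro a
      obtain ⟨k, hk, _, h2, _⟩ := hz a
      rw [h2]
      unfold refl
      rw [mul_pow, ← pow_mul, hR k hk, map_pow]
    have hback : ∀ a, (z a).1 ^ m = w * conj ((z (a + 1)).1 ^ m) := by
      intro a
      obtain ⟨k, hk, _, _, _⟩ := hz a
      have hw : w * conj w = 1 := by
        rw [← hR k hk, map_pow, ← mul_pow, P.dir_mul_conj, one_pow]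
      rw [hstep a, map_mul, Complex.conj_conj, ← mul_assoc, hw, one_mul]
    intro a
    have hww : w * conj w = 1 := by
      obtain ⟨k, hk, _, _, _⟩ := hz 0
      rw [← hR k hk, map_pow, ← mul_pow, P.dir_mul_conj, one_pow]
    induction a using Int.induction_on with
    | zero => exact Or.inl rfl
    | succ a ih =>
      rw [hstep]
      rcases ih with h | h
      · right; rw [h]
      · left; rw [h, map_mul, Complex.conj_conj, ← mul_assoc, hww, one_mul]
    | pred a ih =>
      have e := hback (-(a : ℤ) - 1)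
      rw [sub_add_cancel] at e
      rw [e]
      rcases ih with h | h
      · right; rw [h]
      · left; rw [h, map_mul, Complex.conj_conj, ← mul_assoc, hww, one_mul]
  have hS : ({(z 0).1 ^ m, w * conj ((z 0).1 ^ m)} : Set ℂ).Finite := by simp
  have hroots : ∀ c : ℂ, {v : ℂ | v ^ m = c}.Finite := by
    intro c
    have : {v : ℂ | v ^ m = c} ⊆ ((Polynomial.X ^ m - Polynomial.C c : Polynomial ℂ).roots.toFinset : Set ℂ) := by
      intro v hv
      simp only [mem_ofPred_eq] at hv
      simp only [Finset.mem_coe, Multiset.mem_toFinset]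
      rw [Polynomial.mem_roots (Polynomial.X_pow_sub_C_ne_zero hm c)]
      simp [hv]
    exact (Finset.finite_toSet _).subset this
  refine Set.Finite.subset ((hroots ((z 0).1 ^ m)).union (hroots (w * conj ((z 0).1 ^ m)))) ?_
  rintro _ ⟨a, rfl⟩
  exact key a

end ConvexPolygon

end Bil62
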