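import Pool.Agent.Helper62.Bil.FiniteDir

/-! Closed doors and confinement of directions. -/

namespace Bil62

open MeasureTheory Set

open scoped ComplexConjugate

/-- powers of a non-torsion element of the circle are dense -/
theorem circle_dense (ξ : Circle) (h : ∀ m : ℕ, 0 < m → ξ ^ m ≠ 1) :
    DenseRange (fun L : ℕ => ξ ^ L) := by
  have : Fact (0 < 2 * Real.pi) := ⟨by positivity⟩
  set H := AddCircle.homeomorphCircle (T := 2 * Real.pi) (by positivity)
  obtain ⟨a, ha⟩ := H.surjective ξ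
  have hpow : ∀ m : ℕ, H (m • a) = ξ ^ m := by
    intro m
    rw [← ha]
    simp only [H, AddCircle.homeomorphCircle_apply, AddCircle.toCircle_nsmul]
  have hord : addOrderOf a = 0 := by
    rw [addOrderOf_eq_zero_iff']
    intro m hm h0
    apply h m hm
    rw [← hpow, h0]
    simp only [H, AddCircle.homeomorphCircle_apply, AddCircle.toCircle_zero]
  have h1 := AddCircle.denseRange_zsmul_iff.2 hord
  rw [denseRange_zsmul_iff_nsmul] at h1
  have h2 := H.surjective.denseRange.comp h1 H.continuous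
  convert h2 using 1
  funext L
  exact (hpow L).symm

/-- density in norm form -/
theorem exists_pow_close {ξ a : ℂ} (hξ : ‖ξ‖ = 1) (ha : ‖a‖ = 1)
    (h : ∀ m : ℕ, 0 < m → ξ ^ m ≠ 1) {ε : ℝ} (hε : 0 < ε) : ∃ L : ℕ, ‖ξ ^ L - a‖ < ε := by
  set ξ' : Circle := ⟨ξ, by simpa [Submonoid.unitSphere] using hξ⟩
  set a' : Circle := ⟨a, by simpa [Submonoid.unitSphere] using ha⟩
  have hd := circle_dense ξ' (fun m hm h0 => h m hm (by
    have h1 := congrArg (fun x : Circle => (x : ℂ)) h0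
    simp only [Circle.coe_pow, Circle.coe_one] at h1
    exact h1))
  obtain ⟨L, hL⟩ := hd.exists_dist_lt a' hε
  refine ⟨L, ?_⟩
  have : dist a' (ξ' ^ L) = ‖a - ξ ^ L‖ := by
    have h1 : dist a' (ξ' ^ L) = dist (a' : ℂ) ((ξ' ^ L : Circle) : ℂ) := rfl
    rw [h1, Circle.coe_pow, Complex.dist_eq]
  rw [this] at hL
  rwa [norm_sub_rev]

/-- `‖v² - d²‖ = 2 |cross d v|` for unit vectors -/
theorem norm_sq_sub_sq {v d : ℂ} (hv : ‖v‖ = 1) (hd : ‖d‖ = 1) :
    ‖v ^ 2 - d ^ 2‖ = 2 * |cross d v| := by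
  have h1 : v.re * v.re + v.im * v.im = 1 := by
    have := Complex.sq_norm v
    rw [hv, Complex.normSq_apply] at this
    linarith
  have h2 : d.re * d.re + d.im * d.im = 1 := by
    have := Complex.sq_norm d
    rw [hd, Complex.normSq_apply] at this
    linarith
  have h3 : ‖v ^ 2 - d ^ 2‖ ^ 2 = (2 * |cross d v|) ^ 2 := by
    rw [Complex.sq_norm, Complex.normSq_apply, mul_pow, sq_abs]
    simp only [pow_two, Complex.sub_re, Complex.sub_im, Complex.mul_re, Complex.mul_im, cross]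
    linear_combination (v.re * v.re + v.im * v.im + 1 - 2 * (d.re * d.re + d.im * d.im)) * h1
      + ((d.re * d.re + d.im * d.im) - 1) * h2
  exact (sq_eq_sq₀ (norm_nonneg _) (by positivity)).1 h3

theorem finite_sq {S : Set ℂ} (hS : S.Finite) : {v : ℂ | v ^ 2 ∈ S}.Finite := by
  refine hS.preimage' (f := fun v : ℂ => v ^ 2) (fun b _ => ?_)
  rcases Set.eq_empty_or_nonempty ((fun v : ℂ => v ^ 2) ⁻¹' {b}) with h | ⟨v₀, hv₀⟩
  · rw [h]; exact Set.finite_empty
  · refine Set.Finite.subset (s := {v₀, -v₀}) (by simp) ?_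
    intro v hv
    simp only [mem_preimage, mem_singleton_iff] at hv hv₀
    rcases sq_eq_sq_iff_eq_or_eq_neg.1 (hv.trans hv₀.symm) with h | h
    · exact Or.inl h
    · exact Or.inr h

/-- the level condition -/
def Lev (w ζ q₀ : ℂ) (L : ℤ) (q : ℂ) : Prop :=
  q = ζ ^ (2 * L) * q₀ ∨ q = w ^ 2 * conj (ζ ^ (2 * L) * q₀)

theorem unit_mul_conj {z : ℂ} (h : ‖z‖ = 1) : z * conj z = 1 := by
  rw [Complex.mul_conj, Complex.normSq_eq_norm_sq, h]; simp

theorem norm_unit_mul {c z : ℂ} (h : ‖c‖ = 1) : ‖c * z‖ = ‖z‖ := by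
  rw [norm_mul, h, one_mul]

theorem lev_step {w ζ q₀ : ℂ} (hw : ‖w‖ = 1) (hζ : ‖ζ‖ = 1) {ε : ℝ} {Lm Lp : ℤ}
    (hLp : ‖ζ ^ (2 * Lp + 1) * q₀ - w‖ < ε) (hLm : ‖ζ ^ (2 * Lm - 1) * q₀ - w‖ < ε)
    {d q q' : ℂ} (hq' : q' = d ^ 4 * conj q)
    (hd : (d ^ 2 = w ∨ d ^ 2 = -w) ∨ (ε ≤ ‖q - d ^ 2‖ ∧ (d ^ 2 = w * ζ ∨ d ^ 2 = w * conj ζ)))
    (hlev : ∃ L ∈ Icc Lm Lp, Lev w ζ q₀ L q) : ∃ L ∈ Icc Lm Lp, Lev w ζ q₀ L q' := by
  obtain ⟨L, hL, hlev⟩ := hlev
  have hww := unit_mul_conj hw
  have hζζ := unit_mul_conj hζ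
  have hζ0 : ζ ≠ 0 := by
    intro h0; rw [h0, norm_zero] at hζ; exact zero_ne_one hζ
  have hconj : conj ζ = ζ⁻¹ := eq_inv_of_mul_eq_one_right hζζ
  have hd4 : d ^ 4 = (d ^ 2) ^ 2 := by ring
  have succ2 : ∀ L : ℤ, ζ ^ (2 * (L + 1)) = ζ ^ 2 * ζ ^ (2 * L) := by
    intro L
    rw [show 2 * (L + 1) = 2 * L + 2 by ring, zpow_add₀ hζ0]
    norm_cast
    ring
  have pred2 : ∀ L : ℤ, ζ ^ (2 * (L - 1)) = conj ζ ^ 2 * ζ ^ (2 * L) := by
    intro L
    rw [show 2 * (L - 1) = 2 * L + (-2) by ring, zpow_add₀ hζ0, hconj, zpow_neg]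
    norm_cast
    rw [inv_pow]; ring
  have succ1 : ∀ L : ℤ, ζ ^ (2 * L + 1) = ζ * ζ ^ (2 * L) := by
    intro L
    rw [zpow_add₀ hζ0, zpow_one]; ring
  have pred1 : ∀ L : ℤ, ζ ^ (2 * L - 1) = conj ζ * ζ ^ (2 * L) := by
    intro L
    rw [sub_eq_add_neg, zpow_add₀ hζ0, zpow_neg, zpow_one, hconj]; ring
  -- the two crossing distances
  have distp : ∀ X : ℂ, ‖X - w * conj ζ‖ = ‖ζ * X - w‖ := by
    intro X
    rw [← norm_unit_mul (z := X - w * conj ζ) hζ]
    congr 1
    linear_combination (-w) * hζζ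
  have distm : ∀ X : ℂ, ‖X - w * ζ‖ = ‖conj ζ * X - w‖ := by
    intro X
    rw [← norm_unit_mul (c := conj ζ) (z := X - w * ζ) (by rwa [RCLike.norm_conj])]
    congr 1
    linear_combination (-w) * hζζ
  have distp' : ∀ X : ℂ, ‖w ^ 2 * conj X - w * ζ‖ = ‖ζ * X - w‖ := by
    intro X
    have e : w ^ 2 * conj X - w * ζ = w * (w * (conj (X - w * conj ζ))) := by
      simp only [map_sub, map_mul, Complex.conj_conj]
      linear_combination (w * ζ) * hww
    rw [e, norm_unit_mul hw, norm_unit_mul hw, RCLike.norm_conj, distp]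
  have distm' : ∀ X : ℂ, ‖w ^ 2 * conj X - w * conj ζ‖ = ‖conj ζ * X - w‖ := by
    intro X
    have e : w ^ 2 * conj X - w * conj ζ = w * (w * (conj (X - w * ζ))) := by
      simp only [map_sub, map_mul]
      linear_combination (w * conj ζ) * hww
    rw [e, norm_unit_mul hw, norm_unit_mul hw, RCLike.norm_conj, distm]
  rcases hd with hd | ⟨hfar, hd⟩
  · have hd2 : d ^ 4 = w ^ 2 := by
      rcases hd with hd | hd <;> (rw [hd4, hd]; try ring)
    refine ⟨L, hL, ?_⟩
    rcases hlev with h | h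
    · right
      rw [hq', hd2, h]
    · left
      rw [hq', hd2, h, map_mul, map_pow, Complex.conj_conj]
      linear_combination (ζ ^ (2 * L) * q₀ * (w * conj w + 1)) * hww
  · rcases hd with hd | hd
    · -- door ζ
      have hd2 : d ^ 4 = w ^ 2 * ζ ^ 2 := by rw [hd4, hd]; ring
      rcases hlev with h | h
      · have hne : L ≠ Lm := by
          rintro rfl
          rw [hd, h, distm, ← mul_assoc, ← pred1] at hfar
          linarith
        refine ⟨L - 1, ⟨by have := hL.1; omega, by have := hL.2; omega⟩, Or.inr ?_⟩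
        rw [hq', hd2, h, pred2]
        simp only [map_mul, map_pow, Complex.conj_conj]
        ring
      · have hne : L ≠ Lp := by
          rintro rfl
          rw [hd, h, distp', ← mul_assoc, ← succ1] at hfar
          linarith
        refine ⟨L + 1, ⟨by have := hL.1; omega, by have := hL.2; omega⟩, Or.inl ?_⟩
        rw [hq', hd2, h, succ2]
        simp only [map_mul, map_pow, Complex.conj_conj]
        have : conj (conj (ζ ^ (2 * L))) = ζ ^ (2 * L) := Complex.conj_conj _
        linear_combination (ζ ^ 2 * ζ ^ (2 * L) * q₀ * (w * conj w + 1)) * hww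
    · have hd2 : d ^ 4 = w ^ 2 * conj ζ ^ 2 := by rw [hd4, hd]; ring
      rcases hlev with h | h
      · have hne : L ≠ Lp := by
          rintro rfl
          rw [hd, h, distp, ← mul_assoc, ← succ1] at hfar
          linarith
        refine ⟨L + 1, ⟨by have := hL.1; omega, by have := hL.2; omega⟩, Or.inr ?_⟩
        rw [hq', hd2, h, succ2]
        simp only [map_mul, map_pow]
        ring
      · have hne : L ≠ Lm := by
          rintro rfl
          rw [hd, h, distm', ← mul_assoc, ← pred1] at hfar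
          linarith
        refine ⟨L - 1, ⟨by have := hL.1; omega, by have := hL.2; omega⟩, Or.inl ?_⟩
        rw [hq', hd2, h, pred2]
        simp only [map_mul, map_pow, Complex.conj_conj]
        linear_combination (conj ζ ^ 2 * ζ ^ (2 * L) * q₀ * (w * conj w + 1)) * hww

theorem cross_expand {d : ℂ} (hd : ‖d‖ = 1) (v w : ℂ) :
    cross v w = dot d v * cross d w - cross d v * dot d w := by
  have h2 : d.re * d.re + d.im * d.im = 1 := by
    have := Complex.sq_norm d
    rw [hd, Complex.normSq_apply] at this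
    linarith
  simp only [cross, dot]
  linear_combination (-(v.re * w.im - v.im * w.re)) * h2

namespace ConvexPolygon

variable {n : ℕ} [NeZero n] (P : ConvexPolygon n)

theorem cross_dir_refl (k : Fin n) (u : ℂ) :
    cross (P.dir k) (P.refl k u) = - cross (P.dir k) u := by
  rw [cross_comm, P.cross_refl_dir, cross_comm u, neg_neg]

theorem dot_dir_refl (k : Fin n) (u : ℂ) :
    dot (P.dir k) (P.refl k u) = dot (P.dir k) u := by
  have h : P.dir k ^ 2 * conj (P.dir k) = P.dir k := by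
    have := P.dir_mul_conj k
    calc P.dir k ^ 2 * conj (P.dir k) = P.dir k * (P.dir k * conj (P.dir k)) := by ring
      _ = P.dir k := by rw [this]; ring
  have h2 := dot_mul_left (P.dir k ^ 2) (conj (P.dir k)) (conj u) (P.norm_dir_sq k)
  rw [h, dot_conj] at h2
  exact h2

/-- elementary estimate behind the grazing lemmas -/
theorem graze_aux {c s G M : ℝ} (hG : 0 < G) (hc : 0 < c) (hcs : c ^ 2 + s ^ 2 = 1) (hs : 0 ≤ s)
    (hs1 : s ≤ 1 / 2) (hs2 : s * (2 * (|M| + 1)) ≤ G) : 0 ≤ c * G - s * M := by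
  have h1 : 1 / 2 ≤ c := by nlinarith
  have h2 : s * M ≤ s * |M| := mul_le_mul_of_nonneg_left (le_abs_self M) hs
  nlinarith [abs_nonneg M]

/-- a grazing outgoing chord on the side before the hole runs into the hole -/
theorem graze_before (k : Fin n) : ∃ ε > 0, ε ≤ 1 / 2 ∧ ∀ v p, ‖v‖ = 1 → P.Ent v p k →
    0 < dot (P.dir k) v → cross (P.dir k) v < ε → P.Exit v p (k + 1) := by
  set w := P.V (k + 1 + 1) - P.V k with hw
  set G := P.g k (P.V (k + 1 + 1)) with hG
  have hGpos : 0 < G := P.g_V_pos (P.exists_other k).1 (P.exists_other k).2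
  set M := dot (P.dir k) w with hM
  refine ⟨min (1 / 2) (G / (2 * (|M| + 1))), by positivity, min_le_left _ _, ?_⟩
  intro v p hv hent hdot hcr
  refine ⟨hent.1, lt_of_lt_of_le hent.2 ?_⟩
  have hs := P.ent_cross hent
  have h1 := (lt_of_lt_of_le hcr (min_le_left _ _)).le
  have h2 := (lt_of_lt_of_le hcr (min_le_right _ _)).le
  rw [le_div_iff₀ (by positivity)] at h2
  have h3 := graze_aux hGpos hdot (dot_sq_add_cross_sq _ _ (P.norm_dir k) hv) hs.le h1 h2
  have h4 := cross_expand (P.norm_dir k) v w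
  have h5 : cross (P.dir k) w = G := rfl
  rw [h5, ← hM] at h4
  rw [← h4, hw, cross_sub_right] at h3
  linarith

/-- a grazing outgoing chord on the side after the hole runs into the hole -/
theorem graze_after (i : Fin n) : ∃ ε > 0, ε ≤ 1 / 2 ∧ ∀ v p, ‖v‖ = 1 → P.Ent v p (i + 1) →
    dot (P.dir (i + 1)) v < 0 → cross (P.dir (i + 1)) v < ε → P.Exit v p i := by
  set w := P.V (i + 1 + 1) - P.V i with hw
  set G := P.g (i + 1) (P.V i) with hG
  have hGpos : 0 < G := P.g_V_pos (Ne.symm (P.succ_ne i)) (Ne.symm (P.succ_succ_ne i))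
  set M := dot (P.dir (i + 1)) w with hM
  refine ⟨min (1 / 2) (G / (2 * (|M| + 1))), by positivity, min_le_left _ _, ?_⟩
  intro v p hv hent hdot hcr
  refine ⟨lt_of_le_of_lt ?_ hent.1, hent.2⟩
  have hs := P.ent_cross hent
  have h1 := (lt_of_lt_of_le hcr (min_le_left _ _)).le
  have h2 := (lt_of_lt_of_le hcr (min_le_right _ _)).le
  rw [le_div_iff₀ (by positivity)] at h2
  have hsq := dot_sq_add_cross_sq _ _ (P.norm_dir (i + 1)) hv
  have h3 := graze_aux (c := - dot (P.dir (i + 1)) v) (M := M) hGpos (by linarith)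
    (by rw [neg_sq]; exact hsq) hs.le h1 h2
  have h4 := cross_expand (P.norm_dir (i + 1)) v w
  have h5 : cross (P.dir (i + 1)) w = - G := by
    have e1 : P.g (i + 1) (P.V (i + 1 + 1)) = 0 := P.g_V_succ (i + 1)
    have e2 : cross (P.dir (i + 1)) w = P.g (i + 1) (P.V (i + 1 + 1)) - P.g (i + 1) (P.V i) := by
      unfold g
      rw [← cross_sub_right, hw]
      congr 1
      ring
    rw [e2, e1, zero_sub]
  rw [h5, ← hM] at h4
  have h6 : 0 ≤ cross v w := by rw [h4]; linarith
  rw [hw, cross_sub_right] at h6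
  linarith

/-- Closed doors: a bi-infinite orbit avoiding side `i` never hits a neighbouring side at a small
angle. -/
theorem door_closed (i k : Fin n) (hk : k = i + 1 ∨ k + 1 = i) : ∃ ε > 0,
    ∀ z : ℤ → ℂ × ℝ, (∀ m, P.ChordR i (z m) (z (m + 1))) → (∀ m, ‖(z m).1‖ = 1) →
      ∀ m, P.Exit (z m).1 (z m).2 k → ε ≤ |cross (P.dir k) (z m).1| := by
  -- common formulation of both grazing lemmas
  obtain ⟨ε, hε, hε2, τ, hτ, hgr⟩ : ∃ ε > 0, ε ≤ 1 / 2 ∧ ∃ τ : ℝ, (τ = 1 ∨ τ = -1) ∧
      ∀ v p, ‖v‖ = 1 → P.Ent v p k → 0 < τ * dot (P.dir k) v → cross (P.dir k) v < ε →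
        P.Exit v p i := by
    rcases hk with rfl | rfl
    · obtain ⟨ε, hε, hε2, h⟩ := P.graze_after i
      exact ⟨ε, hε, hε2, -1, Or.inr rfl, fun v p hv he hd hc => h v p hv he (by linarith) hc⟩
    · obtain ⟨ε, hε, hε2, h⟩ := P.graze_before k
      exact ⟨ε, hε, hε2, 1, Or.inl rfl, fun v p hv he hd hc => h v p hv he (by linarith) hc⟩
  refine ⟨ε, hε, fun z hz hn m hex => ?_⟩
  by_contra hlt
  rw [not_le] at hlt
  have hv := hn m
  set v := (z m).1 with hvdef
  set p := (z m).2 with hpdef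
  have hsq := dot_sq_add_cross_sq _ _ (P.norm_dir k) hv
  have hlt' := abs_lt.1 hlt
  have hc0 : dot (P.dir k) v ≠ 0 := by
    intro h0
    rw [h0] at hsq
    nlinarith [hlt'.1, hlt'.2]
  have hcne : τ * dot (P.dir k) v ≠ 0 := by
    rcases hτ with rfl | rfl <;> simpa using hc0
  rcases lt_or_gt_of_ne hcne with hneg | hpos
  · -- the incoming chord came from the hole
    have hent : P.Ent (-v) (-p) k := by
      rw [ent_iff_exit, neg_neg, neg_neg]
      exact hex
    have h1 := hgr (-v) (-p) (by rwa [norm_neg]) hent ?_ ?_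
    · rw [← P.ent_iff_exit] at h1
      obtain ⟨k', hk', hex', e1, e2⟩ := hz (m - 1)
      rw [sub_add_cancel] at e1 e2
      have h2 := P.exit_refl hex'
      rw [← e1, ← e2] at h2
      exact hk' (P.ent_unique hv h2 h1)
    · have : dot (P.dir k) (-v) = - dot (P.dir k) v := by simp [dot]; ring
      rw [this]; linarith
    · rw [cross_neg_right]; linarith [hlt'.1]
  · obtain ⟨k', hk', hex', e1, e2⟩ := hz m
    have hkk := P.exit_unique hv hex' hex
    subst hkk
    have h2 := P.exit_refl hex'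
    rw [← e1, ← e2] at h2
    have h1 := hgr _ _ (hn (m + 1)) h2 ?_ ?_
    · obtain ⟨k'', hk'', hex'', _, _⟩ := hz (m + 1)
      exact hk'' (P.exit_unique (hn (m + 1)) hex'' h1)
    · rw [e1, P.dot_dir_refl]; exact hpos
    · rw [e1, P.cross_dir_refl]; linarith [hlt'.1]

theorem sq_induct (i : Fin n) (z : ℤ → ℂ × ℝ) (hz : ∀ m, P.ChordR i (z m) (z (m + 1)))
    {Q : ℂ → Prop} (h0 : Q ((z 0).1 ^ 2))
    (hstep : ∀ (k : Fin n) (q q' : ℂ), k ≠ i → q' = P.dir k ^ 4 * conj q → Q q → Q q') (m : ℤ) :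
    Q ((z m).1 ^ 2) := by
  induction m using Int.induction_on with
  | zero => exact h0
  | succ m ih =>
    obtain ⟨k, hk, _, e1, _⟩ := hz m
    refine hstep k _ _ hk ?_ ih
    rw [e1]; unfold refl; rw [map_pow]; ring
  | pred m ih =>
    obtain ⟨k, hk, _, e1, _⟩ := hz (-(m:ℤ) - 1)
    rw [sub_add_cancel] at e1
    refine hstep k _ _ hk ?_ ih
    have : (z (-(m:ℤ) - 1)).1 = P.refl k (z (-(m:ℤ))).1 := by rw [e1, P.refl_refl]
    rw [this]; unfold refl; rw [map_pow]; ring

/-- Confinement: if all sides other than `i` are parallel or perpendicular to a fixed direction,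
except possibly for neighbours of `i` in two symmetric directions, every bi-infinite orbit avoiding
side `i` has finitely many directions.  The hypothesis is in terms of squares of the unit side
vectors. -/
theorem confine (i : Fin n) {w ζ : ℂ} (hw : ‖w‖ = 1) (hζ : ‖ζ‖ = 1)
    (hD : ∀ k, k ≠ i → (P.dir k ^ 2 = w ∨ P.dir k ^ 2 = -w) ∨
      ((k = i + 1 ∨ k + 1 = i) ∧ (P.dir k ^ 2 = w * ζ ∨ P.dir k ^ 2 = w * conj ζ)))
    (z : ℤ → ℂ × ℝ) (hz : ∀ m, P.ChordR i (z m) (z (m + 1))) (hn : ∀ m, ‖(z m).1‖ = 1) :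
    (Set.range fun m => (z m).1).Finite := by
  have hζ0 : ζ ≠ 0 := by
    intro h0; rw [h0, norm_zero] at hζ; exact zero_ne_one hζ
  set q₀ := (z 0).1 ^ 2 with hq₀
  have hq₀n : ‖q₀‖ = 1 := by rw [hq₀, norm_pow, hn, one_pow]
  -- it suffices to bound the squares
  suffices h : ∃ S : Set ℂ, S.Finite ∧ ∀ m, (z m).1 ^ 2 ∈ S by
    obtain ⟨S, hS, h⟩ := h
    refine (finite_sq hS).subset ?_
    rintro _ ⟨m, rfl⟩
    exact h m
  by_cases htor : ∃ m : ℕ, 0 < m ∧ (ζ ^ 2) ^ m = 1
  · -- torsion case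
    obtain ⟨M, hM, hM1⟩ := htor
    have hfin : (Set.range fun L : ℤ => ζ ^ (2 * L)).Finite := by
      refine Set.Finite.subset (Set.finite_range fun L : Fin M => ζ ^ (2 * (L : ℤ))) ?_
      rintro _ ⟨L, rfl⟩
      have hMz : (0 : ℤ) < M := by exact_mod_cast hM
      refine ⟨⟨(L % M).toNat, ?_⟩, ?_⟩
      · have := Int.emod_lt_of_pos L hMz
        have h2 := Int.emod_nonneg L hMz.ne'
        omega
      · simp only
        have h2 := Int.emod_nonneg L hMz.ne'
        rw [Int.toNat_of_nonneg h2]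
        conv_rhs => rw [← Int.emod_add_mul_ediv L M]
        rw [mul_add, zpow_add₀ hζ0]
        have : ζ ^ (2 * ((M : ℤ) * (L / M))) = 1 := by
          rw [← mul_assoc, zpow_mul, zpow_mul]
          have : (ζ ^ (2 : ℤ)) ^ (M : ℤ) = 1 := by
            exact_mod_cast hM1
          rw [this, one_zpow]
        rw [this, mul_one]
    refine ⟨(fun x => x * q₀) '' (Set.range fun L : ℤ => ζ ^ (2 * L)) ∪
      (fun x => w ^ 2 * conj (x * q₀)) '' (Set.range fun L : ℤ => ζ ^ (2 * L)),
      (hfin.image _).union (hfin.image _), ?_⟩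
    -- use the step lemma with artificial doors far away is not needed: direct induction
    have hmem : ∀ q, (∃ L : ℤ, Lev w ζ q₀ L q) →
        q ∈ (fun x => x * q₀) '' (Set.range fun L : ℤ => ζ ^ (2 * L)) ∪
      (fun x => w ^ 2 * conj (x * q₀)) '' (Set.range fun L : ℤ => ζ ^ (2 * L)) := by
      rintro q ⟨L, h | h⟩
      · exact Or.inl ⟨_, ⟨L, rfl⟩, h.symm⟩
      · exact Or.inr ⟨_, ⟨L, rfl⟩, h.symm⟩
    have hww := unit_mul_conj hw
    have hζζ := unit_mul_conj hζ
    have hconj : conj ζ = ζ⁻¹ := eq_inv_of_mul_eq_one_right hζζ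
    have succ2 : ∀ L : ℤ, ζ ^ (2 * (L + 1)) = ζ ^ 2 * ζ ^ (2 * L) := by
      intro L
      rw [show 2 * (L + 1) = 2 * L + 2 by ring, zpow_add₀ hζ0]
      norm_cast
      ring
    have pred2 : ∀ L : ℤ, ζ ^ (2 * (L - 1)) = conj ζ ^ 2 * ζ ^ (2 * L) := by
      intro L
      rw [show 2 * (L - 1) = 2 * L + (-2) by ring, zpow_add₀ hζ0, hconj, zpow_neg]
      norm_cast
      rw [inv_pow]; ring
    have hstep : ∀ (k : Fin n) (q q' : ℂ), k ≠ i → q' = P.dir k ^ 4 * conj q →
        (∃ L : ℤ, Lev w ζ q₀ L q) → ∃ L : ℤ, Lev w ζ q₀ L q' := by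
      intro k q q' hk hq' ⟨L, hL⟩
      have hd4 : P.dir k ^ 4 = (P.dir k ^ 2) ^ 2 := by ring
      rcases hD k hk with hd | ⟨_, hd⟩
      · have hd2 : P.dir k ^ 4 = w ^ 2 := by
          rcases hd with hd | hd <;> rw [hd4, hd]
          ring
        rcases hL with h | h
        · exact ⟨L, Or.inr (by rw [hq', hd2, h])⟩
        · refine ⟨L, Or.inl ?_⟩
          rw [hq', hd2, h, map_mul, map_pow, Complex.conj_conj]
          linear_combination (ζ ^ (2 * L) * q₀ * (w * conj w + 1)) * hww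
      · rcases hd with hd | hd
        · have hd2 : P.dir k ^ 4 = w ^ 2 * ζ ^ 2 := by rw [hd4, hd]; ring
          rcases hL with h | h
          · refine ⟨L - 1, Or.inr ?_⟩
            rw [hq', hd2, h, pred2]
            simp only [map_mul, map_pow, Complex.conj_conj]
            ring
          · refine ⟨L + 1, Or.inl ?_⟩
            rw [hq', hd2, h, succ2]
            simp only [map_mul, map_pow, Complex.conj_conj]
            linear_combination (ζ ^ 2 * ζ ^ (2 * L) * q₀ * (w * conj w + 1)) * hww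
        · have hd2 : P.dir k ^ 4 = w ^ 2 * conj ζ ^ 2 := by rw [hd4, hd]; ring
          rcases hL with h | h
          · refine ⟨L + 1, Or.inr ?_⟩
            rw [hq', hd2, h, succ2]
            simp only [map_mul, map_pow]
            ring
          · refine ⟨L - 1, Or.inl ?_⟩
            rw [hq', hd2, h, pred2]
            simp only [map_mul, map_pow, Complex.conj_conj]
            linear_combination (conj ζ ^ 2 * ζ ^ (2 * L) * q₀ * (w * conj w + 1)) * hww
    have key : ∀ m : ℤ, ∃ L : ℤ, Lev w ζ q₀ L ((z m).1 ^ 2) := by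
      refine sq_induct P i z hz ?_ hstep
      exact ⟨0, Or.inl (by simp [hq₀])⟩
    exact fun m => hmem _ (key m)
  · -- non-torsion case: closed doors
    push Not at htor
    obtain ⟨ε₁, hε₁, h₁⟩ := P.door_closed i (i + 1) (Or.inl rfl)
    obtain ⟨ε₂, hε₂, h₂⟩ := P.door_closed i (i - 1) (Or.inr (sub_add_cancel _ _))
    set ε := 2 * min ε₁ ε₂ with hε
    have hεpos : 0 < ε := by positivity
    obtain ⟨Lp, hLp⟩ := exists_pow_close (ξ := ζ ^ 2) (a := conj (ζ * q₀) * w)
      (by rw [norm_pow, hζ, one_pow])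
      (by rw [norm_mul, RCLike.norm_conj, norm_mul, hζ, hq₀n, hw]; norm_num) htor hεpos
    obtain ⟨Lm, hLm⟩ := exists_pow_close (ξ := conj ζ ^ 2) (a := conj (conj ζ * q₀) * w)
      (by rw [norm_pow, RCLike.norm_conj, hζ, one_pow])
      (by rw [norm_mul, RCLike.norm_conj, norm_mul, RCLike.norm_conj, hζ, hq₀n, hw]; norm_num)
      (by
        intro m hm h0
        apply htor m hm
        have := congrArg conj h0
        simpa using this) hεpos
    have hζζ := unit_mul_conj hζ
    have hconj : conj ζ = ζ⁻¹ := eq_inv_of_mul_eq_one_right hζζ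
    have hLp' : ‖ζ ^ (2 * (Lp : ℤ) + 1) * q₀ - w‖ < ε := by
      have e : ζ ^ (2 * (Lp : ℤ) + 1) * q₀ - w = (ζ * q₀) * ((ζ ^ 2) ^ Lp - conj (ζ * q₀) * w) := by
        have h3 : (ζ * q₀) * conj (ζ * q₀) = 1 := by
          apply unit_mul_conj
          rw [norm_mul, hζ, hq₀n, one_mul]
        have h4 : ζ ^ (2 * (Lp : ℤ) + 1) = (ζ ^ 2) ^ Lp * ζ := by
          rw [← pow_mul]
          exact_mod_cast pow_succ ζ (2 * Lp)
        rw [h4]
        linear_combination w * h3
      rw [e, norm_unit_mul (by rw [norm_mul, hζ, hq₀n, one_mul])]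
      exact hLp
    have hLm' : ‖ζ ^ (2 * (-(Lm : ℤ)) - 1) * q₀ - w‖ < ε := by
      have e : ζ ^ (2 * (-(Lm : ℤ)) - 1) * q₀ - w =
          (conj ζ * q₀) * ((conj ζ ^ 2) ^ Lm - conj (conj ζ * q₀) * w) := by
        have h3 : (conj ζ * q₀) * conj (conj ζ * q₀) = 1 := by
          apply unit_mul_conj
          rw [norm_mul, RCLike.norm_conj, hζ, hq₀n, one_mul]
        have h4 : ζ ^ (2 * (-(Lm : ℤ)) - 1) = (conj ζ ^ 2) ^ Lm * conj ζ := by
          rw [hconj, ← pow_mul, show 2 * (-(Lm : ℤ)) - 1 = -((2 * Lm + 1 : ℕ) : ℤ) by push_cast; ring,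
            zpow_neg, zpow_natCast, ← inv_pow, pow_succ]
        rw [h4]
        linear_combination w * h3
      rw [e, norm_unit_mul (by rw [norm_mul, RCLike.norm_conj, hζ, hq₀n, one_mul])]
      exact hLm
    -- far condition
    have hfar : ∀ (m : ℤ) (k : Fin n), (k = i + 1 ∨ k + 1 = i) → P.Exit (z m).1 (z m).2 k →
        ε ≤ 2 * |cross (P.dir k) (z m).1| := by
      intro m k hk hex
      rcases hk with hk | hk
      · have := h₁ z hz hn m (by rw [← hk]; exact hex)
        rw [← hk] at this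
        have h5 := min_le_left ε₁ ε₂
        rw [hε]; linarith
      · have hk' : k = i - 1 := by rw [← hk, add_sub_cancel_right]
        have := h₂ z hz hn m (by rw [← hk']; exact hex)
        rw [← hk'] at this
        have h5 := min_le_right ε₁ ε₂
        rw [hε]; linarith
    have key : ∀ m : ℤ, ∃ L ∈ Icc (-(Lm : ℤ)) Lp, Lev w ζ q₀ L ((z m).1 ^ 2) := by
      intro m
      induction m using Int.induction_on with
      | zero => exact ⟨0, ⟨by omega, by omega⟩, Or.inl (by simp [hq₀])⟩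
      | succ m ih =>
        obtain ⟨k, hk, hex, e1, _⟩ := hz m
        refine lev_step hw hζ hLp' hLm' (d := P.dir k) (q := (z m).1 ^ 2) ?_ ?_ ih
        · rw [e1]; unfold refl; rw [map_pow]; ring
        · rcases hD k hk with h | ⟨h, h'⟩
          · exact Or.inl h
          · refine Or.inr ⟨?_, h'⟩
            rw [norm_sq_sub_sq (hn _) (P.norm_dir k)]
            exact hfar m k h hex
      | pred m ih =>
        obtain ⟨k, hk, hex, e1, _⟩ := hz (-(m:ℤ) - 1)
        rw [sub_add_cancel] at e1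
        refine lev_step hw hζ hLp' hLm' (d := P.dir k) (q := (z (-(m:ℤ))).1 ^ 2) ?_ ?_ ih
        · have : (z (-(m:ℤ) - 1)).1 = P.refl k (z (-(m:ℤ))).1 := by rw [e1, P.refl_refl]
          rw [this]; unfold refl; rw [map_pow]; ring
        · rcases hD k hk with h | ⟨h, h'⟩
          · exact Or.inl h
          · refine Or.inr ⟨?_, h'⟩
            rw [norm_sq_sub_sq (hn _) (P.norm_dir k), e1, P.cross_dir_refl, abs_neg]
            exact hfar _ k h hex
    refine ⟨⋃ L ∈ Icc (-(Lm : ℤ)) (Lp : ℤ), {ζ ^ (2 * L) * q₀, w ^ 2 * conj (ζ ^ (2 * L) * q₀)},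
      Set.Finite.biUnion (Set.finite_Icc _ _) (fun L _ => by simp), fun m => ?_⟩
    obtain ⟨L, hL, h⟩ := key m
    simp only [mem_iUnion]
    exact ⟨L, hL, h⟩

end ConvexPolygon

end Bil62
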