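import Mathlib

/-! Billiards in convex polygons: definitions.  The plane is `ℂ`. -/

namespace Bil62

open MeasureTheory Set

/-- the planar cross product `z.re * w.im - z.im * w.re` -/
def cross (z w : ℂ) : ℝ := z.re * w.im - z.im * w.re

/-- A strictly convex polygon with `n ≥ 3` vertices `V 0, …, V (n-1)` listed counterclockwise:
every vertex other than `V k, V (k+1)` lies strictly to the left of the directed line from
`V k` to `V (k+1)` (indices modulo `n`). -/
structure ConvexPolygon (n : ℕ) [NeZero n] where
  V : Fin n → ℂ
  three_le : 3 ≤ n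
  convex : ∀ k j : Fin n, j ≠ k → j ≠ k + 1 → 0 < cross (V (k + 1) - V k) (V j - V k)

namespace ConvexPolygon

variable {n : ℕ} [NeZero n] (P : ConvexPolygon n)

/-- length of the side `a_k` from `V k` to `V (k+1)` -/
noncomputable def len (k : Fin n) : ℝ := ‖P.V (k + 1) - P.V k‖

/-- unit direction vector of the side `a_k` -/
noncomputable def dir (k : Fin n) : ℂ := (P.V (k + 1) - P.V k) / (P.len k : ℂ)

/-- the open region bounded by the polygon: the points strictly to the left of all sides -/
def interior : Set ℂ := {z | ∀ k, 0 < cross (P.V (k + 1) - P.V k) (z - P.V k)}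

/-- The phase space `Φ` of the billiard map.  A point is a triple `(k, θ, s)`: the base point is
the point of the (open) side `a_k` at arclength `s` from `V k`, and the unit vector makes the
angle `θ ∈ (0, π)` with the side and points into the polygon. -/
def Phase : Set (Fin n × ℝ × ℝ) :=
  {z | z.2.1 ∈ Ioo 0 Real.pi ∧ z.2.2 ∈ Ioo 0 (P.len z.1)}

/-- base point of a phase point -/
noncomputable def pos (z : Fin n × ℝ × ℝ) : ℂ := P.V z.1 + (z.2.2 : ℂ) * P.dir z.1

/-- (outgoing) unit vector of a phase point -/
noncomputable def vel (z : Fin n × ℝ × ℝ) : ℂ :=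
  P.dir z.1 * Complex.exp ((z.2.1 : ℂ) * Complex.I)

/-- `P.Hits z z'`: the ray from the base point of `z` in the direction of `z` runs inside the
polygon until it arrives at the base point of `z'`, and `z'` is the phase point obtained there by
reflecting the direction by the law of equal angles: the incoming unit vector is
`dir * exp(-iθ')` and the outgoing one is `dir * exp(iθ')`. -/
def Hits (z z' : Fin n × ℝ × ℝ) : Prop :=
  ∃ t : ℝ, 0 < t ∧ P.pos z' = P.pos z + (t : ℂ) * P.vel z ∧
    (∀ r ∈ Ioo 0 t, P.pos z + (r : ℂ) * P.vel z ∈ P.interior) ∧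
    P.vel z = P.dir z'.1 * Complex.exp (-(z'.2.1 : ℂ) * Complex.I)

open Classical in
/-- The billiard map `φ`.  It is given the junk value `z` at the points where it is not defined
(rays hitting a vertex). -/
noncomputable def billiardMap (z : Fin n × ℝ × ℝ) : Fin n × ℝ × ℝ :=
  if h : ∃ z' ∈ P.Phase, P.Hits z z' then h.choose else z

/-- The measure `dμ = sin θ ds dθ` on the phase space. -/
noncomputable def mu : Measure (Fin n × ℝ × ℝ) :=
  Measure.sum fun k : Fin n => Measure.map (fun x : ℝ × ℝ => (k, x))
    ((volume.restrict (Ioo 0 Real.pi ×ˢ Ioo 0 (P.len k))).withDensity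
      (fun x => ENNReal.ofReal (Real.sin x.1)))

/-- A measurable set is invariant if `φ⁻¹(M) = M` up to a `μ`-null set. -/
def Invariant (M : Set (Fin n × ℝ × ℝ)) : Prop :=
  MeasurableSet M ∧ P.mu (symmDiff (P.billiardMap ⁻¹' M) M) = 0

end ConvexPolygon

end Bil62
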