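import Pool.Agent.Helper62.Bil.Meas4

/-! Invariant sets that miss one side. -/

namespace Bil62

open MeasureTheory Set

open scoped ComplexConjugate ENNReal

/-- a bounded function that does not increase along the orbits in an invariant set is constant
along almost all of them -/
theorem mono_eq {X : Type*} [MeasurableSpace X] {μ : Measure X} [IsFiniteMeasure μ] {φ : X → X}
    (hφ : MeasurePreserving φ μ μ) {N : Set X} (hN : MeasurableSet N)
    (hinv : ∀ᵐ z ∂μ, φ z ∈ N ↔ z ∈ N) {g : X → ℝ} (hg : Measurable g) {K : ℝ}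
    (hb : ∀ᵐ z ∂μ, z ∈ N → |g z| ≤ K) (hle : ∀ᵐ z ∂μ, z ∈ N → g (φ z) ≤ g z) :
    ∀ᵐ z ∂μ, z ∈ N → g (φ z) = g z := by
  classical
  set f : X → ℝ := N.indicator g with hf
  have hfm : Measurable f := hg.indicator hN
  have hfi : Integrable f μ := by
    refine Integrable.of_bound hfm.aestronglyMeasurable |K| ?_
    filter_upwards [hb] with z hz
    rw [hf]
    by_cases h : z ∈ N
    · rw [indicator_of_mem h, Real.norm_eq_abs]
      exact (hz h).trans (le_abs_self K)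
    · rw [indicator_of_notMem h, norm_zero]
      exact abs_nonneg K
  have hfφ : Integrable (f ∘ φ) μ := hφ.integrable_comp_of_integrable hfi
  have h1 : ∫ z, f (φ z) ∂μ = ∫ z, f z ∂μ := by
    have := integral_map (μ := μ) hφ.measurable.aemeasurable
      (f := f) (by rw [hφ.map_eq]; exact hfm.aestronglyMeasurable)
    rw [hφ.map_eq] at this
    exact this.symm
  have h2 : ∫ z, (f z - f (φ z)) ∂μ = 0 := by
    have e : ∫ z, (f z - f (φ z)) ∂μ = ∫ z, f z ∂μ - ∫ z, f (φ z) ∂μ := integral_sub hfi hfφ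
    rw [e, h1, sub_self]
  have h3 : 0 ≤ᵐ[μ] fun z => f z - f (φ z) := by
    filter_upwards [hinv, hle] with z hz1 hz2
    simp only [Pi.zero_apply, hf]
    by_cases h : z ∈ N
    · rw [indicator_of_mem h, indicator_of_mem (hz1.2 h)]
      linarith [hz2 h]
    · rw [indicator_of_notMem h, indicator_of_notMem (fun h' => h (hz1.1 h')), sub_zero]
  have h4 := (integral_eq_zero_iff_of_nonneg_ae h3 (hfi.sub hfφ)).1 h2
  filter_upwards [h4, hinv] with z hz1 hz2 h
  simp only [Pi.zero_apply, hf] at hz1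
  rw [indicator_of_mem h, indicator_of_mem (hz2.2 h)] at hz1
  linarith

namespace ConvexPolygon

variable {n : ℕ} [NeZero n] (P : ConvexPolygon n)

/-- `N` is an invariant set that misses side `i` -/
structure Trap (i : Fin n) (N : Set (Fin n × ℝ × ℝ)) : Prop where
  meas : MeasurableSet N
  inv : ∀ᵐ z ∂P.mu, P.phi z ∈ N ↔ z ∈ N
  miss : ∀ᵐ z ∂P.mu, z ∈ N → z.1 ≠ i

theorem trap_of_invariant {i : Fin n} {M : Set (Fin n × ℝ × ℝ)} (hM : P.Invariant M)
    (h : P.mu ({z | z.1 = i} \ M) = 0) : P.Trap i Mᶜ := by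
  refine ⟨hM.1.compl, ?_, ?_⟩
  · have h1 : ∀ᵐ z ∂P.mu, z ∉ symmDiff (P.billiardMap ⁻¹' M) M := measure_eq_zero_iff_ae_notMem.1 hM.2
    filter_upwards [h1, P.ae_phi] with z hz1 hz2
    rw [hz2, mem_compl_iff, mem_compl_iff]
    rw [Set.mem_symmDiff] at hz1
    simp only [mem_preimage] at hz1
    tauto
  · have h1 : ∀ᵐ z ∂P.mu, z ∉ ({z | z.1 = i} \ M : Set (Fin n × ℝ × ℝ)) :=
      measure_eq_zero_iff_ae_notMem.1 h
    filter_upwards [h1] with z hz hN hi
    exact hz ⟨hi, hN⟩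

variable {P} {i : Fin n} {N : Set (Fin n × ℝ × ℝ)}

theorem Trap.hits (hT : P.Trap i N) : ∀ᵐ z ∂P.mu, z ∈ N → z ∈ P.Phase ∧ P.phi z ∈ P.Phase ∧
    P.Hits z (P.phi z) ∧ (P.phi z).1 ≠ i := by
  filter_upwards [P.ae_dom, hT.inv, P.measurePreserving_phi.quasiMeasurePreserving.ae hT.miss]
    with z h1 h2 h3 hz
  obtain ⟨h4, h5⟩ := P.hits_map h1
  rw [← P.phi_of_mem h1] at h4 h5
  exact ⟨h1.1, h4, h5, h3 (h2.2 hz)⟩

theorem Trap.inter (hT : P.Trap i N) {g : Fin n × ℝ × ℝ → ℝ} (hg : Measurable g)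
    (h : ∀ᵐ z ∂P.mu, z ∈ N → g (P.phi z) = g z) {s : Set ℝ} (hs : MeasurableSet s) :
    P.Trap i (N ∩ g ⁻¹' s) := by
  refine ⟨hT.meas.inter (hg hs), ?_, ?_⟩
  · filter_upwards [hT.inv, h] with z h1 h2
    simp only [mem_inter_iff, mem_preimage]
    constructor
    · rintro ⟨h3, h4⟩
      have := h1.1 h3
      exact ⟨this, by rw [← h2 this]; exact h4⟩
    · rintro ⟨h3, h4⟩
      exact ⟨h1.2 h3, by rw [h2 h3]; exact h4⟩
  · filter_upwards [hT.miss] with z h1 h2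
    exact h1 h2.1

theorem ae_rev_dom : ∀ᵐ z ∂P.mu, rev z ∈ P.Dom := by
  have hm : MeasurableSet {z : Fin n × ℝ × ℝ | rev z ∈ P.Dom} := measurable_rev P.measurableSet_dom
  rw [ae_iff]
  change P.mu {z | rev z ∈ P.Dom}ᶜ = 0
  rw [P.mu_apply hm.compl]
  refine Finset.sum_eq_zero fun l _ => ?_
  apply measure_mono_null _ (P.nu_dom' l)
  rintro x hx ⟨k, h1, y, h2, h3⟩
  exact hx ⟨P.rev_phase h1, rev (k, y), P.rev_phase h2, P.hits_rev h3⟩

theorem hits_psi {z : Fin n × ℝ × ℝ} (h : rev z ∈ P.Dom) : P.psi z ∈ P.Phase ∧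
    P.Hits (P.psi z) z := by
  obtain ⟨h1, h2⟩ := P.hits_map h
  unfold psi
  rw [P.phi_of_mem h]
  refine ⟨P.rev_phase h1, ?_⟩
  have := P.hits_rev h2
  rwa [rev_rev] at this

theorem Trap.inv_psi (hT : P.Trap i N) : ∀ᵐ z ∂P.mu, P.psi z ∈ N ↔ z ∈ N := by
  have h0 : MeasurableSet {z | P.psi z ∈ N ↔ z ∈ N} := by
    have : {z | P.psi z ∈ N ↔ z ∈ N} = (P.psi ⁻¹' N ∩ N) ∪ ((P.psi ⁻¹' N)ᶜ ∩ Nᶜ) := by
      ext z
      simp only [mem_ofPred_eq, mem_union, mem_inter_iff, mem_preimage, mem_compl_iff]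
      tauto
    rw [this]
    exact ((P.measurable_psi hT.meas).inter hT.meas).union
      ((P.measurable_psi hT.meas).compl.inter hT.meas.compl)
  rw [ae_iff]
  change P.mu {z | P.psi z ∈ N ↔ z ∈ N}ᶜ = 0
  rw [← P.mu_preimage h0.compl]
  rw [measure_eq_zero_iff_ae_notMem]
  filter_upwards [P.ae_psi_phi, hT.inv] with z h1 h2 h3
  apply h3
  change P.psi (P.phi z) ∈ N ↔ P.phi z ∈ N
  rw [h1, h2]

/-- almost every point of a trap has a two-sided orbit in the trap -/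
theorem Trap.orbit' (hT : P.Trap i N) : ∀ᵐ z ∂P.mu, z ∈ N → ∃ y : ℤ → Fin n × ℝ × ℝ, y 0 = z ∧
    ∀ m, y m ∈ N ∧ y m ∈ P.Phase ∧ (y m).1 ≠ i ∧ P.Hits (y m) (y (m + 1)) := by
  have hq := P.measurePreserving_phi.quasiMeasurePreserving
  have hq' := P.measurePreserving_psi.quasiMeasurePreserving
  have h1 : ∀ᵐ z ∂P.mu, ∀ m : ℕ, (P.phi (P.phi^[m] z) ∈ N ↔ P.phi^[m] z ∈ N) :=
    ae_all_iff.2 fun m => (hq.iterate m).ae (p := fun z => P.phi z ∈ N ↔ z ∈ N) hT.inv
  have h2 : ∀ᵐ z ∂P.mu, ∀ m : ℕ, (P.psi (P.psi^[m] z) ∈ N ↔ P.psi^[m] z ∈ N) :=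
    ae_all_iff.2 fun m => (hq'.iterate m).ae (p := fun z => P.psi z ∈ N ↔ z ∈ N) hT.inv_psi
  have h3 : ∀ᵐ z ∂P.mu, ∀ m : ℕ, (P.phi^[m] z ∈ P.Dom ∧ (P.phi^[m] z ∈ N → (P.phi^[m] z).1 ≠ i)) :=
    ae_all_iff.2 fun m => (hq.iterate m).ae (p := fun z => z ∈ P.Dom ∧ (z ∈ N → z.1 ≠ i))
      (P.ae_dom.and hT.miss)
  have h4 : ∀ᵐ z ∂P.mu, ∀ m : ℕ, (P.psi^[m] z ∈ P.Dom ∧ rev (P.psi^[m] z) ∈ P.Dom ∧
      (P.psi^[m] z ∈ N → (P.psi^[m] z).1 ≠ i)) :=
    ae_all_iff.2 fun m => (hq'.iterate m).ae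
      (p := fun z => z ∈ P.Dom ∧ rev z ∈ P.Dom ∧ (z ∈ N → z.1 ≠ i))
      (P.ae_dom.and (ae_rev_dom.and hT.miss))
  filter_upwards [h1, h2, h3, h4] with z h1 h2 h3 h4 hz
  have k1 : ∀ m : ℕ, P.phi^[m] z ∈ N := by
    intro m
    induction m with
    | zero => exact hz
    | succ m ih => rw [Function.iterate_succ_apply']; exact (h1 m).2 ih
  have k2 : ∀ m : ℕ, P.psi^[m] z ∈ N := by
    intro m
    induction m with
    | zero => exact hz
    | succ m ih => rw [Function.iterate_succ_apply']; exact (h2 m).2 ih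
  obtain ⟨y, hy1, hy2⟩ : ∃ y : ℤ → Fin n × ℝ × ℝ, (∀ m : ℕ, y m = P.phi^[m] z) ∧
      (∀ m : ℕ, y (-(m : ℤ)) = P.psi^[m] z) := by
    refine ⟨fun m => if 0 ≤ m then P.phi^[m.toNat] z else P.psi^[(-m).toNat] z, ?_, ?_⟩
    · intro m
      simp
    · intro m
      rcases Nat.eq_zero_or_pos m with rfl | hm
      · simp
      · have : ¬ (0 : ℤ) ≤ -(m : ℤ) := by omega
        simp only [this, if_false, neg_neg, Int.toNat_natCast]
  refine ⟨y, hy1 0, ?_⟩
  intro m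
  rcases Int.eq_nat_or_neg m with ⟨a, rfl | rfl⟩
  · have e : y ((a : ℤ) + 1) = P.phi (P.phi^[a] z) := by
      have := hy1 (a + 1)
      rw [Function.iterate_succ_apply'] at this
      rw [← this]; push_cast; rfl
    rw [e, hy1 a]
    obtain ⟨g1, g2⟩ := h3 a
    refine ⟨k1 a, g1.1, g2 (k1 a), ?_⟩
    rw [P.phi_of_mem g1]
    exact (P.hits_map g1).2
  · obtain ⟨g1, g2, g3⟩ := h4 a
    rcases Nat.eq_zero_or_pos a with rfl | ha
    · have e : y (-((0 : ℕ) : ℤ) + 1) = P.phi (P.phi^[0] z) := by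
        have := hy1 (0 + 1)
        rw [Function.iterate_succ_apply'] at this
        rw [← this]; norm_num
      rw [e]
      obtain ⟨g1, g2⟩ := h3 0
      have e0 : y (-((0 : ℕ) : ℤ)) = P.phi^[0] z := hy2 0
      rw [e0]
      refine ⟨k1 0, g1.1, g2 (k1 0), ?_⟩
      rw [P.phi_of_mem g1]
      exact (P.hits_map g1).2
    · obtain ⟨b, rfl⟩ : ∃ b, a = b + 1 := ⟨a - 1, by omega⟩
      have e : y (-((b + 1 : ℕ) : ℤ) + 1) = P.psi^[b] z := by
        rw [← hy2 b]; push_cast; congr 1; ring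
      rw [e, hy2 (b + 1)]
      refine ⟨k2 (b + 1), g1.1, g3 (k2 (b + 1)), ?_⟩
      rw [Function.iterate_succ_apply']
      exact (hits_psi (h4 b).2.1).2

/-- almost every point of a trap has a two-sided orbit that misses side `i` -/
theorem Trap.orbit (hT : P.Trap i N) : ∀ᵐ z ∂P.mu, z ∈ N → ∃ y : ℤ → Fin n × ℝ × ℝ, y 0 = z ∧
    ∀ m, y m ∈ P.Phase ∧ (y m).1 ≠ i ∧ P.Hits (y m) (y (m + 1)) := by
  filter_upwards [hT.orbit'] with z hz hN
  obtain ⟨y, h1, h2⟩ := hz hN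
  exact ⟨y, h1, fun m => (h2 m).2⟩

/-- directions in a countable set are null -/
theorem ae_vel_notMem {S : Set ℂ} (hS : S.Countable) : ∀ᵐ z ∂P.mu, P.vel z ∉ S := by
  have key : ∀ u : ℂ, ∀ᵐ z ∂P.mu, P.vel z ≠ u := by
    intro u
    have hm : MeasurableSet {z | P.vel z ≠ u} := by
      apply measurableSet_of_slices
      intro k
      have hc : Measurable (fun x : ℝ × ℝ => P.vk k x.1) := by
        apply Continuous.measurable
        unfold vk
        fun_prop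
      exact (hc (measurableSet_singleton u)).compl
    rw [ae_iff]
    change P.mu {z | P.vel z ≠ u}ᶜ = 0
    rw [P.mu_apply hm.compl]
    refine Finset.sum_eq_zero fun k _ => ?_
    have hm2 : MeasurableSet {x : ℝ × ℝ | (k, x) ∈ {z | P.vel z ≠ u}ᶜ} :=
      measurableSet_slice hm.compl k
    set W : Set (ℝ × ℝ) := {x : ℝ × ℝ | (k, x) ∈ {z | P.vel z ≠ u}ᶜ} with hW
    have hW' : ∀ θ s : ℝ, (θ, s) ∈ W ↔ P.vk k θ = u := by
      intro θ s
      rw [hW]
      simp only [mem_compl_iff, mem_ofPred_eq, ne_eq, not_not]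
      rfl
    rw [P.nu_apply k hm2]
    by_cases hθ : ∃ θ₀ ∈ Ioo 0 Real.pi, P.vk k θ₀ = u
    · obtain ⟨θ₀, h0, h1⟩ := hθ
      rw [← lintegral_zero (α := ℝ) (μ := volume)]
      apply lintegral_congr_ae
      have : ∀ᵐ θ : ℝ, θ ≠ θ₀ := by
        rw [ae_iff]
        simp
      filter_upwards [this] with θ hne
      by_cases hθ : θ ∈ Ioo 0 Real.pi
      · rw [indicator_of_mem hθ]
        have : {s : ℝ | s ∈ Ioo 0 (P.len k) ∧ (θ, s) ∈ W} = ∅ := by
          ext s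
          rw [mem_ofPred_eq, hW']
          simp only [mem_empty_iff_false, iff_false]
          rintro ⟨_, h2⟩
          apply hne
          have h3 : P.vk k θ = P.vk k θ₀ := by rw [h1]; exact h2
          unfold vk at h3
          have h4 := mul_left_cancel₀ (by
            intro h0
            have := P.norm_dir k
            rw [h0, norm_zero] at this
            exact zero_ne_one this) h3
          apply angle_inj hθ h0
          have h5 := congrArg conj h4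
          rwa [exp_I_conj, exp_I_conj] at h5
        rw [this, measure_empty, mul_zero]
      · rw [indicator_of_notMem hθ]
    · rw [← lintegral_zero (α := ℝ) (μ := volume)]
      refine lintegral_congr fun θ => ?_
      by_cases hθ' : θ ∈ Ioo 0 Real.pi
      · rw [indicator_of_mem hθ']
        have : {s : ℝ | s ∈ Ioo 0 (P.len k) ∧ (θ, s) ∈ W} = ∅ := by
          ext s
          rw [mem_ofPred_eq, hW']
          simp only [mem_empty_iff_false, iff_false]
          rintro ⟨_, h2⟩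
          exact hθ ⟨θ, hθ', h2⟩
        rw [this, measure_empty, mul_zero]
      · rw [indicator_of_notMem hθ']
  have : ∀ᵐ z ∂P.mu, ∀ u ∈ S, P.vel z ≠ u := (ae_ball_iff hS).2 fun u _ => key u
  filter_upwards [this] with z hz h
  exact hz _ h rfl

end ConvexPolygon

end Bil62
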