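import Pool.Agent.Helper62.Bil.Geom
import Pool.Agent.Helper62.Bil.AL

/-! Trapped orbits with finitely many directions. -/

namespace Bil62

open MeasureTheory Set

open scoped ComplexConjugate

namespace ConvexPolygon

variable {n : ℕ} [NeZero n] (P : ConvexPolygon n)

/-- reflection of a direction in side `k` -/
noncomputable def refl (k : Fin n) (u : ℂ) : ℂ := P.dir k ^ 2 * conj u

theorem norm_refl (k : Fin n) (u : ℂ) : ‖P.refl k u‖ = ‖u‖ := by
  unfold refl
  rw [norm_mul, norm_pow, P.norm_dir, one_pow, one_mul, RCLike.norm_conj]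

theorem refl_refl (k : Fin n) (u : ℂ) : P.refl k (P.refl k u) = u := by
  unfold refl
  rw [map_mul, map_pow, Complex.conj_conj]
  have := P.dir_mul_conj k
  calc P.dir k ^ 2 * (conj (P.dir k) ^ 2 * u) = (P.dir k * conj (P.dir k)) ^ 2 * u := by ring
    _ = u := by rw [this]; ring

theorem refl_inj (k : Fin n) : Function.Injective (P.refl k) := by
  intro u v h
  have := congrArg (P.refl k) h
  rwa [P.refl_refl, P.refl_refl] at this

/-- reflection of the plane in the line of side `k` -/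
noncomputable def rpt (k : Fin n) (z : ℂ) : ℂ := P.V k + P.dir k ^ 2 * conj (z - P.V k)

theorem norm_dir_sq (k : Fin n) : ‖P.dir k ^ 2‖ = 1 := by
  rw [norm_pow, P.norm_dir, one_pow]

theorem cross_refl_rpt (k : Fin n) (u z : ℂ) :
    cross (P.refl k u) (P.rpt k z) = cross (P.refl k u) (P.V k) + cross u (P.V k) - cross u z := by
  unfold refl rpt
  rw [cross_add_right, cross_mul_left _ _ _ (P.norm_dir_sq k), cross_conj, cross_sub_right]
  ring

theorem rpt_pt (k : Fin n) (s : ℝ) : P.rpt k (P.pt k s) = P.pt k s := by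
  unfold rpt pt
  rw [add_sub_cancel_left, map_mul, Complex.conj_ofReal]
  have := P.dir_mul_conj k
  calc P.V k + P.dir k ^ 2 * (↑s * conj (P.dir k))
      = P.V k + (s : ℂ) * P.dir k * (P.dir k * conj (P.dir k)) := by ring
    _ = P.V k + (s : ℂ) * P.dir k := by rw [this]; ring

theorem dot_refl (k : Fin n) (u z w : ℂ) :
    dot (P.refl k u) (P.rpt k z - P.rpt k w) = dot u (z - w) := by
  have : P.rpt k z - P.rpt k w = P.dir k ^ 2 * conj (z - w) := by
    unfold rpt
    simp only [map_sub]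
    ring
  rw [this]
  unfold refl
  rw [dot_mul_left _ _ _ (P.norm_dir_sq k), dot_conj]

theorem cross_refl_dir (k : Fin n) (u : ℂ) :
    cross (P.refl k u) (P.dir k) = - cross u (P.dir k) := by
  have h : P.dir k ^ 2 * conj (P.dir k) = P.dir k := by
    have := P.dir_mul_conj k
    calc P.dir k ^ 2 * conj (P.dir k) = P.dir k * (P.dir k * conj (P.dir k)) := by ring
      _ = P.dir k := by rw [this]; ring
  have h2 := cross_mul_left (P.dir k ^ 2) (conj u) (conj (P.dir k)) (P.norm_dir_sq k)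
  rw [h, cross_conj] at h2
  exact h2

/-- one bounce, on the level of oriented lines, at a side different from `i` -/
def ChordR (i : Fin n) (x y : ℂ × ℝ) : Prop :=
  ∃ k, k ≠ i ∧ P.Exit x.1 x.2 k ∧ y.1 = P.refl k x.1 ∧
    y.2 = cross y.1 (P.V k) + cross x.1 (P.V k) - x.2

theorem exit_refl {u : ℂ} {p : ℝ} {k : Fin n} (h : P.Exit u p k) :
    P.Ent (P.refl k u) (cross (P.refl k u) (P.V k) + cross u (P.V k) - p) k := by
  obtain ⟨h1, h2⟩ := h
  unfold Ent
  rw [P.V_succ k, cross_add_right, cross_smul_right] at h2 ⊢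
  rw [P.cross_refl_dir]
  constructor <;> linarith

theorem ent_refl {u : ℂ} {p : ℝ} {k : Fin n} (h : P.Ent u p k) :
    P.Exit (P.refl k u) (cross (P.refl k u) (P.V k) + cross u (P.V k) - p) k := by
  obtain ⟨h1, h2⟩ := h
  unfold Exit
  rw [P.V_succ k, cross_add_right, cross_smul_right] at h1 ⊢
  rw [P.cross_refl_dir]
  constructor <;> linarith

/-- on an interval free of exit vertices the exit side is constant -/
theorem exit_const {u : ℂ} (hu : ‖u‖ = 1) {c d : ℝ} (h : ∀ p ∈ Ioo c d, ∃ k, P.Exit u p k)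
    {p₀ : ℝ} (hp₀ : p₀ ∈ Ioo c d) {k₀ : Fin n} (hk₀ : P.Exit u p₀ k₀) :
    ∀ p ∈ Ioo c d, P.Exit u p k₀ := by
  intro p hp
  obtain ⟨h1, h2⟩ := hk₀
  by_contra hnot
  unfold Exit at hnot
  rw [not_and_or, not_lt, not_lt] at hnot
  rcases hnot with hle | hle
  · -- p ≤ α
    obtain ⟨k, hk1, hk2⟩ := h (cross u (P.V k₀)) ⟨by linarith [hp.1], by linarith [hp₀.2]⟩
    set α := cross u (P.V k₀)
    set β := cross u (P.V (k₀ + 1))
    have hm : α < min β (cross u (P.V (k + 1))) := lt_min (by linarith) hk2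
    have hm1 := min_le_left β (cross u (P.V (k + 1)))
    have hm2 := min_le_right β (cross u (P.V (k + 1)))
    have e1 : P.Exit u ((α + min β (cross u (P.V (k + 1)))) / 2) k₀ :=
      ⟨by linarith, by linarith⟩
    have e2 : P.Exit u ((α + min β (cross u (P.V (k + 1)))) / 2) k :=
      ⟨by linarith, by linarith⟩
    have := P.exit_unique hu e1 e2
    subst this
    exact lt_irrefl _ hk1
  · obtain ⟨k, hk1, hk2⟩ := h (cross u (P.V (k₀ + 1))) ⟨by linarith [hp₀.1], by linarith [hp.2]⟩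
    set α := cross u (P.V k₀)
    set β := cross u (P.V (k₀ + 1))
    have hm : max α (cross u (P.V k)) < β := max_lt (by linarith) hk1
    have hm1 := le_max_left α (cross u (P.V k))
    have hm2 := le_max_right α (cross u (P.V k))
    have e1 : P.Exit u ((max α (cross u (P.V k)) + β) / 2) k₀ :=
      ⟨by linarith, by linarith⟩
    have e2 : P.Exit u ((max α (cross u (P.V k)) + β) / 2) k :=
      ⟨by linarith, by linarith⟩
    have := P.exit_unique hu e1 e2
    subst this
    exact lt_irrefl _ hk2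

theorem ent_const {u : ℂ} (hu : ‖u‖ = 1) {c d : ℝ} (h : ∀ p ∈ Ioo c d, ∃ k, P.Ent u p k)
    {p₀ : ℝ} (hp₀ : p₀ ∈ Ioo c d) {k₀ : Fin n} (hk₀ : P.Ent u p₀ k₀) :
    ∀ p ∈ Ioo c d, P.Ent u p k₀ := by
  intro p hp
  rw [ent_iff_exit] at hk₀ ⊢
  refine P.exit_const (u := -u) (by rwa [norm_neg]) (c := -d) (d := -c) ?_
    (p₀ := -p₀) ⟨by linarith [hp₀.2], by linarith [hp₀.1]⟩ hk₀ (-p)
    ⟨by linarith [hp.2], by linarith [hp.1]⟩
  intro t ht
  obtain ⟨k, hk⟩ := h (-t) ⟨by linarith [ht.2], by linarith [ht.1]⟩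
  rw [ent_iff_exit, neg_neg] at hk
  exact ⟨k, hk⟩

theorem V_inj : Function.Injective P.V := by
  intro j j' h
  by_contra hne
  by_cases h2 : j' = j + 1
  · have h3 := P.len_pos j
    rw [h2] at h
    unfold len at h3
    rw [← h, sub_self, norm_zero] at h3
    exact lt_irrefl _ h3
  · have := P.g_V_pos (Ne.symm hne) h2
    rw [← h, P.g_V_self] at this
    exact lt_irrefl _ this

/-- lower end of the shadow -/
noncomputable def lo (u : ℂ) : ℝ := ⨅ k, cross u (P.V k)
noncomputable def hi (u : ℂ) : ℝ := ⨆ k, cross u (P.V k)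

theorem lo_lt_iff (u : ℂ) (p : ℝ) : P.lo u < p ↔ ∃ k, cross u (P.V k) < p := by
  unfold lo
  constructor
  · intro h
    obtain ⟨k, hk⟩ := exists_eq_ciInf_of_finite (f := fun k => cross u (P.V k))
    exact ⟨k, by rw [hk]; exact h⟩
  · rintro ⟨k, hk⟩
    exact lt_of_le_of_lt (ciInf_le (Set.finite_range _).bddBelow k) hk

theorem lt_hi_iff (u : ℂ) (p : ℝ) : p < P.hi u ↔ ∃ k, p < cross u (P.V k) := by
  unfold hi
  constructor
  · intro h
    obtain ⟨k, hk⟩ := exists_eq_ciSup_of_finite (f := fun k => cross u (P.V k))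
    exact ⟨k, by rw [hk]; exact h⟩
  · rintro ⟨k, hk⟩
    exact lt_of_lt_of_le hk (le_ciSup (f := fun k => cross u (P.V k)) (Set.finite_range _).bddAbove k)

/-- the system of chords with directions in a finite set `T` -/
noncomputable def sys (i : Fin n) (T : Set ℂ) (hT : T.Finite) (hT1 : ∀ u ∈ T, ‖u‖ = 1) :
    Sys T where
  a := fun u => P.lo u
  b := fun u => P.hi u
  R := fun x y => P.ChordR i (x.1, x.2) (y.1, y.2)
  X := fun x => ∃ k, P.Exit x.1 x.2 k ∧ (k = i ∨ P.refl k x.1 ∉ T)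
  N := fun y => ∃ k, P.Ent y.1 y.2 k ∧ (k = i ∨ P.refl k y.1 ∉ T)
  D := {x | (∃ k, cross x.1 (P.V k) < x.2 ∧ cross x.1 (P.V (k + 1)) = x.2) ∧
    ¬ ∃ k, P.Exit x.1 x.2 k}
  D' := {x | (∃ k, x.2 < cross x.1 (P.V k) ∧ cross x.1 (P.V (k + 1)) = x.2) ∧
    ¬ ∃ k, P.Ent x.1 x.2 k}
  R_left := by
    rintro x y ⟨k, _, h, _⟩
    exact ⟨(P.lo_lt_iff _ _).2 ⟨k, h.1⟩, (P.lt_hi_iff _ _).2 ⟨k + 1, h.2⟩⟩
  R_right := by
    rintro x y ⟨k, _, h, h1, h2⟩
    have h3 := P.exit_refl h
    simp only at h1 h2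
    rw [← h1, ← h2] at h3
    exact ⟨(P.lo_lt_iff _ _).2 ⟨k + 1, h3.1⟩, (P.lt_hi_iff _ _).2 ⟨k, h3.2⟩⟩
  fwd := by
    rintro x y y' ⟨k, _, h, h1, h2⟩ ⟨k', _, h', h1', h2'⟩
    have := P.exit_unique (hT1 _ x.1.2) h h'
    subst this
    simp only at h1 h2 h1' h2'
    have e : y.1 = y'.1 := Subtype.ext (h1.trans h1'.symm)
    refine Prod.ext e ?_
    rw [h2, h2', e]
  bwd := by
    rintro x x' y ⟨k, _, h, h1, h2⟩ ⟨k', _, h', h1', h2'⟩
    have e1 := P.exit_refl h
    have e2 := P.exit_refl h'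
    simp only at h1 h2 h1' h2'
    rw [← h1, ← h2] at e1
    rw [← h1', ← h2'] at e2
    have := P.ent_unique (hT1 _ y.1.2) e1 e2
    subst this
    have e : x.1 = x'.1 := by
      apply Subtype.ext
      apply P.refl_inj k
      rw [← h1, ← h1']
    refine Prod.ext e ?_
    rw [e] at h2
    linarith
  Dfin := by
    refine Set.Finite.subset (s := Set.range (fun x : T × Fin n =>
      ((x.1, cross x.1 (P.V (x.2 + 1))) : T × ℝ))) ?_ ?_
    · have : Finite T := hT.to_subtype
      exact Set.finite_range _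
    · rintro x ⟨⟨k, _, hk⟩, _⟩
      exact ⟨(x.1, k), Prod.ext rfl hk⟩
  D'fin := by
    refine Set.Finite.subset (s := Set.range (fun x : T × Fin n =>
      ((x.1, cross x.1 (P.V (x.2 + 1))) : T × ℝ))) ?_ ?_
    · have : Finite T := hT.to_subtype
      exact Set.finite_range _
    · rintro x ⟨⟨k, _, hk⟩, _⟩
      exact ⟨(x.1, k), Prod.ext rfl hk⟩
  X_E := by
    rintro x ⟨k, h, _⟩
    exact ⟨(P.lo_lt_iff _ _).2 ⟨k, h.1⟩, (P.lt_hi_iff _ _).2 ⟨k + 1, h.2⟩⟩
  N_E := by
    rintro x ⟨k, h, _⟩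
    exact ⟨(P.lo_lt_iff _ _).2 ⟨k + 1, h.1⟩, (P.lt_hi_iff _ _).2 ⟨k, h.2⟩⟩
  X_D := by
    rintro x ⟨k, h, _⟩ hx
    exact hx.2 ⟨k, h⟩
  N_D' := by
    rintro x ⟨k, h, _⟩ hx
    exact hx.2 ⟨k, h⟩
  X_no := by
    rintro x y ⟨k, h, h1⟩ ⟨k', hk', h', h2, h3⟩
    have := P.exit_unique (hT1 _ x.1.2) h h'
    subst this
    rcases h1 with h1 | h1
    · exact hk' h1
    · apply h1
      simp only at h2
      rw [← h2]
      exact y.1.2
  N_no := by
    rintro x y ⟨k, h, h1⟩ ⟨k', hk', h', h2, h3⟩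
    have e1 := P.exit_refl h'
    simp only at h2 h3
    rw [← h2, ← h3] at e1
    have := P.ent_unique (hT1 _ y.1.2) h e1
    subst this
    rcases h1 with h1 | h1
    · exact hk' h1
    · apply h1
      rw [h2, P.refl_refl]
      exact x.1.2
  D_no := by
    rintro x y hx ⟨k, _, h, _⟩
    exact hx.2 ⟨k, h⟩
  D'_no := by
    rintro x y hy ⟨k, _, h, h1, h2⟩
    have h3 := P.exit_refl h
    simp only at h1 h2
    rw [← h1, ← h2] at h3
    exact hy.2 ⟨k, h3⟩
  stepf := by
    intro q c d hcd hac hdb hD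
    have hex : ∀ p ∈ Ioo c d, ∃ k, P.Exit q p k := by
      intro p hp
      obtain ⟨i₁, hi₁⟩ := (P.lo_lt_iff _ _).1 (lt_of_le_of_lt hac hp.1)
      obtain ⟨j₁, hj₁⟩ := (P.lt_hi_iff _ _).1 (lt_of_lt_of_le hp.2 hdb)
      by_contra hno
      rcases P.exit_or_vertex hi₁ hj₁ with h | h
      · exact hno h
      · exact hD p hp ⟨h, hno⟩
    have hmid : (c + d) / 2 ∈ Ioo c d := ⟨by linarith, by linarith⟩
    obtain ⟨k₀, hk₀⟩ := hex _ hmid
    have hall := P.exit_const (hT1 _ q.2) hex hmid hk₀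
    by_cases h1 : k₀ = i ∨ P.refl k₀ q ∉ T
    · exact Or.inl (fun p hp => ⟨k₀, hall p hp, h1⟩)
    · rw [not_or, not_not] at h1
      refine Or.inr ⟨⟨P.refl k₀ q, h1.2⟩, -1, cross (P.refl k₀ q) (P.V k₀) + cross q (P.V k₀),
        Or.inr rfl, fun p hp => ⟨k₀, h1.1, hall p hp, rfl, ?_⟩⟩
      simp only
      ring
  stepb := by
    intro q c d hcd hac hdb hD
    have hex : ∀ p ∈ Ioo c d, ∃ k, P.Ent q p k := by
      intro p hp
      obtain ⟨i₁, hi₁⟩ := (P.lo_lt_iff _ _).1 (lt_of_le_of_lt hac hp.1)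
      obtain ⟨j₁, hj₁⟩ := (P.lt_hi_iff _ _).1 (lt_of_lt_of_le hp.2 hdb)
      by_contra hno
      rcases P.ent_or_vertex hi₁ hj₁ with h | h
      · exact hno h
      · exact hD p hp ⟨h, hno⟩
    have hmid : (c + d) / 2 ∈ Ioo c d := ⟨by linarith, by linarith⟩
    obtain ⟨k₀, hk₀⟩ := hex _ hmid
    have hall := P.ent_const (hT1 _ q.2) hex hmid hk₀
    by_cases h1 : k₀ = i ∨ P.refl k₀ q ∉ T
    · exact Or.inl (fun p hp => ⟨k₀, hall p hp, h1⟩)
    · rw [not_or, not_not] at h1
      refine Or.inr ⟨⟨P.refl k₀ q, h1.2⟩, -1, cross (P.refl k₀ q) (P.V k₀) + cross q (P.V k₀),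
        Or.inr rfl, fun p hp => ⟨k₀, h1.1, ?_, ?_, ?_⟩⟩
      · have := P.ent_refl (hall p hp)
        simp only
        convert this using 1
        ring
      · simp only
        rw [P.refl_refl]
      · simp only
        ring

/-! ### words -/

/-- linear part of a word of reflections -/
noncomputable def lin : List (Fin n) → ℂ → ℂ
  | [] => fun u => u
  | (k :: l) => fun u => lin l (P.refl k u)

/-- a word of reflections of the plane -/
noncomputable def aff : List (Fin n) → ℂ → ℂ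
  | [] => fun z => z
  | (k :: l) => fun z => aff l (P.rpt k z)

theorem lin_append (l : List (Fin n)) (k : Fin n) (u : ℂ) :
    P.lin (l ++ [k]) u = P.refl k (P.lin l u) := by
  induction l generalizing u with
  | nil => rfl
  | cons a l ih => exact ih _

theorem aff_append (l : List (Fin n)) (k : Fin n) (z : ℂ) :
    P.aff (l ++ [k]) z = P.rpt k (P.aff l z) := by
  induction l generalizing z with
  | nil => rfl
  | cons a l ih => exact ih _

theorem norm_lin (l : List (Fin n)) (u : ℂ) : ‖P.lin l u‖ = ‖u‖ := by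
  induction l generalizing u with
  | nil => rfl
  | cons a l ih => exact (ih _).trans (P.norm_refl a u)

theorem lin_inj (l : List (Fin n)) : Function.Injective (P.lin l) := by
  induction l with
  | nil => intro u v h; exact h
  | cons a l ih => intro u v h; exact P.refl_inj a (ih h)

/-- directions of generalized diagonals -/
def Bad0 (u : ℂ) : Prop :=
  ∃ (l : List (Fin n)) (j j' : Fin n), P.aff l (P.V j) ≠ P.V j' ∧
    cross (P.lin l u) (P.V j' - P.aff l (P.V j)) = 0

/-- directions whose whole orbit avoids generalized diagonals and the direction of side `i` -/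
def Good (i : Fin n) (u : ℂ) : Prop :=
  ∀ l, ¬ P.Bad0 (P.lin l u) ∧ cross (P.dir i) (P.lin l u) ≠ 0

theorem finite_parallel {w : ℂ} (hw : w ≠ 0) : {u : ℂ | ‖u‖ = 1 ∧ cross u w = 0}.Finite := by
  refine Set.Finite.subset (s := {w / (‖w‖ : ℂ), - (w / (‖w‖ : ℂ))}) (by simp) ?_
  rintro u ⟨hu, hc⟩
  have h1 := eq_smul_of_cross_eq_zero hu hc
  have hn : ‖w‖ = |dot u w| := by
    conv_lhs => rw [h1]
    rw [norm_mul, Complex.norm_real, hu, mul_one, Real.norm_eq_abs]
  have hn0 : ‖w‖ ≠ 0 := norm_ne_zero_iff.2 hw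
  have hn0' : (‖w‖ : ℂ) ≠ 0 := by exact_mod_cast hn0
  rcases abs_choice (dot u w) with h | h
  · left
    rw [h] at hn
    rw [eq_div_iff hn0', mul_comm]
    rw [← hn] at h1
    exact h1.symm
  · right
    simp only [mem_singleton_iff]
    rw [h] at hn
    rw [← neg_div, eq_div_iff hn0']
    have : (dot u w : ℂ) = - (‖w‖ : ℂ) := by
      rw [hn]; simp
    rw [this] at h1
    linear_combination h1

theorem countable_bad0 : {u : ℂ | ‖u‖ = 1 ∧ P.Bad0 u}.Countable := by
  have : {u : ℂ | ‖u‖ = 1 ∧ P.Bad0 u} ⊆ ⋃ x : List (Fin n) × Fin n × Fin n,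
      {u : ℂ | ‖u‖ = 1 ∧ P.aff x.1 (P.V x.2.1) ≠ P.V x.2.2 ∧
        cross (P.lin x.1 u) (P.V x.2.2 - P.aff x.1 (P.V x.2.1)) = 0} := by
    rintro u ⟨hu, l, j, j', h1, h2⟩
    simp only [mem_iUnion]
    exact ⟨(l, j, j'), hu, h1, h2⟩
  refine Set.Countable.mono this (Set.countable_iUnion fun x => ?_)
  by_cases hx : P.aff x.1 (P.V x.2.1) = P.V x.2.2
  · convert Set.countable_empty
    ext u
    simp [hx]
  · have hw : P.V x.2.2 - P.aff x.1 (P.V x.2.1) ≠ 0 := by
      intro h0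
      exact hx (sub_eq_zero.1 h0).symm
    refine (Set.Finite.subset ((finite_parallel hw).preimage
      (f := P.lin x.1) (fun a _ b _ h => P.lin_inj _ h)) ?_).countable
    rintro u ⟨hu, _, h⟩
    exact ⟨(P.norm_lin _ _).trans hu, h⟩

theorem countable_not_good (i : Fin n) : {u : ℂ | ‖u‖ = 1 ∧ ¬ P.Good i u}.Countable := by
  have : {u : ℂ | ‖u‖ = 1 ∧ ¬ P.Good i u} ⊆ ⋃ l : List (Fin n),
      (P.lin l ⁻¹' ({u : ℂ | ‖u‖ = 1 ∧ P.Bad0 u} ∪ {u : ℂ | ‖u‖ = 1 ∧ cross u (P.dir i) = 0})) := by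
    rintro u ⟨hu, h⟩
    unfold Good at h
    push Not at h
    obtain ⟨l, hl⟩ := h
    simp only [mem_iUnion]
    refine ⟨l, ?_⟩
    by_cases hb : P.Bad0 (P.lin l u)
    · exact Or.inl ⟨(P.norm_lin _ _).trans hu, hb⟩
    · refine Or.inr ⟨(P.norm_lin _ _).trans hu, ?_⟩
      rw [cross_comm, hl hb, neg_zero]
  refine Set.Countable.mono this (Set.countable_iUnion fun l => ?_)
  refine Set.Countable.preimage_of_injOn ?_ (fun a _ b _ h => P.lin_inj _ h)
  refine P.countable_bad0.union (finite_parallel ?_).countable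
  intro h0
  have := P.norm_dir i
  rw [h0, norm_zero] at this
  exact zero_ne_one this

/-- following an entrance vertex along a path of bounces -/
theorem path_lemma {i : Fin n} {T : Set ℂ} (hT : T.Finite) (hT1 : ∀ u ∈ T, ‖u‖ = 1) {x : T × ℝ}
    {j : Fin n} (hj : cross x.1 (P.V j) = x.2) (m : ℕ) :
    ∀ y : T × ℝ, relPow (P.sys i T hT hT1).R (m + 1) x y →
      ∃ l k, ∃ s ∈ Ioo 0 (P.len k), P.Ent y.1 y.2 k ∧ cross y.1 (P.pt k s) = y.2 ∧
        (y.1 : ℂ) = P.lin l x.1 ∧ cross y.1 (P.aff l (P.V j)) = y.2 ∧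
        0 < dot y.1 (P.pt k s - P.aff l (P.V j)) := by
  -- common step
  have step : ∀ (u : ℂ) (p : ℝ) (w : ℂ) (k : Fin n) (s : ℝ), ‖u‖ = 1 → cross u w = p →
      s ∈ Ioo 0 (P.len k) → cross u (P.pt k s) = p → cross (P.dir k) u < 0 → 0 ≤ P.g k w →
      0 ≤ dot u (P.pt k s - w) := by
    intro u p w k s hu hw hs hp hc hg
    have hl := on_line hu (hw.trans hp.symm)
    have e1 := P.g_pt_self k s
    rw [hl, g_add_smul] at e1
    by_contra hneg
    have := mul_pos_of_neg_of_neg (not_le.1 hneg) hc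
    linarith
  induction m with
  | zero =>
    intro y hy
    rw [zero_add, relPow_one] at hy
    obtain ⟨k, hki, hex, hy1, hy2⟩ := hy
    simp only at hex hy1 hy2
    obtain ⟨s, hs, hp⟩ := P.exit_pt hex
    have hu := hT1 _ x.1.2
    have hge := step x.1 x.2 (P.V j) k s hu hj hs hp (P.exit_cross hex) (P.g_V_nonneg k j)
    have hne : dot x.1 (P.pt k s - P.V j) ≠ 0 := by
      intro h0
      have hl := on_line hu (hj.trans hp.symm)
      rw [h0] at hl
      have hl' : P.pt k s = P.V j := by rw [hl]; simp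
      have hjk : j = k := by
        by_contra hjk
        have := P.g_pt_pos hjk hs
        rw [hl', P.g_V_self] at this
        exact lt_irrefl _ this
      subst hjk
      unfold pt at hl'
      have : (s : ℂ) * P.dir j = 0 := by linear_combination hl'
      rcases mul_eq_zero.1 this with h | h
      · have : s = 0 := by exact_mod_cast h
        rw [this] at hs
        exact lt_irrefl _ hs.1
      · have := P.norm_dir j
        rw [h, norm_zero] at this
        exact zero_ne_one this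
    refine ⟨[k], k, s, hs, ?_, ?_, hy1, ?_, ?_⟩
    · have := P.exit_refl hex
      rw [← hy1, ← hy2] at this
      exact this
    · rw [← P.rpt_pt k s, hy1, P.cross_refl_rpt, hp, hy2, hy1]
    · change cross y.1 (P.rpt k (P.V j)) = y.2
      rw [hy1, P.cross_refl_rpt, hj, hy2, hy1]
    · change 0 < dot y.1 (P.pt k s - P.rpt k (P.V j))
      rw [← P.rpt_pt k s, hy1, P.dot_refl]
      exact lt_of_le_of_ne hge (Ne.symm hne)
  | succ m ih =>
    intro y' hy'
    obtain ⟨y, hy, hyy'⟩ := hy'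
    obtain ⟨l, k, s, hs, hent, hline, hlin, haff, hdot⟩ := ih y hy
    obtain ⟨k', hki, hex, hy1, hy2⟩ := hyy'
    simp only at hex hy1 hy2
    obtain ⟨s', hs', hp'⟩ := P.exit_pt hex
    have hu := hT1 _ y.1.2
    have hgp : 0 ≤ P.g k' (P.pt k s) := by
      by_cases hkk : k' = k
      · rw [hkk, P.g_pt_self]
      · exact (P.g_pt_pos hkk hs).le
    have hge := step y.1 y.2 (P.pt k s) k' s' hu hline hs' hp' (P.exit_cross hex) hgp
    refine ⟨l ++ [k'], k', s', hs', ?_, ?_, ?_, ?_, ?_⟩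
    · have := P.exit_refl hex
      rw [← hy1, ← hy2] at this
      exact this
    · rw [← P.rpt_pt k' s', hy1, P.cross_refl_rpt, hp', hy2, hy1]
    · rw [P.lin_append, ← hlin, hy1]
    · rw [P.aff_append, hy1, P.cross_refl_rpt, haff, hy2, hy1]
    · rw [P.aff_append, ← P.rpt_pt k' s', hy1, P.dot_refl]
      have : dot (y.1 : ℂ) (P.pt k' s' - P.aff l (P.V j)) =
          dot (y.1 : ℂ) (P.pt k' s' - P.pt k s) + dot (y.1 : ℂ) (P.pt k s - P.aff l (P.V j)) := by
        rw [← dot_add_right]; congr 1; ring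
      rw [this]
      linarith

/-- without generalized diagonals there are no connections -/
theorem no_conn {i : Fin n} {T : Set ℂ} (hT : T.Finite) (hT1 : ∀ u ∈ T, ‖u‖ = 1)
    (hgood : ∀ u ∈ T, ¬ P.Bad0 u) :
    ∀ x ∈ (P.sys i T hT hT1).D', ∀ y ∈ (P.sys i T hT hT1).D, ∀ m,
      ¬ relPow (P.sys i T hT hT1).R m x y := by
  rintro x ⟨⟨k₁, hk₁, hk₁'⟩, _⟩ y ⟨⟨k₂, hk₂, hk₂'⟩, _⟩ m hm
  apply hgood _ x.1.2
  cases m with
  | zero =>
    rw [relPow_zero] at hm
    subst hm
    refine ⟨[], k₁ + 1, k₂ + 1, ?_, ?_⟩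
    · intro h
      have := P.V_inj h
      have := add_right_cancel this
      subst this
      exact lt_asymm hk₁ hk₂
    · change cross x.1 (P.V (k₂ + 1) - P.V (k₁ + 1)) = 0
      rw [cross_sub_right, hk₁', hk₂', sub_self]
  | succ m =>
    obtain ⟨l, k, s, hs, hent, hline, hlin, haff, hdot⟩ := P.path_lemma hT hT1 hk₁' m y hm
    have hu := hT1 _ y.1.2
    have hge : 0 ≤ dot y.1 (P.V (k₂ + 1) - P.pt k s) := by
      have hl := on_line hu (hline.trans hk₂'.symm)
      have e1 := P.g_V_nonneg k (k₂ + 1)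
      rw [hl, g_add_smul, g_pt_self, zero_add] at e1
      have hc := P.ent_cross hent
      by_contra hneg
      have := mul_neg_of_neg_of_pos (not_le.1 hneg) hc
      linarith
    have hpos : 0 < dot y.1 (P.V (k₂ + 1) - P.aff l (P.V (k₁ + 1))) := by
      have : dot (y.1 : ℂ) (P.V (k₂ + 1) - P.aff l (P.V (k₁ + 1))) =
          dot (y.1 : ℂ) (P.V (k₂ + 1) - P.pt k s) +
            dot (y.1 : ℂ) (P.pt k s - P.aff l (P.V (k₁ + 1))) := by
        rw [← dot_add_right]; congr 1; ring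
      rw [this]; linarith
    refine ⟨l, k₁ + 1, k₂ + 1, ?_, ?_⟩
    · intro h
      rw [h, sub_self] at hpos
      simp [dot] at hpos
    · rw [← hlin, cross_sub_right, haff, hk₂', sub_self]

/-- Main result of this file: a bi-infinite billiard orbit avoiding side `i` with good initial
direction uses infinitely many directions. -/
theorem no_finite_orbit (i : Fin n) (z : ℤ → ℂ × ℝ) (hz : ∀ m, P.ChordR i (z m) (z (m + 1)))
    (h1 : ‖(z 0).1‖ = 1) (hg : P.Good i (z 0).1) (hfin : (Set.range fun m => (z m).1).Finite) :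
    False := by
  -- all directions are words applied to the first one
  have hfw : ∀ m : ℕ, ∃ l, (z m).1 = P.lin l (z 0).1 := by
    intro m
    induction m with
    | zero => exact ⟨[], rfl⟩
    | succ m ih =>
      obtain ⟨l, hl⟩ := ih
      obtain ⟨k, _, _, h, _⟩ := hz m
      refine ⟨l ++ [k], ?_⟩
      rw [P.lin_append, ← hl, ← h]
      push_cast
      rfl
  have hbw : ∀ m : ℕ, ∃ l, (z (-m)).1 = P.lin l (z 0).1 := by
    intro m
    induction m with
    | zero => exact ⟨[], by simp; rfl⟩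
    | succ m ih =>
      obtain ⟨l, hl⟩ := ih
      obtain ⟨k, _, _, h, _⟩ := hz (-(m + 1 : ℕ))
      have e : (-((m + 1 : ℕ) : ℤ) + 1) = -m := by push_cast; ring
      rw [e] at h
      refine ⟨l ++ [k], ?_⟩
      rw [P.lin_append, ← hl, h, P.refl_refl]
  have hall : ∀ m : ℤ, ∃ l, (z m).1 = P.lin l (z 0).1 := by
    intro m
    rcases Int.eq_nat_or_neg m with ⟨k, rfl | rfl⟩
    · exact hfw k
    · exact hbw k
  set T : Set ℂ := Set.range fun m => (z m).1 with hTdef
  have hT1 : ∀ u ∈ T, ‖u‖ = 1 := by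
    rintro _ ⟨m, rfl⟩
    obtain ⟨l, hl⟩ := hall m
    simp only [hl, P.norm_lin, h1]
  have hTb : ∀ u ∈ T, ¬ P.Bad0 u := by
    rintro _ ⟨m, rfl⟩
    obtain ⟨l, hl⟩ := hall m
    simp only [hl]
    exact (hg l).1
  have hTi : ∀ u ∈ T, cross (P.dir i) u ≠ 0 := by
    rintro _ ⟨m, rfl⟩
    obtain ⟨l, hl⟩ := hall m
    simp only [hl]
    exact (hg l).2
  have : Finite T := hfin.to_subtype
  refine (P.sys i T hfin hT1).no_orbit (P.no_conn hfin hT1 hTb) ?_
    (fun m => (⟨(z m).1, m, rfl⟩, (z m).2)) (fun m => hz m)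
  intro u
  have hi := hTi _ u.2
  rcases lt_or_gt_of_ne hi with h | h
  · -- `i` is an exit side
    have hmid : P.len i / 2 ∈ Ioo 0 (P.len i) := by
      have := P.len_pos i
      constructor <;> linarith
    exact ⟨cross u (P.pt i (P.len i / 2)), Or.inl ⟨i, P.exit_of_pt hmid rfl h, Or.inl rfl⟩⟩
  · have hmid : P.len i / 2 ∈ Ioo 0 (P.len i) := by
      have := P.len_pos i
      constructor <;> linarith
    exact ⟨cross u (P.pt i (P.len i / 2)), Or.inr ⟨i, P.ent_of_pt hmid rfl h, Or.inl rfl⟩⟩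

end ConvexPolygon

end Bil62
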