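import Pool.Agent.Helper62.Bil.Wedge

/-! Forward orbits outside an invariant set that contains one side have infinitely many
directions. -/

namespace Bil62

open MeasureTheory Set

open scoped ComplexConjugate ENNReal

namespace ConvexPolygon

variable {n : ℕ} [NeZero n] {P : ConvexPolygon n} {i : Fin n} {N : Set (Fin n × ℝ × ℝ)}

/-- at most `K` forward directions -/
def Few (P : ConvexPolygon n) (N : Set (Fin n × ℝ × ℝ)) (K : ℕ) : Set (Fin n × ℝ × ℝ) :=
  {z | z ∈ N ∧ ∀ f : Fin (K + 1) → ℕ, ∃ a b, a ≠ b ∧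
    P.vel (P.phi^[f a] z) = P.vel (P.phi^[f b] z)}

theorem measurableSet_few (hN : MeasurableSet N) (K : ℕ) : MeasurableSet (P.Few N K) := by
  have e : P.Few N K = N ∩ ⋂ f : Fin (K + 1) → ℕ, ⋃ a : Fin (K + 1), ⋃ b : Fin (K + 1),
      {z | a ≠ b ∧ P.vel (P.phi^[f a] z) = P.vel (P.phi^[f b] z)} := by
    ext z
    simp only [Few, mem_ofPred_eq, mem_inter_iff, mem_iInter, mem_iUnion]
  rw [e]
  refine hN.inter (MeasurableSet.iInter fun f => MeasurableSet.iUnion fun a =>
    MeasurableSet.iUnion fun b => ?_)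
  have h1 : ∀ m : ℕ, Measurable fun z => P.vel (P.phi^[m] z) := fun m =>
    measurable_vel.comp (P.measurable_phi.iterate m)
  by_cases hab : a = b
  · have : {z | a ≠ b ∧ P.vel (P.phi^[f a] z) = P.vel (P.phi^[f b] z)} = ∅ := by
      ext z; simp [hab]
    rw [this]
    exact MeasurableSet.empty
  · have : {z | a ≠ b ∧ P.vel (P.phi^[f a] z) = P.vel (P.phi^[f b] z)} =
        {z | P.vel (P.phi^[f a] z) = P.vel (P.phi^[f b] z)} := by
      ext z; simp [hab]
    rw [this]
    exact measurableSet_eq_fun (h1 _) (h1 _)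

theorem phi_of_hits {z z' : Fin n × ℝ × ℝ} (hz : z ∈ P.Phase) (hz' : z' ∈ P.Phase)
    (h : P.Hits z z') : P.phi z = z' := by
  rw [P.phi_of_mem ⟨hz, z', hz', h⟩, P.billiardMap_eq hz' h]

theorem Trap.few_null (hT : P.Trap i N) (K : ℕ) : P.mu (P.Few N K) = 0 := by
  have hT' : P.Trap i (P.Few N K) := by
    refine hT.sub (measurableSet_few hT.meas K) (fun z hz => hz.1) (Or.inl ?_)
    filter_upwards [hT.inv] with z hz hzF
    refine ⟨hz.2 hzF.1, fun f => ?_⟩
    obtain ⟨a, b, hab, he⟩ := hzF.2 (fun c => f c + 1)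
    refine ⟨a, b, hab, ?_⟩
    rw [Function.iterate_succ_apply, Function.iterate_succ_apply] at he
    exact he
  rw [measure_eq_zero_iff_ae_notMem]
  filter_upwards [hT'.orbit', hT'.infinite_dir] with z h1 h2 h3
  obtain ⟨y, hy0, hy⟩ := h1 h3
  have hinf := h2 h3 y hy0 (fun m => (hy m).2)
  obtain ⟨t, ht, hcard⟩ := hinf.exists_subset_card_eq (K + 1)
  have hsel : ∀ c : t, ∃ m : ℤ, P.vel (y m) = c := fun c => by
    have := ht c.2
    simpa using this
  choose m hm using hsel
  -- a common lower bound for the indices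
  obtain ⟨A, hA⟩ : ∃ A : ℕ, ∀ c : t, -(A : ℤ) ≤ m c := by
    refine ⟨∑ c : t, (m c).natAbs, fun c => ?_⟩
    have h4 : (m c).natAbs ≤ ∑ c : t, (m c).natAbs :=
      Finset.single_le_sum (f := fun c => (m c).natAbs) (fun _ _ => Nat.zero_le _)
        (Finset.mem_univ c)
    omega
  have hphi : ∀ (b : ℕ), P.phi^[b] (y (-(A : ℤ))) = y (-(A : ℤ) + b) := by
    intro b
    induction b with
    | zero => simp
    | succ b ih =>
      rw [Function.iterate_succ_apply', ih,
        phi_of_hits (hy _).2.1 (hy _).2.1 (hy (-(A : ℤ) + b)).2.2.2]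
      congr 1
      push_cast
      ring
  have heq : Fintype.card t = K + 1 := by simp [hcard]
  let e : Fin (K + 1) ≃ t := (Fintype.equivFinOfCardEq heq).symm
  obtain ⟨a, b, hab, he⟩ := (hy (-(A : ℤ))).1.2 (fun c => (m (e c) + A).toNat)
  rw [hphi, hphi] at he
  have h5 : ∀ c : Fin (K + 1), -(A : ℤ) + ((m (e c) + A).toNat : ℤ) = m (e c) := by
    intro c
    have := hA (e c)
    rw [Int.toNat_of_nonneg (by omega)]
    ring
  rw [h5, h5, hm, hm] at he
  exact hab (e.injective (Subtype.ext he))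

/-- almost every forward orbit in a trap has infinitely many directions -/
theorem Trap.infinite_fwd (hT : P.Trap i N) : ∀ᵐ z ∂P.mu, z ∈ N →
    (range fun m : ℕ => P.vel (P.phi^[m] z)).Infinite := by
  have h1 : ∀ᵐ z ∂P.mu, ∀ K : ℕ, z ∉ P.Few N K :=
    ae_all_iff.2 fun K => measure_eq_zero_iff_ae_notMem.1 (hT.few_null K)
  filter_upwards [h1] with z hz hN hfin
  -- take K to be the number of directions
  have := hz hfin.toFinset.card
  apply this
  refine ⟨hN, fun f => ?_⟩
  by_contra hcon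
  push Not at hcon
  have hinj : Function.Injective fun a : Fin (hfin.toFinset.card + 1) =>
      P.vel (P.phi^[f a] z) := by
    intro a b hab
    by_contra hne
    exact hcon a b hne hab
  have h2 : (Finset.univ.image fun a : Fin (hfin.toFinset.card + 1) => P.vel (P.phi^[f a] z)) ⊆
      hfin.toFinset := by
    intro v hv
    simp only [Finset.mem_image, Finset.mem_univ, true_and] at hv
    obtain ⟨a, rfl⟩ := hv
    simp
  have h3 := Finset.card_le_card h2
  rw [Finset.card_image_of_injective _ hinj, Finset.card_univ, Fintype.card_fin] at h3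
  omega

theorem ae_iterate : ∀ᵐ z ∂P.mu, ∀ m : ℕ, P.phi^[m] z = P.billiardMap^[m] z := by
  have h1 : ∀ᵐ z ∂P.mu, ∀ m : ℕ, P.phi^[m] z ∈ P.Dom :=
    ae_all_iff.2 fun m => (P.measurePreserving_phi.quasiMeasurePreserving.iterate m).ae
      (p := fun z => z ∈ P.Dom) P.ae_dom
  filter_upwards [h1] with z hz m
  induction m with
  | zero => rfl
  | succ m ih => rw [Function.iterate_succ_apply', Function.iterate_succ_apply', ← ih,
      P.phi_of_mem (hz m)]

end ConvexPolygon

end Bil62
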