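import Pool.Agent.Helper62.Bil.Defs

/-! Elementary geometry of convex polygons. -/

namespace Bil62

open MeasureTheory Set

open scoped ComplexConjugate

/-! ### cross product -/

theorem cross_add_right (z w w' : ℂ) : cross z (w + w') = cross z w + cross z w' := by
  simp [cross]; ring

theorem cross_add_left (z z' w : ℂ) : cross (z + z') w = cross z w + cross z' w := by
  simp [cross]; ring

theorem cross_sub_right (z w w' : ℂ) : cross z (w - w') = cross z w - cross z w' := by
  simp [cross]; ring

theorem cross_sub_left (z z' w : ℂ) : cross (z - z') w = cross z w - cross z' w := by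
  simp [cross]; ring

theorem cross_smul_right (z w : ℂ) (t : ℝ) : cross z ((t : ℂ) * w) = t * cross z w := by
  simp [cross]; ring

theorem cross_smul_left (z w : ℂ) (t : ℝ) : cross ((t : ℂ) * z) w = t * cross z w := by
  simp [cross]; ring

theorem cross_self (z : ℂ) : cross z z = 0 := by
  simp [cross]; ring

theorem cross_comm (z w : ℂ) : cross z w = - cross w z := by
  simp [cross]; ring

theorem cross_neg_left (z w : ℂ) : cross (-z) w = - cross z w := by
  simp [cross]; ring

theorem cross_neg_right (z w : ℂ) : cross z (-w) = - cross z w := by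
  simp [cross]; ring

theorem cross_zero_right (z : ℂ) : cross z 0 = 0 := by simp [cross]

/-- scalar product -/
def dot (z w : ℂ) : ℝ := z.re * w.re + z.im * w.im

theorem dot_add_right (z w w' : ℂ) : dot z (w + w') = dot z w + dot z w' := by
  simp [dot]; ring

theorem dot_add_left (z z' w : ℂ) : dot (z + z') w = dot z w + dot z' w := by
  simp [dot]; ring

theorem dot_sub_right (z w w' : ℂ) : dot z (w - w') = dot z w - dot z w' := by
  simp [dot]; ring

theorem dot_smul_right (z w : ℂ) (t : ℝ) : dot z ((t : ℂ) * w) = t * dot z w := by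
  simp [dot]; ring

theorem dot_smul_left (z w : ℂ) (t : ℝ) : dot ((t : ℂ) * z) w = t * dot z w := by
  simp [dot]; ring

theorem dot_self_of_norm (z : ℂ) (h : ‖z‖ = 1) : dot z z = 1 := by
  have := Complex.sq_norm z
  rw [h, Complex.normSq_apply] at this
  simp [dot]; linarith

/-- `(|z|^2) w = dot z w * z + cross z w * (i z)` -/
theorem norm_decomp (z w : ℂ) (h : ‖z‖ = 1) :
    w = (dot z w : ℂ) * z + (cross z w : ℂ) * (Complex.I * z) := by
  have hz : z.re * z.re + z.im * z.im = 1 := by
    have := Complex.sq_norm z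
    rw [h, Complex.normSq_apply] at this
    linarith
  apply Complex.ext
  · simp [dot, cross]
    linear_combination (-w.re) * hz
  · simp [dot, cross]
    linear_combination (-w.im) * hz

theorem eq_smul_of_cross_eq_zero {z w : ℂ} (h : ‖z‖ = 1) (hc : cross z w = 0) :
    w = (dot z w : ℂ) * z := by
  have := norm_decomp z w h
  rw [hc] at this
  simpa using this

theorem dot_sq_add_cross_sq (z w : ℂ) (hz : ‖z‖ = 1) (hw : ‖w‖ = 1) :
    dot z w ^ 2 + cross z w ^ 2 = 1 := by
  have h1 : z.re * z.re + z.im * z.im = 1 := by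
    have := Complex.sq_norm z
    rw [hz, Complex.normSq_apply] at this
    linarith
  have h2 : w.re * w.re + w.im * w.im = 1 := by
    have := Complex.sq_norm w
    rw [hw, Complex.normSq_apply] at this
    linarith
  simp only [dot, cross]
  linear_combination (w.re * w.re + w.im * w.im) * h1 + h2

theorem cross_conj (z w : ℂ) : cross (conj z) (conj w) = - cross z w := by
  simp [cross]; ring

theorem dot_conj (z w : ℂ) : dot (conj z) (conj w) = dot z w := by
  simp [dot]

theorem cross_mul_left (a z w : ℂ) (h : ‖a‖ = 1) : cross (a * z) (a * w) = cross z w := by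
  have h1 : a.re * a.re + a.im * a.im = 1 := by
    have := Complex.sq_norm a
    rw [h, Complex.normSq_apply] at this
    linarith
  simp only [cross, Complex.mul_re, Complex.mul_im]
  linear_combination (z.re * w.im - z.im * w.re) * h1

theorem dot_mul_left (a z w : ℂ) (h : ‖a‖ = 1) : dot (a * z) (a * w) = dot z w := by
  have h1 : a.re * a.re + a.im * a.im = 1 := by
    have := Complex.sq_norm a
    rw [h, Complex.normSq_apply] at this
    linarith
  simp only [dot, Complex.mul_re, Complex.mul_im]
  linear_combination (z.re * w.re + z.im * w.im) * h1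

/-- `cross v (i w) = dot v w` -/
theorem cross_I_mul (v w : ℂ) : cross v (Complex.I * w) = dot v w := by
  simp [cross, dot]

theorem abs_cross_le (u v w : ℂ) (hu : ‖u‖ = 1) (hv : ‖v‖ = 1) (hw : ‖w‖ = 1) :
    |cross u w| ≤ |cross u v| + |cross v w| := by
  -- cross u w = cross u v * dot v w + dot u v * cross v w
  have h1 : v.re * v.re + v.im * v.im = 1 := by
    have := Complex.sq_norm v
    rw [hv, Complex.normSq_apply] at this
    linarith
  have e : cross u w = cross u v * dot v w + dot u v * cross v w := by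
    simp only [cross, dot]
    linear_combination (-(u.re * w.im - u.im * w.re)) * h1
  have d1 : |dot v w| ≤ 1 := by
    have := dot_sq_add_cross_sq v w hv hw
    rw [← sq_le_one_iff_abs_le_one]
    nlinarith [sq_nonneg (cross v w)]
  have d2 : |dot u v| ≤ 1 := by
    have := dot_sq_add_cross_sq u v hu hv
    rw [← sq_le_one_iff_abs_le_one]
    nlinarith [sq_nonneg (cross u v)]
  rw [e]
  calc |cross u v * dot v w + dot u v * cross v w|
      ≤ |cross u v * dot v w| + |dot u v * cross v w| := abs_add_le _ _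
    _ = |cross u v| * |dot v w| + |dot u v| * |cross v w| := by rw [abs_mul, abs_mul]
    _ ≤ |cross u v| * 1 + 1 * |cross v w| := by gcongr
    _ = _ := by ring

/-! ### index arithmetic -/

theorem fin_one_ne {n : ℕ} [NeZero n] (h : 3 ≤ n) : (1 : Fin n) ≠ 0 := by
  obtain ⟨m, rfl⟩ : ∃ m, n = m + 3 := ⟨n - 3, by omega⟩
  intro h0
  have := congrArg Fin.val h0
  simp at this

theorem fin_two_ne {n : ℕ} [NeZero n] (h : 3 ≤ n) : (1 + 1 : Fin n) ≠ 0 := by
  obtain ⟨m, rfl⟩ : ∃ m, n = m + 3 := ⟨n - 3, by omega⟩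
  intro h0
  have := congrArg Fin.val h0
  rw [Fin.val_add] at this
  simp at this
  rw [Nat.mod_eq_of_lt (by omega)] at this
  omega

namespace ConvexPolygon

variable {n : ℕ} [NeZero n] (P : ConvexPolygon n)

include P in
theorem succ_ne (k : Fin n) : k + 1 ≠ k := by
  intro h
  have : k + 1 = k + 0 := by rw [add_zero]; exact h
  exact fin_one_ne P.three_le (add_left_cancel this)

include P in
theorem succ_succ_ne (k : Fin n) : k + 1 + 1 ≠ k := by
  intro h
  have : k + (1 + 1) = k + 0 := by rw [add_zero, ← add_assoc]; exact h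
  exact fin_two_ne P.three_le (add_left_cancel this)

include P in
theorem exists_other (k : Fin n) : k + 1 + 1 ≠ k ∧ k + 1 + 1 ≠ k + 1 :=
  ⟨P.succ_succ_ne k, P.succ_ne (k + 1)⟩

theorem len_pos (k : Fin n) : 0 < P.len k := by
  obtain ⟨h1, h2⟩ := P.exists_other k
  have := P.convex k (k + 1 + 1) h1 h2
  unfold len
  rw [norm_pos_iff]
  intro h0
  rw [h0] at this
  simp [cross] at this

theorem V_succ (k : Fin n) : P.V (k + 1) = P.V k + (P.len k : ℂ) * P.dir k := by
  unfold dir
  have : (P.len k : ℂ) ≠ 0 := by exact_mod_cast (P.len_pos k).ne'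
  field_simp
  ring

theorem norm_dir (k : Fin n) : ‖P.dir k‖ = 1 := by
  unfold dir
  rw [norm_div, Complex.norm_real, Real.norm_of_nonneg (P.len_pos k).le]
  exact div_self (P.len_pos k).ne'

theorem dir_mul_conj (k : Fin n) : P.dir k * conj (P.dir k) = 1 := by
  rw [Complex.mul_conj, Complex.normSq_eq_norm_sq, P.norm_dir]
  simp

/-- signed distance to the side line -/
noncomputable def g (k : Fin n) (z : ℂ) : ℝ := cross (P.dir k) (z - P.V k)

theorem cross_side (k : Fin n) (w : ℂ) :
    cross (P.V (k + 1) - P.V k) w = P.len k * cross (P.dir k) w := by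
  rw [P.V_succ k, add_sub_cancel_left, cross_smul_left]

theorem mem_interior_iff (z : ℂ) : z ∈ P.interior ↔ ∀ k, 0 < P.g k z := by
  unfold interior g
  simp only [mem_ofPred_eq, P.cross_side]
  constructor
  · intro h k
    exact (mul_pos_iff_of_pos_left (P.len_pos k)).1 (h k)
  · intro h k
    exact mul_pos (P.len_pos k) (h k)

theorem g_V_self (k : Fin n) : P.g k (P.V k) = 0 := by
  unfold g; rw [sub_self, cross_zero_right]

theorem g_add_smul (k : Fin n) (z u : ℂ) (t : ℝ) :
    P.g k (z + (t : ℂ) * u) = P.g k z + t * cross (P.dir k) u := by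
  unfold g
  rw [show z + (t : ℂ) * u - P.V k = (z - P.V k) + (t : ℂ) * u by ring, cross_add_right,
    cross_smul_right]

theorem g_V_succ (k : Fin n) : P.g k (P.V (k + 1)) = 0 := by
  rw [P.V_succ k, g_add_smul, g_V_self, cross_self]; ring

theorem g_V_pos {k j : Fin n} (h1 : j ≠ k) (h2 : j ≠ k + 1) : 0 < P.g k (P.V j) := by
  have := P.convex k j h1 h2
  rw [P.cross_side] at this
  exact (mul_pos_iff_of_pos_left (P.len_pos k)).1 this

theorem g_V_nonneg (k j : Fin n) : 0 ≤ P.g k (P.V j) := by
  by_cases h1 : j = k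
  · rw [h1, g_V_self]
  · by_cases h2 : j = k + 1
    · rw [h2, g_V_succ]
    · exact (P.g_V_pos h1 h2).le

/-- point at arclength `s` on side `k` -/
noncomputable def pt (k : Fin n) (s : ℝ) : ℂ := P.V k + (s : ℂ) * P.dir k

theorem g_pt_self (k : Fin n) (s : ℝ) : P.g k (P.pt k s) = 0 := by
  unfold pt
  rw [g_add_smul, g_V_self, cross_self]; ring

theorem g_pt_eq (j k : Fin n) (s : ℝ) :
    P.len k * P.g j (P.pt k s) = (P.len k - s) * P.g j (P.V k) + s * P.g j (P.V (k + 1)) := by
  rw [P.V_succ k]
  unfold pt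
  rw [g_add_smul, g_add_smul]
  ring

/-- a point of the open side `k` is strictly inside with respect to all other sides -/
theorem g_pt_pos {j k : Fin n} (hjk : j ≠ k) {s : ℝ} (hs : s ∈ Ioo 0 (P.len k)) :
    0 < P.g j (P.pt k s) := by
  have h := P.g_pt_eq j k s
  have h1 := P.g_V_nonneg j k
  have h2 := P.g_V_nonneg j (k + 1)
  have hpos : 0 < P.g j (P.V k) ∨ 0 < P.g j (P.V (k + 1)) := by
    by_cases hk : k = j + 1
    · right
      apply P.g_V_pos
      · rw [hk]; exact P.succ_succ_ne j
      · rw [hk]; exact P.succ_ne (j + 1)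
    · left
      exact P.g_V_pos (Ne.symm hjk) hk
  have : 0 < P.len k * P.g j (P.pt k s) := by
    rw [h]
    rcases hpos with hp | hp
    · have := mul_pos (sub_pos.2 hs.2) hp
      have := mul_nonneg hs.1.le h2
      linarith
    · have := mul_nonneg (sub_pos.2 hs.2).le h1
      have := mul_pos hs.1 hp
      linarith
  exact (mul_pos_iff_of_pos_left (P.len_pos k)).1 this

/-! ### exit and entrance sides of a line -/

/-- the line `cross u · = p` (direction `u`) leaves the polygon through the open side `k` -/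
def Exit (u : ℂ) (p : ℝ) (k : Fin n) : Prop := cross u (P.V k) < p ∧ p < cross u (P.V (k + 1))

/-- the line enters the polygon through the open side `k` -/
def Ent (u : ℂ) (p : ℝ) (k : Fin n) : Prop := cross u (P.V (k + 1)) < p ∧ p < cross u (P.V k)

theorem ent_iff_exit (u : ℂ) (p : ℝ) (k : Fin n) : P.Ent u p k ↔ P.Exit (-u) (-p) k := by
  unfold Ent Exit
  rw [cross_neg_left, cross_neg_left]
  constructor <;> rintro ⟨h1, h2⟩ <;> constructor <;> linarith

theorem exit_cross {u : ℂ} {p : ℝ} {k : Fin n} (h : P.Exit u p k) : cross (P.dir k) u < 0 := by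
  have h1 := h.1.trans h.2
  rw [P.V_succ k, cross_add_right, cross_smul_right] at h1
  have h2 : 0 < P.len k * cross u (P.dir k) := by linarith
  have := (mul_pos_iff_of_pos_left (P.len_pos k)).1 h2
  rw [cross_comm]
  linarith

theorem ent_cross {u : ℂ} {p : ℝ} {k : Fin n} (h : P.Ent u p k) : 0 < cross (P.dir k) u := by
  rw [ent_iff_exit] at h
  have := P.exit_cross h
  rw [cross_neg_right] at this
  linarith

/-- the line meets the exit side in a point of the open side -/
theorem exit_pt {u : ℂ} {p : ℝ} {k : Fin n} (h : P.Exit u p k) :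
    ∃ s ∈ Ioo 0 (P.len k), cross u (P.pt k s) = p := by
  have hc := P.exit_cross h
  rw [cross_comm] at hc
  have hc' : 0 < cross u (P.dir k) := by linarith
  obtain ⟨h1, h2⟩ := h
  rw [P.V_succ k, cross_add_right, cross_smul_right] at h2
  refine ⟨(p - cross u (P.V k)) / cross u (P.dir k), ⟨div_pos (by linarith) hc', ?_⟩, ?_⟩
  · rw [div_lt_iff₀ hc']; linarith
  · unfold pt
    rw [cross_add_right, cross_smul_right]
    field_simp
    ring

theorem ent_pt {u : ℂ} {p : ℝ} {k : Fin n} (h : P.Ent u p k) :
    ∃ s ∈ Ioo 0 (P.len k), cross u (P.pt k s) = p := by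
  rw [ent_iff_exit] at h
  obtain ⟨s, hs, h⟩ := P.exit_pt h
  rw [cross_neg_left] at h
  exact ⟨s, hs, by linarith⟩

theorem exit_of_pt {u : ℂ} {p : ℝ} {k : Fin n} {s : ℝ} (hs : s ∈ Ioo 0 (P.len k))
    (h : cross u (P.pt k s) = p) (hc : cross (P.dir k) u < 0) : P.Exit u p k := by
  rw [cross_comm] at hc
  have hc' : 0 < cross u (P.dir k) := by linarith
  unfold Exit
  rw [P.V_succ k, cross_add_right, cross_smul_right]
  unfold pt at h
  rw [cross_add_right, cross_smul_right] at h
  have h1 := mul_pos hs.1 hc'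
  have h2 := mul_lt_mul_of_pos_right hs.2 hc'
  constructor <;> linarith

theorem ent_of_pt {u : ℂ} {p : ℝ} {k : Fin n} {s : ℝ} (hs : s ∈ Ioo 0 (P.len k))
    (h : cross u (P.pt k s) = p) (hc : 0 < cross (P.dir k) u) : P.Ent u p k := by
  rw [ent_iff_exit]
  refine P.exit_of_pt hs ?_ ?_
  · rw [cross_neg_left, h]
  · rw [cross_neg_right]; linarith

/-- two points on the line with unit direction `u` -/
theorem on_line {u z w : ℂ} (hu : ‖u‖ = 1) (h : cross u z = cross u w) :
    w = z + (dot u (w - z) : ℂ) * u := by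
  have : cross u (w - z) = 0 := by rw [cross_sub_right, h, sub_self]
  have := eq_smul_of_cross_eq_zero hu this
  rw [← this]; ring

/-- the exit side is unique -/
theorem exit_unique {u : ℂ} (hu : ‖u‖ = 1) {p : ℝ} {k k' : Fin n} (h : P.Exit u p k)
    (h' : P.Exit u p k') : k = k' := by
  by_contra hne
  obtain ⟨s, hs, hp⟩ := P.exit_pt h
  obtain ⟨s', hs', hp'⟩ := P.exit_pt h'
  have hc := P.exit_cross h
  have hc' := P.exit_cross h'
  have hl := on_line hu (hp.trans hp'.symm)
  have hl' := on_line hu (hp'.trans hp.symm)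
  have e1 : P.g k (P.pt k' s') = dot u (P.pt k' s' - P.pt k s) * cross (P.dir k) u := by
    conv_lhs => rw [hl]
    rw [g_add_smul, g_pt_self]; ring
  have e2 : P.g k' (P.pt k s) = dot u (P.pt k s - P.pt k' s') * cross (P.dir k') u := by
    conv_lhs => rw [hl']
    rw [g_add_smul, g_pt_self]; ring
  have p1 := P.g_pt_pos hne hs'
  have p2 := P.g_pt_pos (Ne.symm hne) hs
  have e3 : dot u (P.pt k s - P.pt k' s') = - dot u (P.pt k' s' - P.pt k s) := by
    rw [dot_sub_right, dot_sub_right]; ring
  rw [e1] at p1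
  rw [e2, e3] at p2
  have n1 : dot u (P.pt k' s' - P.pt k s) < 0 := by
    by_contra hge
    have := mul_nonpos_of_nonneg_of_nonpos (not_lt.1 hge) hc.le
    linarith
  have := mul_neg_of_pos_of_neg (by linarith : 0 < - dot u (P.pt k' s' - P.pt k s)) hc'
  linarith

theorem ent_unique {u : ℂ} (hu : ‖u‖ = 1) {p : ℝ} {k k' : Fin n} (h : P.Ent u p k)
    (h' : P.Ent u p k') : k = k' := by
  rw [ent_iff_exit] at h h'
  exact P.exit_unique (by rwa [norm_neg]) h h'

/-! ### discrete intermediate value argument -/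

theorem cycle_aux {n : ℕ} [NeZero n] (Q : Fin n → Prop) {i j : Fin n} (hi : Q i) (hj : ¬ Q j) :
    ∃ k, Q k ∧ ¬ Q (k + 1) := by
  by_contra hcon
  push Not at hcon
  have hall : ∀ m : ℕ, Q (i + (Fin.ofNat n m)) := by
    intro m
    induction m with
    | zero =>
      have : (Fin.ofNat n 0 : Fin n) = 0 := by
        apply Fin.ext; simp
      rw [this, add_zero]; exact hi
    | succ m ih =>
      have e : (Fin.ofNat n (m+1) : Fin n) = Fin.ofNat n m + 1 := by
        apply Fin.ext
        simp [Fin.val_add]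
      rw [e, ← add_assoc]
      exact hcon _ ih
  have := hall (j - i : Fin n).val
  have e : (Fin.ofNat n (j - i : Fin n).val : Fin n) = j - i := by
    apply Fin.ext
    simp
  rw [e, add_sub_cancel] at this
  exact hj this

/-- a line strictly between two vertices leaves through an open side or a vertex -/
theorem exit_or_vertex {u : ℂ} {p : ℝ} {i j : Fin n} (hi : cross u (P.V i) < p)
    (hj : p < cross u (P.V j)) :
    (∃ k, P.Exit u p k) ∨ ∃ k, cross u (P.V k) < p ∧ cross u (P.V (k + 1)) = p := by
  obtain ⟨k, hk, hk'⟩ := cycle_aux (fun k => cross u (P.V k) < p) hi (j := j) (by linarith)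
  rcases lt_or_eq_of_le (not_lt.1 hk') with h | h
  · exact Or.inl ⟨k, hk, h⟩
  · exact Or.inr ⟨k, hk, h.symm⟩

theorem ent_or_vertex {u : ℂ} {p : ℝ} {i j : Fin n} (hi : cross u (P.V i) < p)
    (hj : p < cross u (P.V j)) :
    (∃ k, P.Ent u p k) ∨ ∃ k, p < cross u (P.V k) ∧ cross u (P.V (k + 1)) = p := by
  have := P.exit_or_vertex (u := -u) (p := -p) (i := j) (j := i)
    (by rw [cross_neg_left]; linarith) (by rw [cross_neg_left]; linarith)
  rcases this with ⟨k, hk⟩ | ⟨k, h1, h2⟩
  · exact Or.inl ⟨k, (P.ent_iff_exit u p k).2 hk⟩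
  · rw [cross_neg_left] at h1 h2
    exact Or.inr ⟨k, by linarith, by linarith⟩

end ConvexPolygon

end Bil62
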