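import Pool.Agent.Helper62.Bil.Confine

/-! Facts about the relation `Hits`. -/

namespace Bil62

open MeasureTheory Set

open scoped ComplexConjugate

theorem exp_I_conj (θ : ℝ) : conj (Complex.exp ((θ : ℂ) * Complex.I)) =
    Complex.exp (-(θ : ℂ) * Complex.I) := by
  rw [← Complex.exp_conj, map_mul, Complex.conj_ofReal, Complex.conj_I]
  congr 1; ring

theorem norm_exp_I (θ : ℝ) : ‖Complex.exp ((θ : ℂ) * Complex.I)‖ = 1 :=
  Complex.norm_exp_ofReal_mul_I θ

theorem cross_dir_exp {d : ℂ} (hd : ‖d‖ = 1) (θ : ℝ) :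
    cross d (d * Complex.exp ((θ : ℂ) * Complex.I)) = Real.sin θ := by
  have := cross_mul_left d 1 (Complex.exp ((θ : ℂ) * Complex.I)) hd
  rw [mul_one] at this
  rw [this, Complex.exp_mul_I]
  simp [cross, ← Complex.ofReal_cos, ← Complex.ofReal_sin]

theorem dot_dir_exp {d : ℂ} (hd : ‖d‖ = 1) (θ : ℝ) :
    dot d (d * Complex.exp ((θ : ℂ) * Complex.I)) = Real.cos θ := by
  have := dot_mul_left d 1 (Complex.exp ((θ : ℂ) * Complex.I)) hd
  rw [mul_one] at this
  rw [this, Complex.exp_mul_I]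
  simp [dot, ← Complex.ofReal_cos, ← Complex.ofReal_sin]

theorem cross_dir_exp_neg {d : ℂ} (hd : ‖d‖ = 1) (θ : ℝ) :
    cross d (d * Complex.exp (-(θ : ℂ) * Complex.I)) = - Real.sin θ := by
  have := cross_dir_exp hd (-θ)
  rw [Complex.ofReal_neg, Real.sin_neg] at this
  exact this

/-- a unit vector pointing to the right of `d` is `d * exp(-iθ)` with `θ ∈ (0, π)` -/
theorem exists_angle {d v : ℂ} (hd : ‖d‖ = 1) (hv : ‖v‖ = 1) (h : cross d v < 0) :
    ∃ θ ∈ Ioo 0 Real.pi, v = d * Complex.exp (-(θ : ℂ) * Complex.I) := by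
  set w := conj v * d with hw
  have hwn : ‖w‖ = 1 := by rw [hw, norm_mul, RCLike.norm_conj, hd, hv, one_mul]
  have him : 0 < w.im := by
    rw [hw]
    simp [cross] at h ⊢
    linarith
  have harg : Complex.arg w ∈ Ioo 0 Real.pi := by
    constructor
    · rcases lt_or_eq_of_le (Complex.arg_nonneg_iff.2 him.le) with h1 | h1
      · exact h1
      · exfalso
        have := Complex.arg_eq_zero_iff.1 h1.symm
        linarith [this.2]
    · rcases lt_or_eq_of_le (Complex.arg_le_pi w) with h1 | h1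
      · exact h1
      · exfalso
        have := Complex.arg_eq_pi_iff.1 h1
        linarith [this.2]
  refine ⟨Complex.arg w, harg, ?_⟩
  have h1 : w = Complex.exp ((Complex.arg w : ℂ) * Complex.I) := by
    have := Complex.norm_mul_exp_arg_mul_I w
    rw [hwn] at this
    simpa using this.symm
  rw [← exp_I_conj, ← h1, hw, map_mul, Complex.conj_conj]
  have := unit_mul_conj hd
  linear_combination (-v) * this

theorem angle_inj {θ θ' : ℝ} (h : θ ∈ Ioo 0 Real.pi) (h' : θ' ∈ Ioo 0 Real.pi)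
    (he : Complex.exp (-(θ : ℂ) * Complex.I) = Complex.exp (-(θ' : ℂ) * Complex.I)) : θ = θ' := by
  have h1 := congrArg Complex.re he
  rw [← exp_I_conj, ← exp_I_conj, Complex.conj_re, Complex.conj_re, Complex.exp_mul_I,
    Complex.exp_mul_I] at h1
  simp [← Complex.ofReal_cos, ← Complex.ofReal_sin] at h1
  exact Real.injOn_cos ⟨h.1.le, h.2.le⟩ ⟨h'.1.le, h'.2.le⟩ h1

namespace ConvexPolygon

variable {n : ℕ} [NeZero n] (P : ConvexPolygon n)

theorem norm_vel (z : Fin n × ℝ × ℝ) : ‖P.vel z‖ = 1 := by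
  unfold vel
  rw [norm_mul, P.norm_dir, norm_exp_I, one_mul]

theorem pos_eq_pt (z : Fin n × ℝ × ℝ) : P.pos z = P.pt z.1 z.2.2 := rfl

/-- the line carrying the chord that starts at `z` -/
noncomputable def pv (z : Fin n × ℝ × ℝ) : ℝ := cross (P.vel z) (P.pos z)

theorem cross_dir_vel (z : Fin n × ℝ × ℝ) : cross (P.dir z.1) (P.vel z) = Real.sin z.2.1 :=
  cross_dir_exp (P.norm_dir _) _

theorem sin_pos_of_phase {z : Fin n × ℝ × ℝ} (hz : z ∈ P.Phase) : 0 < Real.sin z.2.1 :=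
  Real.sin_pos_of_pos_of_lt_pi hz.1.1 hz.1.2

theorem hits_exit {z z' : Fin n × ℝ × ℝ} (hz' : z' ∈ P.Phase) (h : P.Hits z z') :
    P.Exit (P.vel z) (P.pv z) z'.1 ∧ P.vel z' = P.refl z'.1 (P.vel z) ∧
      P.pv z' = cross (P.vel z') (P.V z'.1) + cross (P.vel z) (P.V z'.1) - P.pv z := by
  obtain ⟨t, ht, hpos, _, hvel⟩ := h
  have hc : cross (P.dir z'.1) (P.vel z) = - Real.sin z'.2.1 := by
    rw [hvel]; exact cross_dir_exp_neg (P.norm_dir _) _
  have hs := P.sin_pos_of_phase hz'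
  have hline : cross (P.vel z) (P.pos z') = P.pv z := by
    rw [hpos, cross_add_right, cross_smul_right, cross_self]
    unfold pv; ring
  have hrefl : P.vel z' = P.refl z'.1 (P.vel z) := by
    unfold refl
    rw [hvel, map_mul, ← exp_I_conj, Complex.conj_conj]
    unfold vel
    have := P.dir_mul_conj z'.1
    linear_combination (-(P.dir z'.1 * Complex.exp ((z'.2.1 : ℂ) * Complex.I))) * this
  refine ⟨P.exit_of_pt hz'.2 hline (by linarith), hrefl, ?_⟩
  unfold pv
  rw [hrefl]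
  have h1 := P.cross_refl_rpt z'.1 (P.vel z) (P.pos z')
  rw [pos_eq_pt, P.rpt_pt] at h1
  rw [pos_eq_pt, h1, ← pos_eq_pt, hline]
  rfl

theorem hits_chord {i : Fin n} {z z' : Fin n × ℝ × ℝ} (hz' : z' ∈ P.Phase) (h : P.Hits z z')
    (hi : z'.1 ≠ i) : P.ChordR i (P.vel z, P.pv z) (P.vel z', P.pv z') := by
  obtain ⟨h1, h2, h3⟩ := P.hits_exit hz' h
  exact ⟨z'.1, hi, h1, h2, h3⟩

theorem exists_hits {z : Fin n × ℝ × ℝ} (hz : z ∈ P.Phase) {l : Fin n}
    (h : P.Exit (P.vel z) (P.pv z) l) : ∃ z' ∈ P.Phase, z'.1 = l ∧ P.Hits z z' := by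
  obtain ⟨s, hs, hp⟩ := P.exit_pt h
  obtain ⟨θ, hθ, hv⟩ := exists_angle (P.norm_dir l) (P.norm_vel z) (P.exit_cross h)
  have hsin := P.sin_pos_of_phase hz
  have hlk : l ≠ z.1 := by
    rintro rfl
    have := P.exit_cross h
    rw [P.cross_dir_vel] at this
    linarith
  have hl := on_line (P.norm_vel z) (show cross (P.vel z) (P.pos z) = cross (P.vel z) (P.pt l s)
    from hp.symm)
  set t := dot (P.vel z) (P.pt l s - P.pos z) with ht
  have htpos : 0 < t := by
    have h1 := P.g_pt_pos (Ne.symm hlk) hs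
    rw [hl, g_add_smul, pos_eq_pt, g_pt_self, P.cross_dir_vel, zero_add] at h1
    exact (mul_pos_iff_of_pos_right hsin).1 h1
  refine ⟨(l, θ, s), ⟨hθ, hs⟩, rfl, t, htpos, hl, ?_, hv⟩
  intro r hr
  rw [P.mem_interior_iff]
  intro j
  rw [g_add_smul]
  by_cases hj : j = z.1
  · rw [hj, pos_eq_pt, g_pt_self, P.cross_dir_vel]
    have := mul_pos hr.1 hsin
    linarith
  · have h1 : 0 < P.g j (P.pos z) := by rw [pos_eq_pt]; exact P.g_pt_pos hj hz.2
    have h2 : 0 ≤ P.g j (P.pt l s) := by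
      by_cases hjl : j = l
      · rw [hjl, g_pt_self]
      · exact (P.g_pt_pos hjl hs).le
    rw [hl, g_add_smul] at h2
    set c := cross (P.dir j) (P.vel z)
    set G := P.g j (P.pos z)
    have hr1 := hr.1
    have hr2 := hr.2
    by_cases hc : 0 ≤ c
    · have := mul_nonneg hr1.le hc
      linarith
    · have h3 : t * c < r * c := mul_lt_mul_of_neg_right hr2 (not_le.1 hc)
      linarith

theorem hits_unique {z z₁ z₂ : Fin n × ℝ × ℝ} (h₁ : z₁ ∈ P.Phase) (h₂ : z₂ ∈ P.Phase)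
    (hh₁ : P.Hits z z₁) (hh₂ : P.Hits z z₂) : z₁ = z₂ := by
  obtain ⟨e1, _, _⟩ := P.hits_exit h₁ hh₁
  obtain ⟨e2, _, _⟩ := P.hits_exit h₂ hh₂
  have hk := P.exit_unique (P.norm_vel z) e1 e2
  obtain ⟨t₁, _, p1, _, v1⟩ := hh₁
  obtain ⟨t₂, _, p2, _, v2⟩ := hh₂
  have hc := P.exit_cross e1
  obtain ⟨k₁, θ₁, s₁⟩ := z₁
  obtain ⟨k₂, θ₂, s₂⟩ := z₂
  simp only at hk
  subst hk
  have hθ : θ₁ = θ₂ := by
    apply angle_inj h₁.1 h₂.1
    have h0 : P.dir k₁ ≠ 0 := by
      intro h0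
      have := P.norm_dir k₁
      rw [h0, norm_zero] at this
      exact zero_ne_one this
    exact mul_left_cancel₀ h0 (v1.symm.trans v2)
  have hs : s₁ = s₂ := by
    have q1 : cross (P.vel z) (P.pt k₁ s₁) = P.pv z := by
      rw [← P.pos_eq_pt (k₁, θ₁, s₁), p1, cross_add_right, cross_smul_right, cross_self]
      unfold pv; ring
    have q2 : cross (P.vel z) (P.pt k₁ s₂) = P.pv z := by
      rw [← P.pos_eq_pt (k₁, θ₂, s₂), p2, cross_add_right, cross_smul_right, cross_self]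
      unfold pv; ring
    unfold pt at q1 q2
    rw [cross_add_right, cross_smul_right] at q1 q2
    have hne : cross (P.vel z) (P.dir k₁) ≠ 0 := by
      rw [cross_comm]
      simp only at hc
      linarith
    have : (s₁ - s₂) * cross (P.vel z) (P.dir k₁) = 0 := by linarith
    rcases mul_eq_zero.1 this with h | h
    · linarith
    · exact absurd h hne
  rw [hθ, hs]

/-- time reversal -/
noncomputable def rev (z : Fin n × ℝ × ℝ) : Fin n × ℝ × ℝ := (z.1, Real.pi - z.2.1, z.2.2)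

theorem rev_rev (z : Fin n × ℝ × ℝ) : rev (rev z) = z := by
  simp [rev]

theorem rev_phase {z : Fin n × ℝ × ℝ} (hz : z ∈ P.Phase) : rev z ∈ P.Phase := by
  obtain ⟨⟨h1, h2⟩, h3⟩ := hz
  exact ⟨⟨by simp [rev]; linarith, by simp [rev]; linarith⟩, h3⟩

theorem pos_rev (z : Fin n × ℝ × ℝ) : P.pos (rev z) = P.pos z := rfl

theorem exp_pi_sub (θ : ℝ) : Complex.exp (((Real.pi - θ : ℝ) : ℂ) * Complex.I) =
    - Complex.exp (-(θ : ℂ) * Complex.I) := by
  rw [Complex.ofReal_sub, sub_mul, sub_eq_add_neg, Complex.exp_add, Complex.exp_pi_mul_I]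
  rw [← neg_mul]; ring

theorem vel_rev (z : Fin n × ℝ × ℝ) :
    P.vel (rev z) = - (P.dir z.1 * Complex.exp (-(z.2.1 : ℂ) * Complex.I)) := by
  unfold vel rev
  simp only
  rw [exp_pi_sub]; ring

theorem hits_rev {z z' : Fin n × ℝ × ℝ} (h : P.Hits z z') : P.Hits (rev z') (rev z) := by
  obtain ⟨t, ht, hpos, hint, hvel⟩ := h
  have hv : P.vel (rev z') = - P.vel z := by rw [vel_rev, ← hvel]
  refine ⟨t, ht, ?_, ?_, ?_⟩
  · rw [pos_rev, pos_rev, hv, hpos]; ring
  · intro r hr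
    rw [pos_rev, hv, hpos]
    have := hint (t - r) ⟨by linarith [hr.2], by linarith [hr.1]⟩
    convert this using 1
    push_cast; ring
  · rw [hv]
    have h2 := P.vel_rev (rev z)
    rw [rev_rev] at h2
    rw [h2]
    have : (rev z).1 = z.1 := rfl
    ring

theorem hits_rev_iff {z z' : Fin n × ℝ × ℝ} : P.Hits (rev z') (rev z) ↔ P.Hits z z' := by
  constructor
  · intro h
    have := P.hits_rev h
    rwa [rev_rev, rev_rev] at this
  · exact P.hits_rev

/-- if there is no next collision the line passes through a vertex -/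
theorem vertex_of_no_hits {z : Fin n × ℝ × ℝ} (hz : z ∈ P.Phase)
    (h : ¬ ∃ z' ∈ P.Phase, P.Hits z z') : ∃ j, cross (P.vel z) (P.V j) = P.pv z := by
  have hsin := P.sin_pos_of_phase hz
  have hc : cross (P.vel z) (P.dir z.1) = - Real.sin z.2.1 := by
    rw [cross_comm, P.cross_dir_vel]
  have e1 : P.pv z = cross (P.vel z) (P.V z.1) + z.2.2 * cross (P.vel z) (P.dir z.1) := by
    unfold pv pos
    rw [cross_add_right, cross_smul_right]
  have e2 : cross (P.vel z) (P.V (z.1 + 1)) =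
      cross (P.vel z) (P.V z.1) + P.len z.1 * cross (P.vel z) (P.dir z.1) := by
    rw [P.V_succ z.1, cross_add_right, cross_smul_right]
  rw [hc] at e1 e2
  have h1 : P.pv z < cross (P.vel z) (P.V z.1) := by
    have := mul_pos hz.2.1 hsin
    rw [e1]; linarith
  have h2 : cross (P.vel z) (P.V (z.1 + 1)) < P.pv z := by
    have := mul_lt_mul_of_pos_right hz.2.2 hsin
    rw [e1, e2]; linarith
  rcases P.exit_or_vertex h2 h1 with ⟨l, hl⟩ | ⟨k, _, hk⟩
  · obtain ⟨z', hz', _, hh⟩ := P.exists_hits hz hl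
    exact absurd ⟨z', hz', hh⟩ h
  · exact ⟨k + 1, hk⟩

/-- the billiard map is characterised by `Hits` -/
theorem billiardMap_eq {z z' : Fin n × ℝ × ℝ} (hz' : z' ∈ P.Phase) (h : P.Hits z z') :
    P.billiardMap z = z' := by
  have hex : ∃ z' ∈ P.Phase, P.Hits z z' := ⟨z', hz', h⟩
  unfold billiardMap
  rw [dif_pos hex]
  exact P.hits_unique hex.choose_spec.1 hz' hex.choose_spec.2 h

end ConvexPolygon

end Bil62
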