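import Pool.Agent.Helper62.Bil.Hits

/-! The billiard map preserves the measure `sin θ ds dθ`. -/

namespace Bil62

open MeasureTheory Set

open scoped ComplexConjugate ENNReal

/-- affine scaling on the line -/
theorem scale_volume {a : ℝ} (ha : 0 < a) (c : ℝ) (S : Set ℝ) :
    ENNReal.ofReal a * volume {s : ℝ | c - a * s ∈ S} = volume S := by
  have h1 : {s : ℝ | c - a * s ∈ S} = ((-a) * ·) ⁻¹' ((c + ·) ⁻¹' S) := by
    ext s
    simp only [mem_ofPred_eq, mem_preimage]
    rw [show c + -a * s = c - a * s by ring]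
  rw [h1, Real.volume_preimage_mul_left (by linarith), measure_preimage_add, ← mul_assoc,
    ← ENNReal.ofReal_mul ha.le]
  rw [abs_inv, abs_neg, abs_of_pos ha, mul_inv_cancel₀ ha.ne', ENNReal.ofReal_one, one_mul]

theorem scale_volume' {a : ℝ} (ha : 0 < a) (c : ℝ) (S : Set ℝ) :
    ENNReal.ofReal a * volume {s : ℝ | c + a * s ∈ S} = volume S := by
  have h1 : {s : ℝ | c + a * s ∈ S} = (a * ·) ⁻¹' ((c + ·) ⁻¹' S) := by
    ext s
    simp only [mem_ofPred_eq, mem_preimage]
  rw [h1, Real.volume_preimage_mul_left ha.ne', measure_preimage_add, ← mul_assoc,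
    ← ENNReal.ofReal_mul ha.le]
  rw [abs_inv, abs_of_pos ha, mul_inv_cancel₀ ha.ne', ENNReal.ofReal_one, one_mul]

/-- the angle from `d` to `d'` normalised to `(0, 2π]` -/
theorem exists_kappa {d d' : ℂ} (hd : ‖d‖ = 1) (hd' : ‖d'‖ = 1) : ∃ κ : ℝ, ∀ θ ∈ Ioo 0 Real.pi,
    ∀ θ' ∈ Ioo 0 Real.pi, (d * Complex.exp ((θ : ℂ) * Complex.I) =
      d' * Complex.exp (-(θ' : ℂ) * Complex.I) ↔ θ' = κ - θ) := by
  set w := d' * conj d with hw
  have hwn : ‖w‖ = 1 := by rw [hw, norm_mul, RCLike.norm_conj, hd, hd', one_mul]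
  have hwe : Complex.exp ((Complex.arg w : ℂ) * Complex.I) = w := by
    have := Complex.norm_mul_exp_arg_mul_I w
    rw [hwn] at this
    simpa using this
  obtain ⟨κ, hκ, hκe⟩ : ∃ κ : ℝ, κ ∈ Ioc 0 (2 * Real.pi) ∧
      Complex.exp ((κ : ℂ) * Complex.I) = w := by
    by_cases h : 0 < Complex.arg w
    · exact ⟨Complex.arg w, ⟨h, by have := Complex.arg_le_pi w; have := Real.pi_pos; linarith⟩, hwe⟩
    · refine ⟨Complex.arg w + 2 * Real.pi, ⟨?_, by linarith⟩, ?_⟩
      · have := Complex.neg_pi_lt_arg w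
        have := Real.pi_pos
        linarith
      · have e : ((Complex.arg w + 2 * Real.pi : ℝ) : ℂ) * Complex.I =
            (Complex.arg w : ℂ) * Complex.I + 2 * Real.pi * Complex.I := by
          push_cast; ring
        rw [e, Complex.exp_add, Complex.exp_two_pi_mul_I, mul_one, hwe]
  refine ⟨κ, fun θ hθ θ' hθ' => ?_⟩
  have hdd := unit_mul_conj hd
  have e1 : Complex.exp ((θ' : ℂ) * Complex.I) * Complex.exp (-(θ' : ℂ) * Complex.I) = 1 := by
    rw [← Complex.exp_add]; simp
  constructor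
  · intro h
    have h1 : Complex.exp (((θ + θ' : ℝ) : ℂ) * Complex.I) = Complex.exp ((κ : ℂ) * Complex.I) := by
      rw [hκe, hw]
      push_cast
      rw [add_mul, Complex.exp_add]
      linear_combination (conj d * Complex.exp ((θ' : ℂ) * Complex.I)) * h +
        (-(Complex.exp ((θ : ℂ) * Complex.I) * Complex.exp ((θ' : ℂ) * Complex.I))) * hdd +
        (d' * conj d) * e1
    rw [Complex.exp_eq_exp_iff_exists_int] at h1
    obtain ⟨m, hm⟩ := h1
    have h2 : (θ + θ' : ℝ) = κ + m * (2 * Real.pi) := by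
      have hm' : (((θ + θ' : ℝ) : ℂ) - (κ + m * (2 * Real.pi))) * Complex.I = 0 := by
        linear_combination hm
      rcases mul_eq_zero.1 hm' with h3 | h3
      · have : ((θ + θ' : ℝ) : ℂ) = ((κ + m * (2 * Real.pi) : ℝ) : ℂ) := by
          push_cast
          push_cast at h3
          linear_combination h3
        exact_mod_cast this
      · exact absurd h3 Complex.I_ne_zero
    have hm0 : m = 0 := by
      have hpi := Real.pi_pos
      have h4 : (m : ℝ) * (2 * Real.pi) < 1 * (2 * Real.pi) := by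
        linarith [hθ.2, hθ'.2, hκ.1]
      have h5 : (-1 : ℝ) * (2 * Real.pi) < m * (2 * Real.pi) := by
        linarith [hθ.1, hθ'.1, hκ.2]
      have h6 := lt_of_mul_lt_mul_right h4 (by positivity)
      have h7 := lt_of_mul_lt_mul_right h5 (by positivity)
      have h8 : m < 1 := by exact_mod_cast h6
      have h9 : -1 < m := by exact_mod_cast h7
      omega
    rw [hm0] at h2
    simp at h2
    linarith
  · intro h
    have h1 : Complex.exp ((κ : ℂ) * Complex.I) =
        Complex.exp ((θ : ℂ) * Complex.I) * Complex.exp ((θ' : ℂ) * Complex.I) := by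
      rw [← Complex.exp_add, h]
      congr 1
      push_cast; ring
    rw [hκe, hw] at h1
    have h2 : d * (d' * conj d) = d * (Complex.exp ((θ : ℂ) * Complex.I) *
      Complex.exp ((θ' : ℂ) * Complex.I)) := by rw [h1]
    linear_combination (-(Complex.exp (-(θ' : ℂ) * Complex.I))) * h2 +
      (d' * Complex.exp (-(θ' : ℂ) * Complex.I)) * hdd +
      (-(d * Complex.exp ((θ : ℂ) * Complex.I))) * e1

namespace ConvexPolygon

variable {n : ℕ} [NeZero n] (P : ConvexPolygon n)

/-- the measure on the phase space over one side -/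
noncomputable def nu (k : Fin n) : Measure (ℝ × ℝ) :=
  (volume.restrict (Ioo 0 Real.pi ×ˢ Ioo 0 (P.len k))).withDensity
    (fun x => ENNReal.ofReal (Real.sin x.1))

theorem mu_eq : P.mu = Measure.sum fun k : Fin n => Measure.map (fun x : ℝ × ℝ => (k, x)) (P.nu k) :=
  rfl

theorem measurable_mk (k : Fin n) : Measurable (fun x : ℝ × ℝ => (k, x)) :=
  measurable_const.prodMk measurable_id

theorem mu_apply {A : Set (Fin n × ℝ × ℝ)} (hA : MeasurableSet A) :
    P.mu A = ∑ k, P.nu k {x | (k, x) ∈ A} := by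
  rw [mu_eq, Measure.sum_apply _ hA, tsum_fintype]
  refine Finset.sum_congr rfl fun k _ => ?_
  rw [Measure.map_apply (measurable_mk k) hA]
  rfl

/-- slices -/
theorem nu_apply (k : Fin n) {A : Set (ℝ × ℝ)} (hA : MeasurableSet A) :
    P.nu k A = ∫⁻ θ, (Ioo 0 Real.pi).indicator (fun θ => ENNReal.ofReal (Real.sin θ) *
      volume {s | s ∈ Ioo 0 (P.len k) ∧ (θ, s) ∈ A}) θ := by
  have hS : MeasurableSet (Ioo 0 Real.pi ×ˢ Ioo 0 (P.len k)) := measurableSet_Ioo.prod measurableSet_Ioo
  unfold nu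
  rw [withDensity_apply _ hA, Measure.restrict_restrict hA, ← lintegral_indicator (hA.inter hS),
    Measure.volume_eq_prod, lintegral_prod]
  · refine lintegral_congr fun θ => ?_
    by_cases hθ : θ ∈ Ioo 0 Real.pi
    · rw [indicator_of_mem hθ]
      have e : (fun s => (A ∩ Ioo 0 Real.pi ×ˢ Ioo 0 (P.len k)).indicator
          (fun x : ℝ × ℝ => ENNReal.ofReal (Real.sin x.1)) (θ, s)) =
          {s | s ∈ Ioo 0 (P.len k) ∧ (θ, s) ∈ A}.indicator
            (fun _ => ENNReal.ofReal (Real.sin θ)) := by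
        funext s
        by_cases hs : s ∈ Ioo 0 (P.len k) ∧ (θ, s) ∈ A
        · rw [indicator_of_mem (show s ∈ {s | s ∈ Ioo 0 (P.len k) ∧ (θ, s) ∈ A} from hs),
            indicator_of_mem (show (θ, s) ∈ A ∩ Ioo 0 Real.pi ×ˢ Ioo 0 (P.len k) from
              ⟨hs.2, hθ, hs.1⟩)]
        · rw [indicator_of_notMem (show s ∉ {s | s ∈ Ioo 0 (P.len k) ∧ (θ, s) ∈ A} from hs),
            indicator_of_notMem (show (θ, s) ∉ A ∩ Ioo 0 Real.pi ×ˢ Ioo 0 (P.len k) from
              fun h => hs ⟨h.2.2, h.1⟩)]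
      rw [e, lintegral_indicator_const]
      exact measurableSet_Ioo.inter (measurable_prodMk_left hA)
    · rw [indicator_of_notMem hθ]
      have e : (fun s => (A ∩ Ioo 0 Real.pi ×ˢ Ioo 0 (P.len k)).indicator
          (fun x : ℝ × ℝ => ENNReal.ofReal (Real.sin x.1)) (θ, s)) = fun _ => 0 := by
        funext s
        rw [indicator_of_notMem]
        exact fun h => hθ h.2.1
      rw [e, lintegral_zero]
  · exact ((ENNReal.measurable_ofReal.comp
      (Real.measurable_sin.comp measurable_fst)).indicator (hA.inter hS)).aemeasurable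

/-- null sets by slices -/
theorem nu_null_of_slices (k : Fin n) {A : Set (ℝ × ℝ)} (hA : MeasurableSet A)
    (h : ∀ θ ∈ Ioo 0 Real.pi, volume {s | s ∈ Ioo 0 (P.len k) ∧ (θ, s) ∈ A} = 0) :
    P.nu k A = 0 := by
  rw [P.nu_apply k hA, ← lintegral_zero (α := ℝ) (μ := volume)]
  refine lintegral_congr fun θ => ?_
  by_cases hθ : θ ∈ Ioo 0 Real.pi
  · rw [indicator_of_mem hθ, h θ hθ, mul_zero]
  · rw [indicator_of_notMem hθ]

/-- preimages under the billiard map, from side `k` to side `l` -/
def C (k l : Fin n) (B : Set (ℝ × ℝ)) : Set (ℝ × ℝ) :=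
  {x | (k, x) ∈ P.Phase ∧ ∃ x', (l, x') ∈ P.Phase ∧ x' ∈ B ∧ P.Hits (k, x) (l, x')}

theorem hits_ne {z z' : Fin n × ℝ × ℝ} (hz : z ∈ P.Phase) (hz' : z' ∈ P.Phase)
    (h : P.Hits z z') : z'.1 ≠ z.1 := by
  intro he
  obtain ⟨h1, _, _⟩ := P.hits_exit hz' h
  have := P.exit_cross h1
  rw [he, P.cross_dir_vel] at this
  have := P.sin_pos_of_phase hz
  linarith

theorem C_self (k : Fin n) (B : Set (ℝ × ℝ)) : P.C k k B = ∅ := by
  ext x
  simp only [mem_empty_iff_false, iff_false]
  rintro ⟨h1, x', h2, _, h3⟩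
  exact P.hits_ne h1 h2 h3 rfl

/-- description of `Hits` for phase points: same direction and same line -/
theorem hits_iff {z z' : Fin n × ℝ × ℝ} (hz : z ∈ P.Phase) (hz' : z' ∈ P.Phase) :
    P.Hits z z' ↔ P.vel z = P.dir z'.1 * Complex.exp (-(z'.2.1 : ℂ) * Complex.I) ∧
      cross (P.vel z) (P.pos z') = cross (P.vel z) (P.pos z) := by
  constructor
  · intro h
    obtain ⟨t, ht, hpos, _, hvel⟩ := h
    refine ⟨hvel, ?_⟩
    rw [hpos, cross_add_right, cross_smul_right, cross_self]
    ring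
  · rintro ⟨hvel, hline⟩
    have hc : cross (P.dir z'.1) (P.vel z) = - Real.sin z'.2.1 := by
      rw [hvel]; exact cross_dir_exp_neg (P.norm_dir _) _
    have hs := P.sin_pos_of_phase hz'
    have hex : P.Exit (P.vel z) (P.pv z) z'.1 := P.exit_of_pt hz'.2 hline (by linarith)
    obtain ⟨z'', hz'', hl, hh⟩ := P.exists_hits hz hex
    have : z'' = z' := by
      obtain ⟨t, ht, hpos, _, hvel''⟩ := hh
      obtain ⟨k₁, θ₁, s₁⟩ := z'
      obtain ⟨k₂, θ₂, s₂⟩ := z''
      simp only at hl
      subst hl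
      have hθ : θ₂ = θ₁ := by
        apply angle_inj hz''.1 hz'.1
        have h0 : P.dir k₂ ≠ 0 := by
          intro h0
          have := P.norm_dir k₂
          rw [h0, norm_zero] at this
          exact zero_ne_one this
        exact mul_left_cancel₀ h0 (hvel''.symm.trans hvel)
      have hs' : s₂ = s₁ := by
        have q1 : cross (P.vel z) (P.pos (k₂, θ₂, s₂)) = cross (P.vel z) (P.pos z) := by
          rw [hpos, cross_add_right, cross_smul_right, cross_self]; ring
        have q2 := q1.trans hline.symm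
        unfold pos at q2
        simp only at q2
        rw [cross_add_right, cross_smul_right, cross_add_right, cross_smul_right] at q2
        have hne : cross (P.vel z) (P.dir k₂) ≠ 0 := by
          rw [cross_comm]
          simp only at hc hs
          rw [hc, neg_neg]
          exact hs.ne'
        have : (s₂ - s₁) * cross (P.vel z) (P.dir k₂) = 0 := by linarith
        rcases mul_eq_zero.1 this with h | h
        · linarith
        · exact absurd h hne
      rw [hθ, hs']
    rw [← this]; exact hh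

end ConvexPolygon

end Bil62
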