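import Pool.Agent.Helper62.Bil.Meas

/-! The billiard map preserves the measure (continued). -/

namespace Bil62

open MeasureTheory Set

open scoped ComplexConjugate ENNReal

namespace ConvexPolygon

variable {n : ℕ} [NeZero n] (P : ConvexPolygon n)

/-- unit vector at angle `θ` from side `k` -/
noncomputable def vk (k : Fin n) (θ : ℝ) : ℂ := P.dir k * Complex.exp ((θ : ℂ) * Complex.I)

theorem cross_vk_dir (k : Fin n) (θ : ℝ) : cross (P.vk k θ) (P.dir k) = - Real.sin θ := by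
  unfold vk
  rw [cross_comm, cross_dir_exp (P.norm_dir k)]

/-- the new arclength parameter -/
noncomputable def S' (k l : Fin n) (κ : ℝ) (x : ℝ × ℝ) : ℝ :=
  (cross (P.vk k x.1) (P.V k) - cross (P.vk k x.1) (P.V l) - x.2 * Real.sin x.1) /
    Real.sin (κ - x.1)

/-- the old arclength parameter in terms of the new one -/
noncomputable def S (k l : Fin n) (κ : ℝ) (x : ℝ × ℝ) : ℝ :=
  (cross (P.vk k (κ - x.1)) (P.V k) - cross (P.vk k (κ - x.1)) (P.V l) - x.2 * Real.sin x.1) /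
    Real.sin (κ - x.1)

theorem measurable_cross_vk (k j : Fin n) : Measurable (fun θ : ℝ => cross (P.vk k θ) (P.V j)) := by
  apply Continuous.measurable
  unfold cross vk
  fun_prop

theorem measurable_S' (k l : Fin n) (κ : ℝ) : Measurable (P.S' k l κ) := by
  unfold S'
  have h1 : Measurable (fun x : ℝ × ℝ => cross (P.vk k x.1) (P.V k)) :=
    (P.measurable_cross_vk k k).comp measurable_fst
  have h2 : Measurable (fun x : ℝ × ℝ => cross (P.vk k x.1) (P.V l)) :=
    (P.measurable_cross_vk k l).comp measurable_fst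
  have h3 : Measurable (fun x : ℝ × ℝ => Real.sin x.1) := Real.measurable_sin.comp measurable_fst
  have h4 : Measurable (fun x : ℝ × ℝ => Real.sin (κ - x.1)) :=
    Real.measurable_sin.comp (measurable_const.sub measurable_fst)
  exact ((h1.sub h2).sub (measurable_snd.mul h3)).div h4

theorem measurable_S (k l : Fin n) (κ : ℝ) : Measurable (P.S k l κ) := by
  unfold S
  have h0 : Measurable (fun x : ℝ × ℝ => κ - x.1) := measurable_const.sub measurable_fst
  have h1 : Measurable (fun x : ℝ × ℝ => cross (P.vk k (κ - x.1)) (P.V k)) :=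
    (P.measurable_cross_vk k k).comp h0
  have h2 : Measurable (fun x : ℝ × ℝ => cross (P.vk k (κ - x.1)) (P.V l)) :=
    (P.measurable_cross_vk k l).comp h0
  have h3 : Measurable (fun x : ℝ × ℝ => Real.sin x.1) := Real.measurable_sin.comp measurable_fst
  have h4 : Measurable (fun x : ℝ × ℝ => Real.sin (κ - x.1)) := Real.measurable_sin.comp h0
  exact ((h1.sub h2).sub (measurable_snd.mul h3)).div h4

/-- `κ` is the angle from side `k` to side `l` -/
def IsKappa (k l : Fin n) (κ : ℝ) : Prop := ∀ θ ∈ Ioo 0 Real.pi, ∀ θ' ∈ Ioo 0 Real.pi,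
  (P.dir k * Complex.exp ((θ : ℂ) * Complex.I) =
      P.dir l * Complex.exp (-(θ' : ℂ) * Complex.I) ↔ θ' = κ - θ)

theorem hits_iff' {k l : Fin n} {κ : ℝ} (hκ : P.IsKappa k l κ) {x x' : ℝ × ℝ}
    (hx : (k, x) ∈ P.Phase) (hx' : (l, x') ∈ P.Phase) :
    P.Hits (k, x) (l, x') ↔ x'.1 = κ - x.1 ∧
      x'.2 * Real.sin x'.1 = cross (P.vk k x.1) (P.V k) - cross (P.vk k x.1) (P.V l) -
        x.2 * Real.sin x.1 := by
  rw [P.hits_iff hx hx']
  have h1 : P.vel (k, x) = P.dir l * Complex.exp (-(x'.1 : ℂ) * Complex.I) ↔ x'.1 = κ - x.1 :=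
    hκ x.1 hx.1 x'.1 hx'.1
  constructor
  · rintro ⟨e1, e2⟩
    refine ⟨h1.1 e1, ?_⟩
    have e3 : cross (P.vel (k, x)) (P.dir l) = Real.sin x'.1 := by
      rw [e1, cross_comm, cross_dir_exp_neg (P.norm_dir l), neg_neg]
    have e4 := P.cross_vk_dir k x.1
    unfold pos at e2
    simp only at e2
    rw [cross_add_right, cross_smul_right, cross_add_right, cross_smul_right, e3] at e2
    change cross (P.vk k x.1) (P.V l) + x'.2 * Real.sin x'.1 = cross (P.vk k x.1) (P.V k) +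
      x.2 * cross (P.vk k x.1) (P.dir k) at e2
    rw [e4] at e2
    linarith
  · rintro ⟨e1, e2⟩
    have e1' := h1.2 e1
    refine ⟨e1', ?_⟩
    have e3 : cross (P.vel (k, x)) (P.dir l) = Real.sin x'.1 := by
      rw [e1', cross_comm, cross_dir_exp_neg (P.norm_dir l), neg_neg]
    have e4 := P.cross_vk_dir k x.1
    unfold pos
    simp only
    rw [cross_add_right, cross_smul_right, cross_add_right, cross_smul_right, e3]
    change cross (P.vk k x.1) (P.V l) + x'.2 * Real.sin x'.1 = cross (P.vk k x.1) (P.V k) +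
      x.2 * cross (P.vk k x.1) (P.dir k)
    rw [e4]
    linarith

theorem mem_C_iff {k l : Fin n} {κ : ℝ} (hκ : P.IsKappa k l κ) (B : Set (ℝ × ℝ)) (x : ℝ × ℝ) :
    x ∈ P.C k l B ↔ (x.1 ∈ Ioo 0 Real.pi ∧ x.2 ∈ Ioo 0 (P.len k)) ∧ κ - x.1 ∈ Ioo 0 Real.pi ∧
      P.S' k l κ x ∈ Ioo 0 (P.len l) ∧ (κ - x.1, P.S' k l κ x) ∈ B := by
  unfold C
  constructor
  · rintro ⟨hx, x', hx', hB, hh⟩
    rw [P.hits_iff' hκ hx hx'] at hh
    obtain ⟨e1, e2⟩ := hh
    have hθ' : κ - x.1 ∈ Ioo 0 Real.pi := by rw [← e1]; exact hx'.1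
    have hsin := Real.sin_pos_of_pos_of_lt_pi hθ'.1 hθ'.2
    have e3 : P.S' k l κ x = x'.2 := by
      unfold S'
      rw [← e2, e1, mul_div_assoc, div_self hsin.ne', mul_one]
    refine ⟨hx, hθ', ?_, ?_⟩
    · rw [e3]; exact hx'.2
    · rw [e3, ← e1]; exact hB
  · rintro ⟨hx, hθ', hs, hB⟩
    have hsin := Real.sin_pos_of_pos_of_lt_pi hθ'.1 hθ'.2
    have hx' : (l, (κ - x.1, P.S' k l κ x)) ∈ P.Phase := ⟨hθ', hs⟩
    refine ⟨hx, (κ - x.1, P.S' k l κ x), hx', hB, ?_⟩
    rw [P.hits_iff' hκ hx hx']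
    refine ⟨rfl, ?_⟩
    simp only
    unfold S'
    rw [div_mul_cancel₀ _ hsin.ne']

theorem measurableSet_C {k l : Fin n} {κ : ℝ} (hκ : P.IsKappa k l κ) {B : Set (ℝ × ℝ)}
    (hB : MeasurableSet B) : MeasurableSet (P.C k l B) := by
  have e : P.C k l B = ((Prod.fst ⁻¹' Ioo 0 Real.pi) ∩ (Prod.snd ⁻¹' Ioo 0 (P.len k))) ∩
      (((fun x : ℝ × ℝ => κ - x.1) ⁻¹' Ioo 0 Real.pi) ∩ ((P.S' k l κ ⁻¹' Ioo 0 (P.len l)) ∩
      ((fun x => (κ - x.1, P.S' k l κ x)) ⁻¹' B))) := by
    ext x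
    rw [P.mem_C_iff hκ]
    rfl
  rw [e]
  have h0 : Measurable (fun x : ℝ × ℝ => κ - x.1) := measurable_const.sub measurable_fst
  exact ((measurable_fst measurableSet_Ioo).inter (measurable_snd measurableSet_Ioo)).inter
    ((h0 measurableSet_Ioo).inter (((P.measurable_S' k l κ) measurableSet_Ioo).inter
      ((h0.prodMk (P.measurable_S' k l κ)) hB)))

/-- phase points over side `l` reached from side `k` -/
def A' (k l : Fin n) : Set (ℝ × ℝ) :=
  {x' | (l, x') ∈ P.Phase ∧ ∃ x, (k, x) ∈ P.Phase ∧ P.Hits (k, x) (l, x')}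

theorem mem_A'_iff {k l : Fin n} {κ : ℝ} (hκ : P.IsKappa k l κ) (x' : ℝ × ℝ) :
    x' ∈ P.A' k l ↔ (x'.1 ∈ Ioo 0 Real.pi ∧ x'.2 ∈ Ioo 0 (P.len l)) ∧ κ - x'.1 ∈ Ioo 0 Real.pi ∧
      P.S k l κ x' ∈ Ioo 0 (P.len k) := by
  unfold A'
  constructor
  · rintro ⟨hx', x, hx, hh⟩
    rw [P.hits_iff' hκ hx hx'] at hh
    obtain ⟨e1, e2⟩ := hh
    have e0 : κ - x'.1 = x.1 := by rw [e1]; ring
    have hθ : κ - x'.1 ∈ Ioo 0 Real.pi := by rw [e0]; exact hx.1
    have hsin := Real.sin_pos_of_pos_of_lt_pi hθ.1 hθ.2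
    have e3 : P.S k l κ x' = x.2 := by
      unfold S
      rw [div_eq_iff hsin.ne', e0]
      linarith
    refine ⟨hx', hθ, ?_⟩
    rw [e3]; exact hx.2
  · rintro ⟨hx', hθ, hs⟩
    have hsin := Real.sin_pos_of_pos_of_lt_pi hθ.1 hθ.2
    have hx : (k, (κ - x'.1, P.S k l κ x')) ∈ P.Phase := ⟨hθ, hs⟩
    refine ⟨hx', (κ - x'.1, P.S k l κ x'), hx, ?_⟩
    rw [P.hits_iff' hκ hx hx']
    simp only
    refine ⟨by ring, ?_⟩
    have : P.S k l κ x' * Real.sin (κ - x'.1) = cross (P.vk k (κ - x'.1)) (P.V k) -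
        cross (P.vk k (κ - x'.1)) (P.V l) - x'.2 * Real.sin x'.1 := by
      unfold S
      rw [div_mul_cancel₀ _ hsin.ne']
    linarith

theorem measurableSet_A' {k l : Fin n} {κ : ℝ} (hκ : P.IsKappa k l κ) :
    MeasurableSet (P.A' k l) := by
  have e : P.A' k l = ((Prod.fst ⁻¹' Ioo 0 Real.pi) ∩ (Prod.snd ⁻¹' Ioo 0 (P.len l))) ∩
      (((fun x : ℝ × ℝ => κ - x.1) ⁻¹' Ioo 0 Real.pi) ∩ (P.S k l κ ⁻¹' Ioo 0 (P.len k))) := by
    ext x
    rw [P.mem_A'_iff hκ]
    rfl
  rw [e]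
  have h0 : Measurable (fun x : ℝ × ℝ => κ - x.1) := measurable_const.sub measurable_fst
  exact ((measurable_fst measurableSet_Ioo).inter (measurable_snd measurableSet_Ioo)).inter
    ((h0 measurableSet_Ioo).inter ((P.measurable_S k l κ) measurableSet_Ioo))

/-- transfer of measure from side `k` to side `l` -/
theorem transfer {k l : Fin n} {κ : ℝ} (hκ : P.IsKappa k l κ) {B : Set (ℝ × ℝ)}
    (hB : MeasurableSet B) : P.nu k (P.C k l B) = P.nu l (B ∩ P.A' k l) := by
  rw [P.nu_apply k (P.measurableSet_C hκ hB), P.nu_apply l (hB.inter (P.measurableSet_A' hκ))]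
  set G : ℝ → ℝ≥0∞ := fun θ => (Ioo 0 Real.pi).indicator (fun θ => ENNReal.ofReal (Real.sin θ) *
      volume {s | s ∈ Ioo 0 (P.len k) ∧ (θ, s) ∈ P.C k l B}) θ with hG
  set H : ℝ → ℝ≥0∞ := fun θ => (Ioo 0 Real.pi).indicator (fun θ => ENNReal.ofReal (Real.sin θ) *
      volume {s | s ∈ Ioo 0 (P.len l) ∧ (θ, s) ∈ B ∩ P.A' k l}) θ with hH
  have key : ∀ θ', H θ' = G (κ - θ') := by
    intro θ'
    simp only [hG, hH]
    by_cases h1 : θ' ∈ Ioo 0 Real.pi
    · by_cases h2 : κ - θ' ∈ Ioo 0 Real.pi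
      · rw [indicator_of_mem h1, indicator_of_mem h2]
        have hs1 := Real.sin_pos_of_pos_of_lt_pi h1.1 h1.2
        have hs2 := Real.sin_pos_of_pos_of_lt_pi h2.1 h2.2
        set a := cross (P.vk k (κ - θ')) (P.V k) with ha
        set b := cross (P.vk k (κ - θ')) (P.V l) with hb
        set PP : Set ℝ := {p | (a - p) / Real.sin (κ - θ') ∈ Ioo 0 (P.len k) ∧
          (p - b) / Real.sin θ' ∈ Ioo 0 (P.len l) ∧ (θ', (p - b) / Real.sin θ') ∈ B} with hPP
        have e1 : {s | s ∈ Ioo 0 (P.len l) ∧ (θ', s) ∈ B ∩ P.A' k l} =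
            {s | b + Real.sin θ' * s ∈ PP} := by
          ext s
          simp only [mem_ofPred_eq, hPP, mem_inter_iff, P.mem_A'_iff hκ, S]
          have q1 : (b + Real.sin θ' * s - b) / Real.sin θ' = s := by
            field_simp; ring
          have q2 : a - (b + Real.sin θ' * s) = a - b - s * Real.sin θ' := by ring
          rw [q1, q2]
          constructor
          · rintro ⟨p1, p2, _, _, p3⟩
            exact ⟨p3, p1, p2⟩
          · rintro ⟨p3, p1, p2⟩
            exact ⟨p1, p2, ⟨h1, p1⟩, h2, p3⟩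
        have e2 : {s | s ∈ Ioo 0 (P.len k) ∧ (κ - θ', s) ∈ P.C k l B} =
            {s | a - Real.sin (κ - θ') * s ∈ PP} := by
          ext s
          simp only [mem_ofPred_eq, hPP, P.mem_C_iff hκ, S']
          have q0 : κ - (κ - θ') = θ' := by ring
          have q1 : (a - (a - Real.sin (κ - θ') * s)) / Real.sin (κ - θ') = s := by
            field_simp; ring
          have q2 : a - Real.sin (κ - θ') * s - b = a - b - s * Real.sin (κ - θ') := by ring
          rw [q0, q1, q2]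
          constructor
          · rintro ⟨p1, _, _, p2, p3⟩
            exact ⟨p1, p2, p3⟩
          · rintro ⟨p1, p2, p3⟩
            exact ⟨p1, ⟨h2, p1⟩, h1, p2, p3⟩
        rw [e1, e2, scale_volume' hs1, scale_volume hs2]
      · rw [indicator_of_mem h1, indicator_of_notMem h2]
        have : {s | s ∈ Ioo 0 (P.len l) ∧ (θ', s) ∈ B ∩ P.A' k l} = ∅ := by
          ext s
          simp only [mem_ofPred_eq, mem_inter_iff, P.mem_A'_iff hκ, mem_empty_iff_false, iff_false]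
          rintro ⟨_, _, _, h3, _⟩
          exact h2 h3
        rw [this, measure_empty, mul_zero]
    · rw [indicator_of_notMem h1]
      by_cases h2 : κ - θ' ∈ Ioo 0 Real.pi
      · rw [indicator_of_mem h2]
        have : {s | s ∈ Ioo 0 (P.len k) ∧ (κ - θ', s) ∈ P.C k l B} = ∅ := by
          ext s
          simp only [mem_ofPred_eq, P.mem_C_iff hκ, mem_empty_iff_false, iff_false]
          rintro ⟨_, _, h3, _⟩
          rw [sub_sub_cancel] at h3
          exact h1 h3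
        rw [this, measure_empty, mul_zero]
      · rw [indicator_of_notMem h2]
  calc ∫⁻ θ, G θ = ∫⁻ θ', G (κ - θ') := (lintegral_sub_left_eq_self G κ).symm
    _ = ∫⁻ θ', H θ' := by simp_rw [key]

end ConvexPolygon

end Bil62
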