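import Pool.Agent.Helper62.Bil.Meas2

/-! The billiard map preserves the measure (end). -/

namespace Bil62

open MeasureTheory Set

open scoped ComplexConjugate ENNReal

namespace ConvexPolygon

variable {n : ℕ} [NeZero n] (P : ConvexPolygon n)

theorem exists_isKappa (k l : Fin n) : ∃ κ, P.IsKappa k l κ :=
  exists_kappa (P.norm_dir k) (P.norm_dir l)

theorem mC (k l : Fin n) {B : Set (ℝ × ℝ)} (hB : MeasurableSet B) : MeasurableSet (P.C k l B) := by
  obtain ⟨κ, hκ⟩ := P.exists_isKappa k l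
  exact P.measurableSet_C hκ hB

theorem mA' (k l : Fin n) : MeasurableSet (P.A' k l) := by
  obtain ⟨κ, hκ⟩ := P.exists_isKappa k l
  exact P.measurableSet_A' hκ

theorem transfer' (k l : Fin n) {B : Set (ℝ × ℝ)} (hB : MeasurableSet B) :
    P.nu k (P.C k l B) = P.nu l (B ∩ P.A' k l) := by
  obtain ⟨κ, hκ⟩ := P.exists_isKappa k l
  exact P.transfer hκ hB

/-- graphs over `θ` are null -/
theorem graph_null (k : Fin n) {f : ℝ → ℝ} (hf : Measurable f) :
    P.nu k {x | f x.1 = x.2 * Real.sin x.1} = 0 := by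
  apply P.nu_null_of_slices
  · exact measurableSet_eq_fun (hf.comp measurable_fst)
      (measurable_snd.mul (Real.measurable_sin.comp measurable_fst))
  · intro θ hθ
    have hsin := Real.sin_pos_of_pos_of_lt_pi hθ.1 hθ.2
    apply measure_mono_null (t := {f θ / Real.sin θ})
    · rintro s ⟨_, hs⟩
      simp only [mem_ofPred_eq] at hs
      rw [mem_singleton_iff, eq_div_iff hsin.ne', hs]
    · exact measure_singleton _

/-- the complement of the phase space is null -/
theorem nu_phase (k : Fin n) : P.nu k {x | (k, x) ∉ P.Phase} = 0 := by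
  have hm : MeasurableSet {x : ℝ × ℝ | (k, x) ∉ P.Phase} := by
    have : {x : ℝ × ℝ | (k, x) ∉ P.Phase} = (Ioo 0 Real.pi ×ˢ Ioo 0 (P.len k))ᶜ := by
      ext x; rfl
    rw [this]
    exact (measurableSet_Ioo.prod measurableSet_Ioo).compl
  apply P.nu_null_of_slices k hm
  intro θ hθ
  have : {s | s ∈ Ioo 0 (P.len k) ∧ (θ, s) ∈ {x : ℝ × ℝ | (k, x) ∉ P.Phase}} = ∅ := by
    ext s
    simp only [mem_ofPred_eq, mem_empty_iff_false, iff_false]
    rintro ⟨h1, h2⟩
    exact h2 ⟨hθ, h1⟩
  rw [this, measure_empty]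

/-- almost every phase point has a next collision -/
theorem nu_dom (k : Fin n) : P.nu k {x | ¬ ∃ l, x ∈ P.C k l univ} = 0 := by
  apply measure_mono_null (t := {x | (k, x) ∉ P.Phase} ∪ ⋃ j, {x : ℝ × ℝ |
    cross (P.vk k x.1) (P.V k) - cross (P.vk k x.1) (P.V j) = x.2 * Real.sin x.1})
  · intro x hx
    by_cases hp : (k, x) ∈ P.Phase
    · right
      have hno : ¬ ∃ z' ∈ P.Phase, P.Hits (k, x) z' := by
        rintro ⟨⟨l, x'⟩, h1, h2⟩
        exact hx ⟨l, hp, x', h1, mem_univ _, h2⟩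
      obtain ⟨j, hj⟩ := P.vertex_of_no_hits hp hno
      rw [mem_iUnion]
      refine ⟨j, ?_⟩
      have e1 : P.pv (k, x) = cross (P.vk k x.1) (P.V k) - x.2 * Real.sin x.1 := by
        unfold pv pos
        simp only
        rw [cross_add_right, cross_smul_right]
        have := P.cross_vk_dir k x.1
        change cross (P.vk k x.1) (P.V k) + x.2 * cross (P.vk k x.1) (P.dir k) = _
        rw [this]; ring
      rw [e1] at hj
      change cross (P.vk k x.1) (P.V k) - cross (P.vk k x.1) (P.V j) = x.2 * Real.sin x.1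
      change cross (P.vk k x.1) (P.V j) = _ at hj
      linarith
    · left; exact hp
  · rw [measure_union_null_iff, measure_iUnion_null_iff]
    refine ⟨P.nu_phase k, fun j => ?_⟩
    exact P.graph_null k (f := fun θ => cross (P.vk k θ) (P.V k) - cross (P.vk k θ) (P.V j))
      ((P.measurable_cross_vk k k).sub (P.measurable_cross_vk k j))

/-- almost every phase point has a previous collision -/
theorem nu_dom' (l : Fin n) : P.nu l {x | ¬ ∃ k, x ∈ P.A' k l} = 0 := by
  apply measure_mono_null (t := {x | (l, x) ∉ P.Phase} ∪ ⋃ j, {x : ℝ × ℝ |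
    cross (P.vk l (Real.pi - x.1)) (P.V l) - cross (P.vk l (Real.pi - x.1)) (P.V j) =
      x.2 * Real.sin x.1})
  · intro x hx
    by_cases hp : (l, x) ∈ P.Phase
    · right
      have hno : ¬ ∃ z' ∈ P.Phase, P.Hits (rev (l, x)) z' := by
        rintro ⟨z', h1, h2⟩
        refine hx ⟨z'.1, hp, (rev z').2, P.rev_phase h1, ?_⟩
        have := P.hits_rev h2
        rwa [rev_rev] at this
      obtain ⟨j, hj⟩ := P.vertex_of_no_hits (P.rev_phase hp) hno
      rw [mem_iUnion]
      refine ⟨j, ?_⟩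
      have e1 : P.pv (rev (l, x)) = cross (P.vk l (Real.pi - x.1)) (P.V l) -
          x.2 * Real.sin x.1 := by
        unfold pv pos rev
        simp only
        rw [cross_add_right, cross_smul_right]
        have := P.cross_vk_dir l (Real.pi - x.1)
        rw [Real.sin_pi_sub] at this
        change cross (P.vk l (Real.pi - x.1)) (P.V l) +
          x.2 * cross (P.vk l (Real.pi - x.1)) (P.dir l) = _
        rw [this]; ring
      rw [e1] at hj
      change cross (P.vk l (Real.pi - x.1)) (P.V l) - cross (P.vk l (Real.pi - x.1)) (P.V j) =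
        x.2 * Real.sin x.1
      change cross (P.vk l (Real.pi - x.1)) (P.V j) = _ at hj
      linarith
    · left; exact hp
  · rw [measure_union_null_iff, measure_iUnion_null_iff]
    refine ⟨P.nu_phase l, fun j => ?_⟩
    have h0 : Measurable (fun θ : ℝ => Real.pi - θ) := measurable_const.sub measurable_id
    exact P.graph_null l (f := fun θ => cross (P.vk l (Real.pi - θ)) (P.V l) -
      cross (P.vk l (Real.pi - θ)) (P.V j))
      (((P.measurable_cross_vk l l).comp h0).sub ((P.measurable_cross_vk l j).comp h0))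

/-- points with a next collision -/
def Dom : Set (Fin n × ℝ × ℝ) := {z | z ∈ P.Phase ∧ ∃ z' ∈ P.Phase, P.Hits z z'}

theorem mem_dom_iff (k : Fin n) (x : ℝ × ℝ) : (k, x) ∈ P.Dom ↔ ∃ l, x ∈ P.C k l univ := by
  constructor
  · rintro ⟨h1, ⟨l, x'⟩, h2, h3⟩
    exact ⟨l, h1, x', h2, mem_univ _, h3⟩
  · rintro ⟨l, h1, x', h2, _, h3⟩
    exact ⟨h1, (l, x'), h2, h3⟩

/-- a subset of the phase space is measurable if all its slices are -/
theorem measurableSet_of_slices {A : Set (Fin n × ℝ × ℝ)}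
    (h : ∀ k, MeasurableSet {x : ℝ × ℝ | (k, x) ∈ A}) : MeasurableSet A := by
  have e : A = ⋃ k : Fin n, (Prod.fst ⁻¹' {k}) ∩ (Prod.snd ⁻¹' {x : ℝ × ℝ | (k, x) ∈ A}) := by
    ext z
    simp only [mem_iUnion, mem_inter_iff, mem_preimage, mem_singleton_iff, mem_ofPred_eq]
    constructor
    · intro hz
      exact ⟨z.1, rfl, hz⟩
    · rintro ⟨k, rfl, hz⟩
      exact hz
  rw [e]
  refine MeasurableSet.iUnion fun k => ?_
  exact (measurable_fst (measurableSet_singleton k)).inter (measurable_snd (h k))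

theorem measurableSet_slice {A : Set (Fin n × ℝ × ℝ)} (hA : MeasurableSet A) (k : Fin n) :
    MeasurableSet {x : ℝ × ℝ | (k, x) ∈ A} :=
  measurable_mk k hA

theorem measurableSet_dom : MeasurableSet P.Dom := by
  apply measurableSet_of_slices
  intro k
  have : {x : ℝ × ℝ | (k, x) ∈ P.Dom} = ⋃ l, P.C k l univ := by
    ext x
    rw [mem_iUnion]
    exact P.mem_dom_iff k x
  rw [this]
  exact MeasurableSet.iUnion fun l => P.mC k l MeasurableSet.univ

theorem mu_compl_dom : P.mu P.Domᶜ = 0 := by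
  rw [P.mu_apply P.measurableSet_dom.compl]
  refine Finset.sum_eq_zero fun k _ => ?_
  have : {x : ℝ × ℝ | (k, x) ∈ P.Domᶜ} = {x | ¬ ∃ l, x ∈ P.C k l univ} := by
    ext x
    simp only [mem_compl_iff, mem_ofPred_eq, P.mem_dom_iff k x]
  rw [this, P.nu_dom k]

theorem hits_map {z : Fin n × ℝ × ℝ} (hz : z ∈ P.Dom) :
    P.billiardMap z ∈ P.Phase ∧ P.Hits z (P.billiardMap z) := by
  obtain ⟨_, z', hz', hh⟩ := hz
  rw [P.billiardMap_eq hz' hh]
  exact ⟨hz', hh⟩

theorem map_not_dom {z : Fin n × ℝ × ℝ} (hz : z ∈ P.Phase) (h : z ∉ P.Dom) :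
    P.billiardMap z = z := by
  unfold billiardMap
  rw [dif_neg]
  rintro ⟨z', hz', hh⟩
  exact h ⟨hz, z', hz', hh⟩

theorem mem_C_map (k l : Fin n) (B : Set (ℝ × ℝ)) (x : ℝ × ℝ) :
    x ∈ P.C k l B ↔ (k, x) ∈ P.Dom ∧ (P.billiardMap (k, x)).1 = l ∧
      (P.billiardMap (k, x)).2 ∈ B := by
  constructor
  · rintro ⟨h1, x', h2, h3, h4⟩
    refine ⟨⟨h1, (l, x'), h2, h4⟩, ?_, ?_⟩
    · rw [P.billiardMap_eq h2 h4]
    · rw [P.billiardMap_eq h2 h4]; exact h3
  · rintro ⟨h1, h2, h3⟩
    obtain ⟨h4, h5⟩ := P.hits_map h1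
    subst h2
    exact ⟨h1.1, (P.billiardMap (k, x)).2, h4, h3, h5⟩

end ConvexPolygon

end Bil62
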