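import Pool.Agent.Helper62.Bil.Meas3

/-! The billiard map preserves the measure (end). -/

namespace Bil62

open MeasureTheory Set

open scoped ComplexConjugate ENNReal

namespace ConvexPolygon

variable {n : ℕ} [NeZero n] (P : ConvexPolygon n)

open Classical in
/-- measurable version of the billiard map -/
noncomputable def phi (z : Fin n × ℝ × ℝ) : Fin n × ℝ × ℝ :=
  if z ∈ P.Dom then P.billiardMap z else z

theorem phi_of_mem {z : Fin n × ℝ × ℝ} (hz : z ∈ P.Dom) : P.phi z = P.billiardMap z := if_pos hz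

theorem phi_of_notMem {z : Fin n × ℝ × ℝ} (hz : z ∉ P.Dom) : P.phi z = z := if_neg hz

theorem ae_dom : ∀ᵐ z ∂P.mu, z ∈ P.Dom := P.mu_compl_dom

theorem ae_phi : ∀ᵐ z ∂P.mu, P.phi z = P.billiardMap z := by
  filter_upwards [P.ae_dom] with z hz
  exact P.phi_of_mem hz

theorem slice_phi (B : Set (Fin n × ℝ × ℝ)) (k : Fin n) :
    {x : ℝ × ℝ | (k, x) ∈ P.phi ⁻¹' B} = (⋃ l, P.C k l {x' | (l, x') ∈ B}) ∪
      ({x | (k, x) ∈ B} \ ⋃ l, P.C k l univ) := by
  ext x
  simp only [mem_ofPred_eq, mem_preimage, mem_union, mem_iUnion, mem_sdiff]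
  by_cases hx : (k, x) ∈ P.Dom
  · rw [P.phi_of_mem hx]
    constructor
    · intro h
      left
      refine ⟨(P.billiardMap (k, x)).1, ?_⟩
      rw [P.mem_C_map]
      exact ⟨hx, rfl, h⟩
    · rintro (⟨l, hl⟩ | ⟨_, h⟩)
      · rw [P.mem_C_map] at hl
        obtain ⟨_, rfl, h3⟩ := hl
        exact h3
      · exact absurd ((P.mem_dom_iff k x).1 hx) h
  · rw [P.phi_of_notMem hx]
    constructor
    · intro h
      right
      refine ⟨h, fun h' => hx ((P.mem_dom_iff k x).2 h')⟩
    · rintro (⟨l, hl⟩ | ⟨h, _⟩)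
      · rw [P.mem_C_map] at hl
        exact absurd hl.1 hx
      · exact h

theorem measurable_phi : Measurable P.phi := by
  intro B hB
  apply measurableSet_of_slices
  intro k
  rw [P.slice_phi B k]
  refine MeasurableSet.union (MeasurableSet.iUnion fun l => P.mC k l (measurableSet_slice hB l)) ?_
  exact (measurableSet_slice hB k).diff (MeasurableSet.iUnion fun l => P.mC k l MeasurableSet.univ)

theorem mu_preimage {B : Set (Fin n × ℝ × ℝ)} (hB : MeasurableSet B) :
    P.mu (P.phi ⁻¹' B) = P.mu B := by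
  rw [P.mu_apply (P.measurable_phi hB), P.mu_apply hB]
  have h1 : ∀ k, P.nu k {x : ℝ × ℝ | (k, x) ∈ P.phi ⁻¹' B} =
      ∑ l, P.nu l ({x' | (l, x') ∈ B} ∩ P.A' k l) := by
    intro k
    rw [P.slice_phi B k]
    have h2 : P.nu k ((⋃ l, P.C k l {x' | (l, x') ∈ B}) ∪
      ({x | (k, x) ∈ B} \ ⋃ l, P.C k l univ)) = P.nu k (⋃ l, P.C k l {x' | (l, x') ∈ B}) := by
      apply le_antisymm _ (measure_mono subset_union_left)
      refine (measure_union_le _ _).trans ?_
      have : P.nu k ({x | (k, x) ∈ B} \ ⋃ l, P.C k l univ) = 0 := by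
        apply measure_mono_null _ (P.nu_dom k)
        rintro x ⟨_, hx⟩ ⟨l, hl⟩
        exact hx (mem_iUnion.2 ⟨l, hl⟩)
      rw [this, add_zero]
    rw [h2, measure_iUnion, tsum_fintype]
    · exact Finset.sum_congr rfl fun l _ => P.transfer' k l (measurableSet_slice hB l)
    · intro l l' hne
      rw [Function.onFun, Set.disjoint_left]
      intro x hx hx'
      rw [P.mem_C_map] at hx hx'
      exact hne (hx.2.1.symm.trans hx'.2.1)
    · exact fun l => P.mC k l (measurableSet_slice hB l)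
  simp_rw [h1]
  rw [Finset.sum_comm]
  refine Finset.sum_congr rfl fun l _ => ?_
  have h3 : P.nu l (⋃ k, ({x' | (l, x') ∈ B} ∩ P.A' k l)) =
      ∑ k, P.nu l ({x' | (l, x') ∈ B} ∩ P.A' k l) := by
    rw [measure_iUnion, tsum_fintype]
    · intro k k' hne
      rw [Function.onFun, Set.disjoint_left]
      rintro x ⟨_, _, y, hy, hh⟩ ⟨_, _, y', hy', hh'⟩
      have := P.hits_unique (P.rev_phase hy) (P.rev_phase hy') (P.hits_rev hh) (P.hits_rev hh')
      exact hne (congrArg Prod.fst this)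
    · exact fun k => (measurableSet_slice hB l).inter (P.mA' k l)
  rw [← h3, ← inter_iUnion]
  apply le_antisymm (measure_mono inter_subset_left)
  have h4 : {x' : ℝ × ℝ | (l, x') ∈ B} ⊆ ({x' | (l, x') ∈ B} ∩ ⋃ k, P.A' k l) ∪
      {x | ¬ ∃ k, x ∈ P.A' k l} := by
    intro x hx
    by_cases h : ∃ k, x ∈ P.A' k l
    · exact Or.inl ⟨hx, mem_iUnion.2 h⟩
    · exact Or.inr h
  refine (measure_mono h4).trans ((measure_union_le _ _).trans ?_)
  rw [P.nu_dom' l, add_zero]

theorem measurePreserving_phi : MeasurePreserving P.phi P.mu P.mu :=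
  ⟨P.measurable_phi, by
    ext B hB
    rw [Measure.map_apply P.measurable_phi hB, P.mu_preimage hB]⟩

instance (k : Fin n) : IsFiniteMeasure (P.nu k) := by
  constructor
  rw [P.nu_apply k MeasurableSet.univ]
  have : ∀ θ, (Ioo 0 Real.pi).indicator (fun θ => ENNReal.ofReal (Real.sin θ) *
      volume {s : ℝ | s ∈ Ioo 0 (P.len k) ∧ (θ, s) ∈ (univ : Set (ℝ × ℝ))}) θ ≤
      (Ioo 0 Real.pi).indicator (fun _ => ENNReal.ofReal (P.len k)) θ := by
    intro θ
    apply indicator_le_indicator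
    have h1 : {s : ℝ | s ∈ Ioo 0 (P.len k) ∧ (θ, s) ∈ (univ : Set (ℝ × ℝ))} = Ioo 0 (P.len k) := by
      ext s; simp
    rw [h1, Real.volume_Ioo, sub_zero]
    calc ENNReal.ofReal (Real.sin θ) * ENNReal.ofReal (P.len k) ≤ 1 * ENNReal.ofReal (P.len k) := by
          gcongr
          rw [← ENNReal.ofReal_one]
          exact ENNReal.ofReal_le_ofReal (Real.sin_le_one θ)
      _ = ENNReal.ofReal (P.len k) := one_mul _
  refine (lintegral_mono this).trans_lt ?_
  rw [lintegral_indicator_const measurableSet_Ioo]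
  exact ENNReal.mul_lt_top ENNReal.ofReal_lt_top (by rw [Real.volume_Ioo]; exact ENNReal.ofReal_lt_top)

instance : IsFiniteMeasure P.mu := by
  constructor
  rw [P.mu_apply MeasurableSet.univ]
  exact ENNReal.sum_lt_top.2 fun k _ => measure_lt_top _ _

/-- backward map -/
noncomputable def psi (z : Fin n × ℝ × ℝ) : Fin n × ℝ × ℝ := rev (P.phi (rev z))

theorem measurable_rev : Measurable (rev : Fin n × ℝ × ℝ → Fin n × ℝ × ℝ) := by
  unfold rev
  fun_prop

theorem measurable_psi : Measurable P.psi :=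
  measurable_rev.comp (P.measurable_phi.comp measurable_rev)

theorem ae_psi_phi : ∀ᵐ z ∂P.mu, P.psi (P.phi z) = z := by
  filter_upwards [P.ae_dom] with z hz
  rw [P.phi_of_mem hz]
  obtain ⟨h1, h2⟩ := P.hits_map hz
  have h3 := P.hits_rev h2
  unfold psi
  have hd : rev (P.billiardMap z) ∈ P.Dom := ⟨P.rev_phase h1, rev z, P.rev_phase hz.1, h3⟩
  rw [P.phi_of_mem hd, P.billiardMap_eq (P.rev_phase hz.1) h3, rev_rev]

theorem measurePreserving_psi : MeasurePreserving P.psi P.mu P.mu := by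
  refine ⟨P.measurable_psi, ?_⟩
  ext B hB
  rw [Measure.map_apply P.measurable_psi hB, ← P.mu_preimage (P.measurable_psi hB)]
  apply measure_congr
  filter_upwards [P.ae_psi_phi] with z hz
  apply propext
  change P.psi (P.phi z) ∈ B ↔ z ∈ B
  rw [hz]

end ConvexPolygon

end Bil62
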