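import Pool.Agent.Helper62.Bil.Quad

/-! Quadrilaterals near a parallelogram, right-angled quadrilaterals, rectangles with one corner
cut off. -/

namespace Bil62

open MeasureTheory Set Filter Topology

open scoped ComplexConjugate ENNReal

theorem continuous_cross : Continuous fun x : ℂ × ℂ => cross x.1 x.2 := by
  unfold cross
  fun_prop

theorem continuous_dot : Continuous fun x : ℂ × ℂ => dot x.1 x.2 := by
  unfold dot
  fun_prop

/-- direction of a side as a function of the vertices -/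
noncomputable def dirF (k : Fin 4) (V : Fin 4 → ℂ) : ℂ :=
  (V (k + 1) - V k) / ((‖V (k + 1) - V k‖ : ℝ) : ℂ)

theorem continuousAt_dirF (k : Fin 4) {V : Fin 4 → ℂ} (h : ‖V (k + 1) - V k‖ ≠ 0) :
    ContinuousAt (dirF k) V := by
  unfold dirF
  apply ContinuousAt.div
  · fun_prop
  · fun_prop
  · exact_mod_cast h

namespace ConvexPolygon

theorem near_parallelogram (P₀ : ConvexPolygon 4)
    (hpar : P₀.V 1 - P₀.V 0 = P₀.V 2 - P₀.V 3)
    (hrect : dot (P₀.V 1 - P₀.V 0) (P₀.V 2 - P₀.V 1) ≠ 0) :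
    ∃ ε > 0, ∀ P : ConvexPolygon 4, (∀ k, ‖P.V k - P₀.V k‖ < ε) → ∀ i, P.Saturates i := by
  have hlen : ∀ k, ‖P₀.V (k + 1) - P₀.V k‖ ≠ 0 := fun k => (P₀.len_pos k).ne'
  have hdir : ∀ k, P₀.dir k = dirF k P₀.V := fun k => rfl
  -- opposite sides
  have hopp : ∀ i : Fin 4, P₀.V (i + 2) - P₀.V (i + 1) = -(P₀.V i - P₀.V (i + 3)) := by
    intro i
    fin_cases i
    · change P₀.V 2 - P₀.V 1 = -(P₀.V 0 - P₀.V 3)
      linear_combination -hpar
    · change P₀.V 3 - P₀.V 2 = -(P₀.V 1 - P₀.V 0)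
      linear_combination hpar
    · change P₀.V 0 - P₀.V 3 = -(P₀.V 2 - P₀.V 1)
      linear_combination -hpar
    · change P₀.V 1 - P₀.V 0 = -(P₀.V 3 - P₀.V 2)
      linear_combination hpar
  have hoppd : ∀ i : Fin 4, P₀.dir (i + 3) = - P₀.dir (i + 1) := by
    intro i
    unfold dir len
    rw [(four_add i).2.2]
    have e : i + 1 + 1 = i + 2 := (four_add i).1
    rw [e, hopp i, norm_neg]
    ring
  have hadj : ∀ i : Fin 4, dot (P₀.dir (i + 1)) (P₀.dir (i + 2)) ≠ 0 := by
    have key : ∀ i : Fin 4, dot (P₀.V (i + 2) - P₀.V (i + 1)) (P₀.V (i + 3) - P₀.V (i + 2)) ≠ 0 := by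
      intro i
      have e1 : P₀.V 2 - P₀.V 1 = P₀.V 3 - P₀.V 0 := by linear_combination -hpar
      fin_cases i
      · change dot (P₀.V 2 - P₀.V 1) (P₀.V 3 - P₀.V 2) ≠ 0
        intro h; apply hrect
        rw [hpar]
        simp only [dot, Complex.sub_re, Complex.sub_im] at h ⊢
        linarith
      · change dot (P₀.V 3 - P₀.V 2) (P₀.V 0 - P₀.V 3) ≠ 0
        intro h; apply hrect
        rw [hpar, e1]
        simp only [dot, Complex.sub_re, Complex.sub_im] at h ⊢
        linarith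
      · change dot (P₀.V 0 - P₀.V 3) (P₀.V 1 - P₀.V 0) ≠ 0
        intro h; apply hrect
        rw [e1]
        simp only [dot, Complex.sub_re, Complex.sub_im] at h ⊢
        linarith
      · exact hrect
    intro i h
    apply key i
    have e1 : P₀.V (i + 2) = P₀.V (i + 1) + (P₀.len (i + 1) : ℂ) * P₀.dir (i + 1) := by
      have := P₀.V_succ (i + 1)
      rwa [(four_add i).1] at this
    have e2 : P₀.V (i + 3) = P₀.V (i + 2) + (P₀.len (i + 2) : ℂ) * P₀.dir (i + 2) := by
      have := P₀.V_succ (i + 2)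
      rwa [(four_add i).2.1] at this
    rw [e2, add_sub_cancel_left, e1, add_sub_cancel_left, dot_smul_left, dot_smul_right, h]
    ring
  have cdir : ∀ k, ContinuousAt (dirF k) P₀.V := fun k => continuousAt_dirF k (hlen k)
  have ccross : ∀ j k, ContinuousAt (fun V => cross (dirF j V) (dirF k V)) P₀.V := fun j k =>
    (continuous_cross.continuousAt (x := (dirF j P₀.V, dirF k P₀.V))).comp₂ (cdir j) (cdir k)
  have cdot : ∀ j k, ContinuousAt (fun V => dot (dirF j V) (dirF k V)) P₀.V := fun j k =>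
    (continuous_dot.continuousAt (x := (dirF j P₀.V, dirF k P₀.V))).comp₂ (cdir j) (cdir k)
  have main : ∀ i : Fin 4, ∀ᶠ V in 𝓝 P₀.V, ∀ P : ConvexPolygon 4, P.V = V → P.Saturates i := by
    intro i
    have p12 := quad12 P₀ i
    have p23 := quad23 P₀ i
    have hsq := dot_sq_cross_sq P₀ (i + 1) (i + 2)
    have hne := hadj i
    have a1 : cross (P₀.dir (i + 1)) (P₀.dir (i + 2)) < 1 := by
      have : 0 < dot (P₀.dir (i + 1)) (P₀.dir (i + 2)) ^ 2 := by positivity
      nlinarith
    have a2 : |dot (P₀.dir (i + 1)) (P₀.dir (i + 2))| < 1 := by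
      rw [← sq_lt_one_iff_abs_lt_one]
      have : 0 < cross (P₀.dir (i + 1)) (P₀.dir (i + 2)) ^ 2 := by positivity
      linarith
    have a3 : |dot (P₀.dir (i + 2)) (P₀.dir (i + 3))| < 1 := by
      have : dot (P₀.dir (i + 2)) (P₀.dir (i + 3)) = - dot (P₀.dir (i + 1)) (P₀.dir (i + 2)) := by
        rw [hoppd i]; simp [dot]; ring
      rw [this, abs_neg]; exact a2
    obtain ⟨c, hc, hc1⟩ := exists_between (max_lt (max_lt a1 a2) a3)
    rw [max_lt_iff, max_lt_iff] at hc
    obtain ⟨⟨b1, b2⟩, b3⟩ := hc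
    set D : ℝ := 1 + ∑ k, ‖P₀.V k - P₀.V (i + 2)‖ with hD
    have b4 : ∀ k, ‖P₀.V k - P₀.V (i + 2)‖ < D := by
      intro k
      have : ‖P₀.V k - P₀.V (i + 2)‖ ≤ ∑ k, ‖P₀.V k - P₀.V (i + 2)‖ :=
        Finset.single_le_sum (f := fun k => ‖P₀.V k - P₀.V (i + 2)‖)
          (fun _ _ => norm_nonneg _) (Finset.mem_univ k)
      rw [hD]; linarith
    have b5 : - cross (P₀.dir (i + 1)) (P₀.dir (i + 3)) * (D * (1 + c)) <
        (1 - c) * (P₀.len (i + 2) * cross (P₀.dir (i + 2)) (P₀.dir (i + 3))) := by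
      rw [show cross (P₀.dir (i + 1)) (P₀.dir (i + 3)) = 0 by
        rw [hoppd i, cross_neg_right, cross_self, neg_zero], neg_zero, zero_mul]
      have := P₀.len_pos (i + 2)
      have : 0 < 1 - c := by linarith
      positivity
    have e1 := (ccross (i + 1) (i + 2)).eventually_lt continuousAt_const b1
    have e2 := (cdot (i + 1) (i + 2)).abs.eventually_lt continuousAt_const b2
    have e3 := (cdot (i + 2) (i + 3)).abs.eventually_lt continuousAt_const b3
    have e4 : ∀ᶠ V : Fin 4 → ℂ in 𝓝 P₀.V, ∀ k, ‖V k - V (i + 2)‖ < D := by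
      rw [eventually_all]
      intro k
      have hk : ContinuousAt (fun V : Fin 4 → ℂ => ‖V k - V (i + 2)‖) P₀.V := by fun_prop
      exact hk.eventually_lt continuousAt_const (b4 k)
    have hl : ContinuousAt (fun V : Fin 4 → ℂ => ‖V (i + 2 + 1) - V (i + 2)‖) P₀.V := by fun_prop
    have e5 := (((ccross (i + 1) (i + 3)).neg).mul_const (D * (1 + c))).eventually_lt
      ((hl.mul (ccross (i + 2) (i + 3))).const_mul (1 - c)) b5
    filter_upwards [e1, e2, e3, e4, e5] with V h1 h2 h3 h4 h5 P hP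
    subst hP
    exact quad_near hc1 h1.le h2.le h3.le (fun k => (h4 k).le) h5.le
  have hall : ∀ᶠ V in 𝓝 P₀.V, ∀ i : Fin 4, ∀ P : ConvexPolygon 4, P.V = V → P.Saturates i :=
    eventually_all.2 main
  rw [Metric.eventually_nhds_iff] at hall
  obtain ⟨ε, hε, h⟩ := hall
  refine ⟨ε, hε, fun P hP i => h ?_ i P rfl⟩
  rw [dist_pi_lt_iff hε]
  intro k
  rw [dist_eq_norm]
  exact hP k

/-- right-angled quadrilaterals -/
theorem right_angled (P : ConvexPolygon 4) (h0 : dot (P.V 1 - P.V 0) (P.V 3 - P.V 0) = 0)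
    (h1 : 0 ≤ dot (P.V 0 - P.V 1) (P.V 2 - P.V 1)) (h3 : 0 ≤ dot (P.V 0 - P.V 3) (P.V 2 - P.V 3))
    (i : Fin 4) : P.Saturates i := by
  have l0 := P.len_pos 0
  have l1 := P.len_pos 1
  have l2 := P.len_pos 2
  have l3 := P.len_pos 3
  have e0 : P.V 1 - P.V 0 = (P.len 0 : ℂ) * P.dir 0 := by
    have := P.V_succ 0
    rw [show (0 : Fin 4) + 1 = 1 from rfl] at this
    rw [this]; ring
  have e1 : P.V 2 - P.V 1 = (P.len 1 : ℂ) * P.dir 1 := by
    have := P.V_succ 1
    rw [show (1 : Fin 4) + 1 = 2 from rfl] at this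
    rw [this]; ring
  have e2 : P.V 3 - P.V 2 = (P.len 2 : ℂ) * P.dir 2 := by
    have := P.V_succ 2
    rw [show (2 : Fin 4) + 1 = 3 from rfl] at this
    rw [this]; ring
  have e3 : P.V 0 - P.V 3 = (P.len 3 : ℂ) * P.dir 3 := by
    have := P.V_succ 3
    rw [show (3 : Fin 4) + 1 = 0 from rfl] at this
    rw [this]; ring
  have d30 : dot (P.dir 3) (P.dir 0) = 0 := by
    have : P.len 0 * (P.len 3 * dot (P.dir 3) (P.dir 0)) = 0 := by
      have h := h0
      rw [e0, show P.V 3 - P.V 0 = -(P.V 0 - P.V 3) by ring, e3,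
        show -((P.len 3 : ℂ) * P.dir 3) = ((-P.len 3 : ℝ) : ℂ) * P.dir 3 by push_cast; ring,
        dot_smul_left, dot_smul_right] at h
      have e : dot (P.dir 0) (P.dir 3) = dot (P.dir 3) (P.dir 0) := by simp [dot]; ring
      rw [e] at h
      linarith
    rcases mul_eq_zero.1 this with h | h
    · exact absurd h l0.ne'
    · rcases mul_eq_zero.1 h with h | h
      · exact absurd h l3.ne'
      · exact h
  have d01 : dot (P.dir 0) (P.dir 1) ≤ 0 := by
    rw [e1, show P.V 0 - P.V 1 = -(P.V 1 - P.V 0) by ring, e0,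
      show -((P.len 0 : ℂ) * P.dir 0) = ((-P.len 0 : ℝ) : ℂ) * P.dir 0 by push_cast; ring,
      dot_smul_left, dot_smul_right] at h1
    by_contra hc
    have := mul_pos l0 (mul_pos l1 (not_le.1 hc))
    linarith
  have d23 : dot (P.dir 2) (P.dir 3) ≤ 0 := by
    rw [e3, show P.V 2 - P.V 3 = -(P.V 3 - P.V 2) by ring, e2,
      show -((P.len 2 : ℂ) * P.dir 2) = ((-P.len 2 : ℝ) : ℂ) * P.dir 2 by push_cast; ring,
      dot_smul_left, dot_smul_right] at h3
    have e : dot (P.dir 3) (P.dir 2) = dot (P.dir 2) (P.dir 3) := by simp [dot]; ring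
    rw [e] at h3
    by_contra hc
    have := mul_pos l3 (mul_pos l2 (not_le.1 hc))
    linarith
  have c30 : 0 < cross (P.dir 3) (P.dir 0) := P.cross_dir_succ_pos 3
  -- `dir 0 = i * dir 3`
  have hI : P.dir 0 = Complex.I * P.dir 3 := by
    have h := frame (w := P.dir 0) (P.norm_dir 3)
    have hs := dot_sq_cross_sq P 3 0
    rw [d30] at h hs
    have : cross (P.dir 3) (P.dir 0) = 1 := by nlinarith
    rw [this] at h
    rw [h]; simp
  fin_cases i
  · -- side 0
    apply quad_sum (i := 0)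
    change 0 ≤ cross (P.dir 1) (P.dir 3)
    have : P.dir 3 = - (Complex.I * P.dir 0) := by
      rw [hI, ← mul_assoc, Complex.I_mul_I]; ring
    rw [this, cross_neg_right, cross_I_mul]
    have e : dot (P.dir 1) (P.dir 0) = dot (P.dir 0) (P.dir 1) := by simp [dot]; ring
    rw [e]; linarith
  · apply quad_doors (i := 1)
    right; left
    exact d30
  · apply quad_doors (i := 2)
    left
    exact d30
  · apply quad_sum (i := 3)
    change 0 ≤ cross (P.dir 0) (P.dir 2)
    rw [hI, cross_comm, cross_I_mul]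
    linarith

theorem V_sub {n : ℕ} [NeZero n] (P : ConvexPolygon n) (k : Fin n) :
    P.V (k + 1) - P.V k = (P.len k : ℂ) * P.dir k := by
  rw [P.V_succ k, add_sub_cancel_left]

/-- isosceles trapezoids (and parallelograms) -/
theorem isosceles (P : ConvexPolygon 4)
    (hpar : cross (P.V 1 - P.V 0) (P.V 2 - P.V 3) = 0)
    (hleg : ‖P.V 3 - P.V 0‖ = ‖P.V 2 - P.V 1‖) (i : Fin 4) : P.Saturates i := by
  have l0 := P.len_pos 0
  have l1 := P.len_pos 1
  have l2 := P.len_pos 2
  have l3 := P.len_pos 3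
  have e0 : P.V 1 - P.V 0 = (P.len 0 : ℂ) * P.dir 0 := P.V_sub 0
  have e1 : P.V 2 - P.V 1 = (P.len 1 : ℂ) * P.dir 1 := P.V_sub 1
  have e2 : P.V 3 - P.V 2 = (P.len 2 : ℂ) * P.dir 2 := P.V_sub 2
  have e3 : P.V 0 - P.V 3 = (P.len 3 : ℂ) * P.dir 3 := P.V_sub 3
  have c01 : 0 < cross (P.dir 0) (P.dir 1) := P.cross_dir_succ_pos 0
  have c12 : 0 < cross (P.dir 1) (P.dir 2) := P.cross_dir_succ_pos 1
  have c23 : 0 < cross (P.dir 2) (P.dir 3) := P.cross_dir_succ_pos 2
  have c30 : 0 < cross (P.dir 3) (P.dir 0) := P.cross_dir_succ_pos 3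
  have c02 : cross (P.dir 0) (P.dir 2) = 0 := by
    rw [e0, show P.V 2 - P.V 3 = -(P.V 3 - P.V 2) by ring, e2, cross_neg_right, cross_smul_right,
      cross_smul_left] at hpar
    have : P.len 2 * (P.len 0 * cross (P.dir 0) (P.dir 2)) = 0 := by linarith
    rcases mul_eq_zero.1 this with h | h
    · exact absurd h l2.ne'
    · rcases mul_eq_zero.1 h with h | h
      · exact absurd h l0.ne'
      · exact h
  have d2 : P.dir 2 = - P.dir 0 := by
    have h := eq_smul_of_cross_eq_zero (P.norm_dir 0) c02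
    have hs := dot_sq_cross_sq P 0 2
    rw [c02] at hs
    have h1 : (dot (P.dir 0) (P.dir 2) - 1) * (dot (P.dir 0) (P.dir 2) + 1) = 0 := by linarith
    rcases mul_eq_zero.1 h1 with h2 | h2
    · exfalso
      have h3 : dot (P.dir 0) (P.dir 2) = 1 := by linarith
      rw [h3, Complex.ofReal_one, one_mul] at h
      rw [h, cross_comm] at c12
      linarith
    · have h3 : dot (P.dir 0) (P.dir 2) = -1 := by linarith
      rw [h, h3]; simp
  have hl : P.len 3 = P.len 1 := by
    have h1 : ‖P.V 3 - P.V 0‖ = P.len 3 := by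
      rw [norm_sub_rev, e3, norm_mul, Complex.norm_real, P.norm_dir, mul_one, Real.norm_eq_abs,
        abs_of_pos l3]
    have h2 : ‖P.V 2 - P.V 1‖ = P.len 1 := by
      rw [e1, norm_mul, Complex.norm_real, P.norm_dir, mul_one, Real.norm_eq_abs, abs_of_pos l1]
    rw [← h1, ← h2, hleg]
  -- equal heights
  have hh : cross (P.dir 0) (P.dir 1) = cross (P.dir 3) (P.dir 0) := by
    have h1 : cross (P.dir 0) ((P.V 1 - P.V 0) + (P.V 2 - P.V 1) + (P.V 3 - P.V 2) +
        (P.V 0 - P.V 3)) = 0 := by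
      rw [show (P.V 1 - P.V 0) + (P.V 2 - P.V 1) + (P.V 3 - P.V 2) + (P.V 0 - P.V 3) = 0 by ring,
        cross_zero_right]
    rw [e0, e1, e2, e3, cross_add_right, cross_add_right, cross_add_right, cross_smul_right,
      cross_smul_right, cross_smul_right, cross_smul_right, cross_self, c02, hl,
      cross_comm (P.dir 0) (P.dir 3)] at h1
    have h2 : P.len 1 * (cross (P.dir 0) (P.dir 1) - cross (P.dir 3) (P.dir 0)) = 0 := by linarith
    rcases mul_eq_zero.1 h2 with h | h
    · exact absurd h l1.ne'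
    · linarith
  have hdot : dot (P.dir 3) (P.dir 0) = dot (P.dir 0) (P.dir 1) ∨
      dot (P.dir 3) (P.dir 0) = - dot (P.dir 0) (P.dir 1) := by
    have s1 := dot_sq_cross_sq P 0 1
    have s2 := dot_sq_cross_sq P 3 0
    rw [hh] at s1
    apply sq_eq_sq_iff_eq_or_eq_neg.1
    linarith
  -- in the second case opposite sides are parallel
  have c13 : dot (P.dir 3) (P.dir 0) = - dot (P.dir 0) (P.dir 1) → cross (P.dir 1) (P.dir 3) = 0 := by
    intro h
    have f1 := frame (w := P.dir 1) (P.norm_dir 0)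
    have f3 := frame (w := P.dir 3) (P.norm_dir 0)
    have g1 : dot (P.dir 0) (P.dir 3) = - dot (P.dir 0) (P.dir 1) := by
      rw [← h]; simp [dot]; ring
    have g2 : cross (P.dir 0) (P.dir 3) = - cross (P.dir 0) (P.dir 1) := by
      rw [cross_comm, hh]
    have : P.dir 3 = - P.dir 1 := by
      rw [f3, g1, g2]
      conv_rhs => rw [f1]
      push_cast; ring
    rw [this, cross_neg_right, cross_self, neg_zero]
  fin_cases i
  · change P.Saturates 0
    rcases hdot with h | h
    · apply quad_doors (i := 0)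
      right; right
      change dot (P.dir 1) (P.dir 2) = dot (P.dir 2) (P.dir 3)
      rw [d2]
      simp only [dot, Complex.neg_re, Complex.neg_im] at h ⊢
      linarith
    · apply quad_sum (i := 0)
      change 0 ≤ cross (P.dir 1) (P.dir 3)
      rw [c13 h]
  · apply quad_sum (i := 1)
    change 0 ≤ cross (P.dir 2) (P.dir 0)
    rw [cross_comm, c02, neg_zero]
  · change P.Saturates 2
    rcases hdot with h | h
    · apply quad_doors (i := 2)
      right; right
      exact h
    · apply quad_sum (i := 2)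
      change 0 ≤ cross (P.dir 3) (P.dir 1)
      rw [cross_comm, c13 h, neg_zero]
  · apply quad_sum (i := 3)
    change 0 ≤ cross (P.dir 0) (P.dir 2)
    rw [c02]

/-- a right angle -/
theorem right_turn {n : ℕ} [NeZero n] (P : ConvexPolygon n) (k : Fin n)
    (h : dot (P.V k - P.V (k + 1)) (P.V (k + 1 + 1) - P.V (k + 1)) = 0) :
    P.dir (k + 1) = Complex.I * P.dir k := by
  have h1 : dot (P.dir k) (P.dir (k + 1)) = 0 := by
    rw [show P.V k - P.V (k + 1) = -(P.V (k + 1) - P.V k) by ring, P.V_sub k, P.V_sub (k + 1),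
      show -((P.len k : ℂ) * P.dir k) = ((-P.len k : ℝ) : ℂ) * P.dir k by push_cast; ring,
      dot_smul_left, dot_smul_right] at h
    rcases mul_eq_zero.1 h with h | h
    · exact absurd (neg_eq_zero.1 h) (P.len_pos k).ne'
    · rcases mul_eq_zero.1 h with h | h
      · exact absurd h (P.len_pos (k + 1)).ne'
      · exact h
  have h2 := frame (w := P.dir (k + 1)) (P.norm_dir k)
  have h3 := dot_sq_add_cross_sq _ _ (P.norm_dir k) (P.norm_dir (k + 1))
  have h4 := P.cross_dir_succ_pos k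
  rw [h1] at h2 h3
  have : cross (P.dir k) (P.dir (k + 1)) = 1 := by nlinarith
  rw [this] at h2
  rw [h2]; simp

/-- rectangles with one corner cut off -/
theorem cut_rectangle (P : ConvexPolygon 5)
    (h0 : dot (P.V 4 - P.V 0) (P.V 1 - P.V 0) = 0)
    (h1 : dot (P.V 0 - P.V 1) (P.V 2 - P.V 1) = 0)
    (h4 : dot (P.V 3 - P.V 4) (P.V 0 - P.V 4) = 0) (i : Fin 5) : P.Saturates i := by
  have r0 : P.dir 0 = Complex.I * P.dir 4 := P.right_turn 4 h0
  have r1 : P.dir 1 = Complex.I * P.dir 0 := P.right_turn 0 h1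
  have r4 : P.dir 4 = Complex.I * P.dir 3 := P.right_turn 3 h4
  have hI := Complex.I_mul_I
  have r3 : P.dir 3 = - P.dir 0 := by rw [r0, r4, ← mul_assoc, hI]; ring
  have r4' : P.dir 4 = - P.dir 1 := by rw [r4, r3, r1]; ring
  have c12 : 0 < cross (P.dir 1) (P.dir 2) := P.cross_dir_succ_pos 1
  have c23 : 0 < cross (P.dir 2) (P.dir 3) := P.cross_dir_succ_pos 2
  have c01 : 0 < cross (P.dir 0) (P.dir 1) := P.cross_dir_succ_pos 0
  have sq1 : P.dir 1 ^ 2 = - P.dir 0 ^ 2 := by rw [r1, mul_pow, Complex.I_sq]; ring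
  have sq3 : P.dir 3 ^ 2 = P.dir 0 ^ 2 := by rw [r3]; ring
  have sq4 : P.dir 4 ^ 2 = - P.dir 0 ^ 2 := by rw [r4', ← sq1]; ring
  have n0 : ‖P.dir 0 ^ 2‖ = 1 := P.norm_dir_sq 0
  have n2 : ‖P.dir 2 ^ 2‖ = 1 := P.norm_dir_sq 2
  have ne0 : ∀ k, P.dir k ≠ 0 := by
    intro k h0
    have := P.norm_dir k
    rw [h0, norm_zero] at this
    exact zero_ne_one this
  have hζ : ‖P.dir 2 ^ 2 * conj (P.dir 0 ^ 2)‖ = 1 := by
    rw [norm_mul, RCLike.norm_conj, n0, n2, one_mul]
  have hw2 : P.dir 2 ^ 2 = P.dir 0 ^ 2 * (P.dir 2 ^ 2 * conj (P.dir 0 ^ 2)) := by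
    have := unit_mul_conj n0
    linear_combination (-(P.dir 2 ^ 2)) * this
  fin_cases i
  · apply saturates_of_halfplane (P.dir 1) (ne0 1)
    intro k hk
    fin_cases k
    · exact absurd rfl hk
    · change cross (P.dir 1) (P.dir 1) ≤ 0
      rw [cross_self]
    · change cross (P.dir 2) (P.dir 1) ≤ 0
      rw [cross_comm]; linarith
    · change cross (P.dir 3) (P.dir 1) ≤ 0
      rw [r3, cross_neg_left]; linarith
    · change cross (P.dir 4) (P.dir 1) ≤ 0
      rw [r4', cross_neg_left, cross_self, neg_zero]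
  · apply saturates_of_doors n0 hζ
    intro k hk
    fin_cases k
    · exact Or.inl (Or.inl rfl)
    · exact absurd rfl hk
    · exact Or.inr ⟨Or.inl rfl, Or.inl hw2⟩
    · exact Or.inl (Or.inl sq3)
    · exact Or.inl (Or.inr sq4)
  · apply saturates_of_doors n0 hζ
    intro k hk
    fin_cases k
    · exact Or.inl (Or.inl rfl)
    · exact Or.inl (Or.inr sq1)
    · exact absurd rfl hk
    · exact Or.inl (Or.inl sq3)
    · exact Or.inl (Or.inr sq4)
  · apply saturates_of_doors n0 hζ
    intro k hk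
    fin_cases k
    · exact Or.inl (Or.inl rfl)
    · exact Or.inl (Or.inr sq1)
    · exact Or.inr ⟨Or.inr rfl, Or.inl hw2⟩
    · exact absurd rfl hk
    · exact Or.inl (Or.inr sq4)
  · apply saturates_of_halfplane (P.dir 0) (ne0 0)
    intro k hk
    fin_cases k
    · change cross (P.dir 0) (P.dir 0) ≤ 0
      rw [cross_self]
    · change cross (P.dir 1) (P.dir 0) ≤ 0
      rw [cross_comm]; linarith
    · change cross (P.dir 2) (P.dir 0) ≤ 0
      rw [r3, cross_neg_right] at c23
      linarith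
    · change cross (P.dir 3) (P.dir 0) ≤ 0
      rw [r3, cross_neg_left, cross_self, neg_zero]
    · exact absurd rfl hk

/-- triangles -/
theorem triangle (P : ConvexPolygon 3) (i : Fin 3) : P.Saturates i := by
  have h := P.cross_dir_succ_pos (i + 1)
  apply saturates_of_halfplane (P.dir (i + 1))
  · intro h0
    have := P.norm_dir (i + 1)
    rw [h0, norm_zero] at this
    exact zero_ne_one this
  · intro k hk
    have : k = i + 1 ∨ k = i + 1 + 1 := by
      clear h
      revert i k; decide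
    rcases this with rfl | rfl
    · rw [cross_self]
    · rw [cross_comm]; linarith

/-- one of two opposite sides of a quadrilateral -/
theorem quad_opposite (P : ConvexPolygon 4) (i : Fin 4) : P.Saturates i ∨ P.Saturates (i + 2) := by
  by_cases h : 0 ≤ cross (P.dir (i + 1)) (P.dir (i + 3))
  · exact Or.inl (quad_sum h)
  · right
    apply quad_sum
    have e1 : i + 2 + 1 = i + 3 := (four_add i).2.1
    have e2 : i + 2 + 3 = i + 1 := by clear h e1; revert i; decide
    rw [e1, e2, cross_comm]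
    linarith [not_le.1 h]

end ConvexPolygon

end Bil62
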