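import Pool.Agent.Helper62.Bil.Fwd

/-! Quadrilaterals. -/

namespace Bil62

open MeasureTheory Set

open scoped ComplexConjugate ENNReal

namespace ConvexPolygon

/-- The conclusion of the problem for side `i`: an invariant set containing `Φ_i` (up to a null
set) is all of `Φ` (up to a null set). -/
def Saturates {n : ℕ} [NeZero n] (P : ConvexPolygon n) (i : Fin n) : Prop :=
  ∀ M : Set (Fin n × ℝ × ℝ), P.Invariant M → P.mu ({z | z.1 = i} \ M) = 0 → P.mu Mᶜ = 0

section General

variable {n : ℕ} [NeZero n] {P : ConvexPolygon n} {i : Fin n}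

theorem saturates_of_halfplane (e : ℂ) (he : e ≠ 0) (h : ∀ k, k ≠ i → cross (P.dir k) e ≤ 0) :
    P.Saturates i := fun _ hM hi => (P.trap_of_invariant hM hi).null_of_halfplane e he h

theorem saturates_of_foot (o : ℂ) (h : (∀ k, k ≠ i → 0 ≤ dot (P.dir k) (o - P.V (k + 1))) ∨
      (∀ k, k ≠ i → dot (P.dir k) (o - P.V k) ≤ 0)) : P.Saturates i :=
  fun _ hM hi => (P.trap_of_invariant hM hi).null_of_ang o h

theorem saturates_of_wedge (o : ℂ) {ρ : ℝ} (hρ : 0 < ρ) (hfar : ∀ w ∈ P.interior, ρ ≤ ‖w - o‖)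
    (hW : ∀ k, k ≠ i → P.hh o k = 0 ∨ P.Floor o ρ k) : P.Saturates i :=
  fun _ hM hi => (P.trap_of_invariant hM hi).null_of_wedge o hρ hfar hW

theorem saturates_of_doors {w ζ : ℂ} (hw : ‖w‖ = 1) (hζ : ‖ζ‖ = 1)
    (hD : ∀ k, k ≠ i → (P.dir k ^ 2 = w ∨ P.dir k ^ 2 = -w) ∨
      ((k = i + 1 ∨ k + 1 = i) ∧ (P.dir k ^ 2 = w * ζ ∨ P.dir k ^ 2 = w * conj ζ))) :
    P.Saturates i :=
  fun _ hM hi => (P.trap_of_invariant hM hi).null_of_doors hw hζ hD

theorem saturates_of_rational {w : ℂ} {m : ℕ} (hm : 0 < m)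
    (hR : ∀ k, k ≠ i → P.dir k ^ (2 * m) = w) : P.Saturates i :=
  fun _ hM hi => (P.trap_of_invariant hM hi).null_of_rational hm hR

/-- directions of consecutive sides -/
theorem cross_dir_succ_pos (k : Fin n) : 0 < cross (P.dir k) (P.dir (k + 1)) := by
  have h := P.g_V_pos (P.succ_succ_ne k) (P.succ_ne (k + 1))
  rw [P.V_succ (k + 1), g_add_smul, g_V_succ, zero_add] at h
  exact (mul_pos_iff_of_pos_left (P.len_pos (k + 1))).1 h

/-- the interior is contained in the convex hull of the vertices -/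
theorem hull {u w : ℂ} (hw : w ∈ P.interior) {k : Fin n}
    (hk : ∀ j, dot u (P.V j) ≤ dot u (P.V k)) : dot u w ≤ dot u (P.V k) := by
  obtain ⟨k', hk'⟩ : ∃ k' : Fin n, k' + 1 = k := ⟨k - 1, sub_add_cancel k 1⟩
  rw [P.mem_interior_iff] at hw
  have h1 : 0 < cross (P.dir k) (w - P.V k) := hw k
  have h2 : 0 < cross (P.dir k') (w - P.V k) := by
    have e : w - P.V k = (w - P.V k') - (P.len k' : ℂ) * P.dir k' := by
      rw [← hk', P.V_succ k']; ring
    rw [e, cross_sub_right, cross_smul_right, cross_self, mul_zero, sub_zero]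
    exact hw k'
  have h3 : 0 < cross (P.dir k') (P.dir k) := by
    have := P.cross_dir_succ_pos k'
    rwa [hk'] at this
  have h4 : dot u (P.dir k) ≤ 0 := by
    have := hk (k + 1)
    rw [P.V_succ k, dot_add_right, dot_smul_right] at this
    have h5 : P.len k * dot u (P.dir k) ≤ 0 := by linarith
    by_contra hc
    have := mul_pos (P.len_pos k) (not_le.1 hc)
    linarith
  have h5 : 0 ≤ dot u (P.dir k') := by
    have := hk k'
    rw [← hk', P.V_succ k', dot_add_right, dot_smul_right] at this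
    have h5 : 0 ≤ P.len k' * dot u (P.dir k') := by linarith
    by_contra hc
    have := mul_neg_of_pos_of_neg (P.len_pos k') (not_le.1 hc)
    linarith
  have key : cross (P.dir k') (P.dir k) * dot u (w - P.V k) =
      cross (P.dir k') (w - P.V k) * dot u (P.dir k) -
        cross (P.dir k) (w - P.V k) * dot u (P.dir k') := by
    simp only [cross, dot, Complex.sub_re, Complex.sub_im]
    ring
  have h6 : cross (P.dir k') (P.dir k) * dot u (w - P.V k) ≤ 0 := by
    rw [key]
    have := mul_nonpos_of_nonneg_of_nonpos h2.le h4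
    have := mul_nonneg h1.le h5
    linarith
  have h7 : dot u (w - P.V k) ≤ 0 := by
    by_contra hc
    have := mul_pos h3 (not_le.1 hc)
    linarith
  rw [dot_sub_right] at h7
  linarith

theorem dot_self_norm (u : ℂ) : dot u u = ‖u‖ ^ 2 := by
  rw [← Complex.normSq_eq_norm_sq, Complex.normSq_apply]
  rfl

theorem norm_sub_le_of_interior {w : ℂ} (hw : w ∈ P.interior) (j : Fin n) {D : ℝ}
    (hD : ∀ k, ‖P.V k - P.V j‖ ≤ D) : ‖w - P.V j‖ ≤ D := by
  obtain ⟨k, hk⟩ := Finite.exists_max fun k => dot (w - P.V j) (P.V k)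
  have h1 := hull hw hk
  have h2 : ‖w - P.V j‖ ^ 2 ≤ ‖w - P.V j‖ * ‖P.V k - P.V j‖ := by
    rw [← dot_self_norm]
    have h3 : dot (w - P.V j) (P.V k - P.V j) ≤ ‖w - P.V j‖ * ‖P.V k - P.V j‖ :=
      (le_abs_self _).trans (abs_dot_le _ _)
    rw [dot_sub_right] at h3 ⊢
    linarith
  rcases eq_or_lt_of_le (norm_nonneg (w - P.V j)) with h3 | h3
  · rw [← h3]
    exact (norm_nonneg _).trans (hD j)
  · have h4 : ‖w - P.V j‖ ≤ ‖P.V k - P.V j‖ := by
      by_contra hc
      nlinarith
    exact h4.trans (hD k)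

/-- a unit vector in the frame of another one -/
theorem frame {d w : ℂ} (hd : ‖d‖ = 1) : w = ((dot d w : ℂ) + (cross d w : ℂ) * Complex.I) * d := by
  have h := dot_self_of_norm d hd
  unfold dot at h
  apply Complex.ext
  · simp [dot, cross]
    linear_combination (-w.re) * h
  · simp [dot, cross]
    linear_combination (-w.im) * h

end General

section Quad

variable {P : ConvexPolygon 4} {i : Fin 4}

theorem four_cases (i k : Fin 4) (h : k ≠ i) : k = i + 1 ∨ k = i + 2 ∨ k = i + 3 := by
  revert i k; decide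

theorem four_add (i : Fin 4) : i + 1 + 1 = i + 2 ∧ i + 2 + 1 = i + 3 ∧ i + 3 + 1 = i := by
  revert i; decide

theorem quad12 (P : ConvexPolygon 4) (i : Fin 4) : 0 < cross (P.dir (i + 1)) (P.dir (i + 2)) := by
  have := P.cross_dir_succ_pos (i + 1)
  rwa [(four_add i).1] at this

theorem quad23 (P : ConvexPolygon 4) (i : Fin 4) : 0 < cross (P.dir (i + 2)) (P.dir (i + 3)) := by
  have := P.cross_dir_succ_pos (i + 2)
  rwa [(four_add i).2.1] at this

/-- the sum of the two angles far from `a_i` is at least `π` -/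
theorem quad_sum (h : 0 ≤ cross (P.dir (i + 1)) (P.dir (i + 3))) : P.Saturates i := by
  apply saturates_of_halfplane (P.dir (i + 1))
  · intro h0
    have := P.norm_dir (i + 1)
    rw [h0, norm_zero] at this
    exact zero_ne_one this
  · intro k hk
    rcases four_cases i k hk with rfl | rfl | rfl
    · rw [cross_self]
    · rw [cross_comm]; linarith [quad12 P i]
    · rw [cross_comm]; linarith

theorem dot_sq_cross_sq (P : ConvexPolygon 4) (j k : Fin 4) :
    dot (P.dir j) (P.dir k) ^ 2 + cross (P.dir j) (P.dir k) ^ 2 = 1 :=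
  dot_sq_add_cross_sq _ _ (P.norm_dir j) (P.norm_dir k)

/-- one of the two angles far from `a_i` is right, or they are equal -/
theorem quad_doors (h : dot (P.dir (i + 1)) (P.dir (i + 2)) = 0 ∨
    dot (P.dir (i + 2)) (P.dir (i + 3)) = 0 ∨
    dot (P.dir (i + 1)) (P.dir (i + 2)) = dot (P.dir (i + 2)) (P.dir (i + 3))) :
    P.Saturates i := by
  have f12 := frame (w := P.dir (i + 2)) (P.norm_dir (i + 1))
  have f23 := frame (w := P.dir (i + 3)) (P.norm_dir (i + 2))
  have s12 := dot_sq_cross_sq P (i + 1) (i + 2)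
  have s23 := dot_sq_cross_sq P (i + 2) (i + 3)
  have n1 : ‖P.dir (i + 1) ^ 2‖ = 1 := P.norm_dir_sq _
  have n2 : ‖P.dir (i + 2) ^ 2‖ = 1 := P.norm_dir_sq _
  have n3 : ‖P.dir (i + 3) ^ 2‖ = 1 := P.norm_dir_sq _
  have p12 := quad12 P i
  have p23 := quad23 P i
  set c := dot (P.dir (i + 1)) (P.dir (i + 2)) with hc
  set s := cross (P.dir (i + 1)) (P.dir (i + 2)) with hs
  set c' := dot (P.dir (i + 2)) (P.dir (i + 3)) with hc'
  set s' := cross (P.dir (i + 2)) (P.dir (i + 3)) with hs'
  rcases h with h | h | h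
  · -- the angle at `V (i+2)` is right
    have e : P.dir (i + 2) ^ 2 = - P.dir (i + 1) ^ 2 := by
      rw [f12, h]
      have : (s : ℂ) ^ 2 = 1 := by
        have : s ^ 2 = 1 := by rw [h] at s12; linarith
        exact_mod_cast this
      have hI := Complex.I_sq
      simp only [Complex.ofReal_zero, zero_add, mul_pow, this, hI]
      ring
    refine saturates_of_doors (w := P.dir (i + 1) ^ 2)
      (ζ := P.dir (i + 3) ^ 2 * conj (P.dir (i + 1) ^ 2)) n1 ?_ ?_
    · rw [norm_mul, RCLike.norm_conj, n1, n3, one_mul]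
    · intro k hk
      rcases four_cases i k hk with rfl | rfl | rfl
      · exact Or.inl (Or.inl rfl)
      · exact Or.inl (Or.inr e)
      · refine Or.inr ⟨Or.inr (four_add i).2.2, Or.inl ?_⟩
        have := unit_mul_conj n1
        linear_combination (-(P.dir (i + 3) ^ 2)) * this
  · -- the angle at `V (i+3)` is right
    have e : P.dir (i + 3) ^ 2 = - P.dir (i + 2) ^ 2 := by
      rw [f23, h]
      have : (s' : ℂ) ^ 2 = 1 := by
        have : s' ^ 2 = 1 := by rw [h] at s23; linarith
        exact_mod_cast this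
      have hI := Complex.I_sq
      simp only [Complex.ofReal_zero, zero_add, mul_pow, this, hI]
      ring
    refine saturates_of_doors (w := P.dir (i + 2) ^ 2)
      (ζ := P.dir (i + 1) ^ 2 * conj (P.dir (i + 2) ^ 2)) n2 ?_ ?_
    · rw [norm_mul, RCLike.norm_conj, n1, n2, one_mul]
    · intro k hk
      rcases four_cases i k hk with rfl | rfl | rfl
      · refine Or.inr ⟨Or.inl rfl, Or.inl ?_⟩
        have := unit_mul_conj n2
        linear_combination (-(P.dir (i + 1) ^ 2)) * this
      · exact Or.inl (Or.inl rfl)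
      · exact Or.inl (Or.inr e)
  · -- equal angles
    have hss : s = s' := by
      rw [h] at s12
      have : s ^ 2 = s' ^ 2 := by linarith
      exact (pow_left_inj₀ p12.le p23.le two_ne_zero).1 this
    have hcs : ((c : ℂ) + (s : ℂ) * Complex.I) * ((c : ℂ) - (s : ℂ) * Complex.I) = 1 := by
      have h1 : (c : ℂ) ^ 2 + (s : ℂ) ^ 2 = 1 := by exact_mod_cast s12
      have hI := Complex.I_sq
      linear_combination h1 - (s : ℂ) ^ 2 * hI
    have g12 : P.dir (i + 1) = ((c : ℂ) - (s : ℂ) * Complex.I) * P.dir (i + 2) := by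
      rw [f12]
      linear_combination (-P.dir (i + 1)) * hcs
    refine saturates_of_doors (w := P.dir (i + 2) ^ 2)
      (ζ := ((c : ℂ) + (s : ℂ) * Complex.I) ^ 2) n2 ?_ ?_
    · have h1 : P.dir (i + 3) ^ 2 = ((c : ℂ) + (s : ℂ) * Complex.I) ^ 2 * P.dir (i + 2) ^ 2 := by
        rw [f23, ← h, ← hss]; ring
      rw [h1, norm_mul, n2, mul_one] at n3
      exact n3
    · intro k hk
      rcases four_cases i k hk with rfl | rfl | rfl
      · refine Or.inr ⟨Or.inl rfl, Or.inr ?_⟩
        rw [map_pow, map_add, map_mul, Complex.conj_ofReal, Complex.conj_ofReal, Complex.conj_I,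
          g12]
        ring
      · exact Or.inl (Or.inl rfl)
      · refine Or.inr ⟨Or.inr (four_add i).2.2, Or.inl ?_⟩
        rw [f23, ← h, ← hss]; ring

/-- two opposite sides are almost parallel and the side between them is neither almost parallel
nor almost orthogonal to them -/
theorem quad_near {D c : ℝ} (hc1 : c < 1)
    (h1 : cross (P.dir (i + 1)) (P.dir (i + 2)) ≤ c)
    (h2 : |dot (P.dir (i + 1)) (P.dir (i + 2))| ≤ c)
    (h3 : |dot (P.dir (i + 2)) (P.dir (i + 3))| ≤ c)
    (hD : ∀ k, ‖P.V k - P.V (i + 2)‖ ≤ D)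
    (hκ : - cross (P.dir (i + 1)) (P.dir (i + 3)) * (D * (1 + c)) ≤
      (1 - c) * (P.len (i + 2) * cross (P.dir (i + 2)) (P.dir (i + 3)))) : P.Saturates i := by
  by_cases hE : 0 ≤ cross (P.dir (i + 1)) (P.dir (i + 3))
  · exact quad_sum hE
  have p12 := quad12 P i
  have p23 := quad23 P i
  have hc0 : 0 < c := p12.trans_le h1
  set κ := - cross (P.dir (i + 1)) (P.dir (i + 3)) with hκd
  have hκ0 : 0 < κ := by rw [hκd]; linarith [not_le.1 hE]
  set s2 := cross (P.dir (i + 2)) (P.dir (i + 3)) with hs2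
  set s1 := cross (P.dir (i + 1)) (P.dir (i + 2)) with hs1
  set ℓ := P.len (i + 2) with hℓ
  have hℓ0 : 0 < ℓ := P.len_pos _
  have hℓD : ℓ ≤ D := by
    have := hD (i + 2 + 1)
    rw [P.V_succ (i + 2), add_sub_cancel_left, norm_mul, Complex.norm_real, P.norm_dir, mul_one,
      Real.norm_eq_abs, abs_of_pos (P.len_pos _)] at this
    exact this
  have hD0 : 0 < D := hℓ0.trans_le hℓD
  set R := ℓ * s2 / κ with hR
  have hRκ : R * κ = ℓ * s2 := div_mul_cancel₀ _ hκ0.ne'
  have hR1 : D * (1 + c) ≤ (1 - c) * R := by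
    have h4 : κ * (D * (1 + c)) ≤ κ * ((1 - c) * R) := by
      calc κ * (D * (1 + c)) ≤ (1 - c) * (ℓ * s2) := hκ
        _ = κ * ((1 - c) * R) := by rw [← hRκ]; ring
    exact le_of_mul_le_mul_left h4 hκ0
  have hR0 : 0 < R := by positivity
  have hRD : D < R := by nlinarith
  set o : ℂ := P.V (i + 2) - (R : ℂ) * P.dir (i + 1) with ho
  have eV2 : P.V (i + 2) = P.V (i + 1) + (P.len (i + 1) : ℂ) * P.dir (i + 1) := by
    have := P.V_succ (i + 1)
    rwa [(four_add i).1] at this
  have eV3 : P.V (i + 3) = P.V (i + 2) + (ℓ : ℂ) * P.dir (i + 2) := by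
    have := P.V_succ (i + 2)
    rwa [(four_add i).2.1] at this
  refine saturates_of_wedge o (ρ := R - D) (by linarith) ?_ ?_
  · intro w hw
    have h5 := norm_sub_le_of_interior hw (i + 2) hD
    have h6 : ‖P.V (i + 2) - o‖ = R := by
      rw [ho, sub_sub_cancel, norm_mul, Complex.norm_real, P.norm_dir, mul_one,
        Real.norm_eq_abs, abs_of_pos hR0]
    have h7 : ‖P.V (i + 2) - o‖ ≤ ‖w - o‖ + ‖w - P.V (i + 2)‖ := by
      have : P.V (i + 2) - o = (w - o) - (w - P.V (i + 2)) := by ring
      rw [this]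
      exact norm_sub_le _ _
    linarith
  · intro k hk
    rcases four_cases i k hk with rfl | rfl | rfl
    · left
      unfold hh
      rw [ho, eV2]
      rw [show P.V (i + 1) + (P.len (i + 1) : ℂ) * P.dir (i + 1) - (R : ℂ) * P.dir (i + 1) -
        P.V (i + 1) = ((P.len (i + 1) - R : ℝ) : ℂ) * P.dir (i + 1) by push_cast; ring,
        cross_smul_right, cross_self, mul_zero]
    · right
      have hh1 : P.hh o (i + 2) = R * s1 := by
        unfold hh
        rw [ho, show P.V (i + 2) - (R : ℂ) * P.dir (i + 1) - P.V (i + 2) =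
          ((-R : ℝ) : ℂ) * P.dir (i + 1) by push_cast; ring, cross_smul_right, cross_comm, ← hs1]
        ring
      refine ⟨?_, ?_, ?_, ?_⟩
      · rw [hh1]; positivity
      · rw [hh1]
        nlinarith
      · rw [ho, sub_sub_cancel, dot_smul_right, abs_mul, abs_of_pos hR0]
        have e : dot (P.dir (i + 2)) (P.dir (i + 1)) = dot (P.dir (i + 1)) (P.dir (i + 2)) := by
          simp [dot]; ring
        rw [e]
        nlinarith
      · rw [(four_add i).2.1]
        -- `V (i+3) - o` is parallel to the third side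
        have hpar : cross (P.dir (i + 3)) (P.V (i + 3) - o) = 0 := by
          rw [ho, eV3, show P.V (i + 2) + (ℓ : ℂ) * P.dir (i + 2) -
            (P.V (i + 2) - (R : ℂ) * P.dir (i + 1)) = (ℓ : ℂ) * P.dir (i + 2) +
              (R : ℂ) * P.dir (i + 1) by ring, cross_add_right, cross_smul_right,
            cross_smul_right, cross_comm (P.dir (i + 3)) (P.dir (i + 2)),
            cross_comm (P.dir (i + 3)) (P.dir (i + 1)), ← hs2, ← hκd]
          linarith
        have h8 := eq_smul_of_cross_eq_zero (P.norm_dir (i + 3)) hpar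
        set y := dot (P.dir (i + 3)) (P.V (i + 3) - o) with hy
        have h9 : |y| ≤ R + D := by
          have : ‖P.V (i + 3) - o‖ = |y| := by
            rw [h8, norm_mul, Complex.norm_real, P.norm_dir, mul_one, Real.norm_eq_abs]
          rw [← this, ho, eV3, show P.V (i + 2) + (ℓ : ℂ) * P.dir (i + 2) -
            (P.V (i + 2) - (R : ℂ) * P.dir (i + 1)) = (R : ℂ) * P.dir (i + 1) +
              (ℓ : ℂ) * P.dir (i + 2) by ring]
          refine (norm_add_le _ _).trans ?_
          rw [norm_mul, norm_mul, Complex.norm_real, Complex.norm_real, P.norm_dir, P.norm_dir,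
            mul_one, mul_one, Real.norm_eq_abs, Real.norm_eq_abs, abs_of_pos hR0,
            abs_of_pos hℓ0]
          linarith
        rw [h8, dot_smul_right, abs_mul]
        calc |y| * |dot (P.dir (i + 2)) (P.dir (i + 3))| ≤ (R + D) * c := by
              apply mul_le_mul h9 h3 (abs_nonneg _) (by linarith)
          _ ≤ R - D := by linarith
    · left
      unfold hh
      rw [show o - P.V (i + 3) = ((-ℓ : ℝ) : ℂ) * P.dir (i + 2) + ((-R : ℝ) : ℂ) * P.dir (i + 1) by
        rw [ho, eV3]; push_cast; ring, cross_add_right, cross_smul_right, cross_smul_right,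
        cross_comm (P.dir (i + 3)) (P.dir (i + 2)), cross_comm (P.dir (i + 3)) (P.dir (i + 1)),
        ← hs2, ← hκd]
      linarith

end Quad

end ConvexPolygon

end Bil62
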