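import Pool.Agent.Helper62.Bil.Cond

/-! Type W: angular momentum with respect to a point outside the polygon. -/

namespace Bil62

open MeasureTheory Set

open scoped ComplexConjugate ENNReal

namespace ConvexPolygon

variable {n : ℕ} [NeZero n] {P : ConvexPolygon n} {i : Fin n} {N : Set (Fin n × ℝ × ℝ)}

/-- incoming velocity -/
noncomputable def velin (P : ConvexPolygon n) (z : Fin n × ℝ × ℝ) : ℂ :=
  P.dir z.1 * Complex.exp (-(z.2.1 : ℂ) * Complex.I)

theorem measurable_velin : Measurable P.velin := by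
  apply measurable_from_prod_countable_right
  intro k
  apply Continuous.measurable
  unfold velin
  fun_prop

theorem norm_velin (z : Fin n × ℝ × ℝ) : ‖P.velin z‖ = 1 := by
  unfold velin
  rw [norm_mul, P.norm_dir, ← exp_I_conj, RCLike.norm_conj, norm_exp_I, one_mul]

/-- coordinates of a point of side `k` with respect to the foot of `o` on that side: abscissa -/
noncomputable def xx (P : ConvexPolygon n) (o : ℂ) (z : Fin n × ℝ × ℝ) : ℝ :=
  dot (P.dir z.1) (P.pos z - o)

/-- signed distance of `o` from the line of side `k` -/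
noncomputable def hh (P : ConvexPolygon n) (o : ℂ) (k : Fin n) : ℝ := cross (P.dir k) (o - P.V k)

theorem cross_pos_dir (o : ℂ) (z : Fin n × ℝ × ℝ) :
    cross (P.dir z.1) (P.pos z - o) = - P.hh o z.1 := by
  unfold hh pos
  rw [show P.V z.1 + (z.2.2 : ℂ) * P.dir z.1 - o = -(o - P.V z.1) + (z.2.2 : ℂ) * P.dir z.1 by ring,
    cross_add_right, cross_smul_right, cross_self, cross_neg_right]
  ring

/-- expansion of dot and cross products in the orthonormal frame `d, i d` -/
theorem frame_dot {d : ℂ} (hd : ‖d‖ = 1) (y e : ℂ) :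
    dot y (d * e) = dot d y * e.re + cross d y * e.im := by
  have h := dot_self_of_norm d hd
  unfold dot at h
  simp only [dot, cross, Complex.mul_re, Complex.mul_im]
  ring

theorem frame_cross {d : ℂ} (y e : ℂ) :
    cross y (d * e) = dot d y * e.im - cross d y * e.re := by
  simp only [dot, cross, Complex.mul_re, Complex.mul_im]
  ring

theorem exp_re (θ : ℝ) : (Complex.exp ((θ : ℂ) * Complex.I)).re = Real.cos θ :=
  Complex.exp_ofReal_mul_I_re θ

theorem exp_im (θ : ℝ) : (Complex.exp ((θ : ℂ) * Complex.I)).im = Real.sin θ :=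
  Complex.exp_ofReal_mul_I_im θ

theorem exp_neg_re (θ : ℝ) : (Complex.exp (-(θ : ℂ) * Complex.I)).re = Real.cos θ := by
  have := exp_re (-θ)
  rwa [Complex.ofReal_neg, Real.cos_neg] at this

theorem exp_neg_im (θ : ℝ) : (Complex.exp (-(θ : ℂ) * Complex.I)).im = - Real.sin θ := by
  have := exp_im (-θ)
  rwa [Complex.ofReal_neg, Real.sin_neg] at this

theorem L_out (o : ℂ) (z : Fin n × ℝ × ℝ) : cross (P.pos z - o) (P.vel z) =
    P.xx o z * Real.sin z.2.1 + P.hh o z.1 * Real.cos z.2.1 := by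
  unfold vel
  rw [frame_cross, exp_im, exp_re, cross_pos_dir]
  unfold xx; ring

theorem L_in (o : ℂ) (z : Fin n × ℝ × ℝ) : cross (P.pos z - o) (P.velin z) =
    - P.xx o z * Real.sin z.2.1 + P.hh o z.1 * Real.cos z.2.1 := by
  unfold velin
  rw [frame_cross, exp_neg_im, exp_neg_re, cross_pos_dir]
  unfold xx; ring

theorem D_out (o : ℂ) (z : Fin n × ℝ × ℝ) : dot (P.pos z - o) (P.vel z) =
    P.xx o z * Real.cos z.2.1 - P.hh o z.1 * Real.sin z.2.1 := by
  unfold vel
  rw [frame_dot (P.norm_dir _), exp_im, exp_re, cross_pos_dir]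
  unfold xx; ring

theorem D_in (o : ℂ) (z : Fin n × ℝ × ℝ) : dot (P.pos z - o) (P.velin z) =
    P.xx o z * Real.cos z.2.1 + P.hh o z.1 * Real.sin z.2.1 := by
  unfold velin
  rw [frame_dot (P.norm_dir _), exp_neg_im, exp_neg_re, cross_pos_dir]
  unfold xx; ring

/-- side `k` is of wall type or of floor type with respect to `o` and `ρ` -/
def Floor (P : ConvexPolygon n) (o : ℂ) (ρ : ℝ) (k : Fin n) : Prop :=
  0 ≤ P.hh o k ∧ P.hh o k ≤ ρ ∧ |dot (P.dir k) (P.V k - o)| ≤ ρ ∧
    |dot (P.dir k) (P.V (k + 1) - o)| ≤ ρ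

theorem Floor.abs_xx {o : ℂ} {ρ : ℝ} {z : Fin n × ℝ × ℝ} (h : P.Floor o ρ z.1)
    (hz : z ∈ P.Phase) : |P.xx o z| < ρ := by
  obtain ⟨_, _, h1, h2⟩ := h
  have e1 : P.xx o z = dot (P.dir z.1) (P.V z.1 - o) + z.2.2 := by
    unfold xx pos
    rw [show P.V z.1 + (z.2.2 : ℂ) * P.dir z.1 - o = (P.V z.1 - o) + (z.2.2 : ℂ) * P.dir z.1 by ring,
      dot_add_right, dot_smul_right, dot_self_of_norm _ (P.norm_dir _), mul_one]
  have e2 : dot (P.dir z.1) (P.V (z.1 + 1) - o) = dot (P.dir z.1) (P.V z.1 - o) + P.len z.1 := by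
    rw [P.V_succ, show P.V z.1 + (P.len z.1 : ℂ) * P.dir z.1 - o =
      (P.V z.1 - o) + (P.len z.1 : ℂ) * P.dir z.1 by ring,
      dot_add_right, dot_smul_right, dot_self_of_norm _ (P.norm_dir _), mul_one]
  rw [e2] at h2
  rw [abs_le] at h1 h2
  rw [e1, abs_lt]
  exact ⟨by linarith [hz.2.1], by linarith [hz.2.2]⟩

/-- relation between consecutive states -/
theorem hits_step {o : ℂ} {z z' : Fin n × ℝ × ℝ} (h : P.Hits z z') : ∃ t : ℝ, 0 < t ∧
    P.vel z = P.velin z' ∧ P.pos z' = P.pos z + (t : ℂ) * P.vel z ∧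
    dot (P.pos z' - o) (P.velin z') = dot (P.pos z - o) (P.vel z) + t ∧
    cross (P.pos z' - o) (P.velin z') = cross (P.pos z - o) (P.vel z) ∧
    (∀ r ∈ Ioo 0 t, P.pos z + (r : ℂ) * P.vel z ∈ P.interior) := by
  obtain ⟨t, ht, hpos, hint, hvel⟩ := h
  have hv : P.vel z = P.velin z' := hvel
  refine ⟨t, ht, hv, hpos, ?_, ?_, hint⟩
  · rw [← hv, hpos, show P.pos z + (t : ℂ) * P.vel z - o = (P.pos z - o) + (t : ℂ) * P.vel z by ring,
      dot_add_left, dot_smul_left, dot_self_of_norm _ (P.norm_vel z), mul_one]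
  · rw [← hv, hpos, show P.pos z + (t : ℂ) * P.vel z - o = (P.pos z - o) + (t : ℂ) * P.vel z by ring,
      cross_add_left, cross_smul_left, cross_self, mul_zero, add_zero]

theorem norm_sq_eq (w v : ℂ) (hv : ‖v‖ = 1) : ‖w‖ ^ 2 = dot w v ^ 2 + cross w v ^ 2 := by
  have h := dot_self_of_norm v hv
  unfold dot at h
  rw [← Complex.normSq_eq_norm_sq, Complex.normSq_apply]
  unfold dot cross
  linear_combination (-(w.re * w.re + w.im * w.im)) * h

/-- if the point of a chord nearest to `o` lies on the chord then the angular momentum is large -/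
theorem perihelion {o : ℂ} {ρ : ℝ} (hfar : ∀ w ∈ P.interior, ρ ≤ ‖w - o‖)
    {z : Fin n × ℝ × ℝ} {t : ℝ} (ht : 0 < t)
    (hint : ∀ r ∈ Ioo 0 t, P.pos z + (r : ℂ) * P.vel z ∈ P.interior)
    (h1 : dot (P.pos z - o) (P.vel z) ≤ 0) (h2 : 0 ≤ dot (P.pos z - o) (P.vel z) + t) :
    ρ ≤ |cross (P.pos z - o) (P.vel z)| := by
  set D := dot (P.pos z - o) (P.vel z) with hD
  have hcont : Continuous fun r : ℝ => ‖P.pos z + (r : ℂ) * P.vel z - o‖ := by fun_prop
  have hcl : ∀ r ∈ Icc 0 t, ρ ≤ ‖P.pos z + (r : ℂ) * P.vel z - o‖ := by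
    intro r hr
    have h3 : r ∈ closure (Ioo 0 t) := by rwa [closure_Ioo ht.ne]
    exact (isClosed_Ici.preimage hcont).closure_subset_iff.2
      (fun s hs => hfar _ (hint s hs)) h3
  have h4 := hcl (-D) ⟨by linarith, by linarith⟩
  have h5 := norm_sq_eq (P.pos z + ((-D : ℝ) : ℂ) * P.vel z - o) (P.vel z) (P.norm_vel z)
  rw [show P.pos z + ((-D : ℝ) : ℂ) * P.vel z - o = (P.pos z - o) + ((-D : ℝ) : ℂ) * P.vel z by ring,
    dot_add_left, dot_smul_left, dot_self_of_norm _ (P.norm_vel z), cross_add_left,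
    cross_smul_left, cross_self, ← hD] at h5
  rw [show P.pos z + ((-D : ℝ) : ℂ) * P.vel z - o = (P.pos z - o) + ((-D : ℝ) : ℂ) * P.vel z by ring]
    at h4
  have h6 : ‖(P.pos z - o) + ((-D : ℝ) : ℂ) * P.vel z‖ ^ 2 =
      |cross (P.pos z - o) (P.vel z)| ^ 2 := by
    rw [h5, sq_abs]; ring
  have h7 : ‖(P.pos z - o) + ((-D : ℝ) : ℂ) * P.vel z‖ = |cross (P.pos z - o) (P.vel z)| :=
    (pow_left_inj₀ (norm_nonneg _) (abs_nonneg _) two_ne_zero).1 h6
  rw [← h7]; exact h4

theorem trig_key {x h s c ρ : ℝ} (hs : 0 < s) (hsc : s ^ 2 + c ^ 2 = 1) (h0 : 0 ≤ h) (hle : h ≤ ρ)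
    (hx : |x| < ρ) (hD : 0 < x * c - h * s) : |-x * s + h * c| < ρ ∧ 0 < x * c + h * s := by
  rw [abs_lt] at hx
  have hhs : 0 ≤ h * s := mul_nonneg h0 hs.le
  have hxc : 0 < x * c := by linarith
  refine ⟨?_, by linarith⟩
  have hc1 : c ^ 2 < 1 := by nlinarith
  have hs1 : s ≤ 1 := by nlinarith
  rw [abs_lt]
  rcases lt_trichotomy x 0 with hx0 | hx0 | hx0
  · have hc : c < 0 := by
      by_contra hc
      nlinarith
    have hc2 : -1 < c := by nlinarith
    have e1 : -x * s ≤ -x := by nlinarith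
    have e2 : 0 < -x * s := by nlinarith
    have e3 : h * c ≤ 0 := by nlinarith
    have e4 : -h ≤ h * c := by nlinarith
    constructor <;> linarith
  · rw [hx0, zero_mul] at hxc
    exact absurd hxc (lt_irrefl _)
  · have hc : 0 < c := by
      by_contra hc
      nlinarith
    have hc2 : c < 1 := by nlinarith
    have e1 : -x ≤ -x * s := by nlinarith
    have e2 : -x * s < 0 := by nlinarith
    have e3 : 0 ≤ h * c := by nlinarith
    have e4 : h * c ≤ h := by nlinarith
    constructor <;> linarith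

/-- a subset of a trap that is forward or backward invariant is a trap -/
theorem Trap.sub (hT : P.Trap i N) {B : Set (Fin n × ℝ × ℝ)} (hB : MeasurableSet B)
    (hBN : ∀ z ∈ B, z ∈ N)
    (h : (∀ᵐ z ∂P.mu, z ∈ B → P.phi z ∈ B) ∨ (∀ᵐ z ∂P.mu, P.phi z ∈ B → z ∈ B)) :
    P.Trap i B := by
  refine ⟨hB, ?_, ?_⟩
  · have hm : MeasurableSet (P.phi ⁻¹' B) := P.measurable_phi hB
    have hμ : P.mu (P.phi ⁻¹' B) = P.mu B := P.mu_preimage hB
    rcases h with h | h
    · have h1 : B ≤ᵐ[P.mu] P.phi ⁻¹' B := h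
      have h2 := ae_eq_of_ae_subset_of_measure_ge h1 hμ.le hB.nullMeasurableSet (measure_ne_top _ _)
      filter_upwards [h2] with z hz
      exact (Iff.of_eq hz).symm
    · have h1 : P.phi ⁻¹' B ≤ᵐ[P.mu] B := h
      have h2 := ae_eq_of_ae_subset_of_measure_ge h1 hμ.ge hm.nullMeasurableSet (measure_ne_top _ _)
      filter_upwards [h2] with z hz
      exact Iff.of_eq hz
  · filter_upwards [hT.miss] with z hz hzB
    exact hz (hBN z hzB)

/-- type W -/
theorem Trap.null_of_wedge (hT : P.Trap i N) (o : ℂ) {ρ : ℝ} (hρ : 0 < ρ)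
    (hfar : ∀ w ∈ P.interior, ρ ≤ ‖w - o‖)
    (hW : ∀ k, k ≠ i → P.hh o k = 0 ∨ P.Floor o ρ k) : P.mu N = 0 := by
  obtain ⟨K, hK⟩ := P.norm_pos_le
  classical
  have mL : Measurable fun z => cross (P.pos z - o) (P.vel z) :=
    measurable_cross (measurable_pos.sub_const o) measurable_vel
  have mL' : Measurable fun z => cross (P.pos z - o) (P.velin z) :=
    measurable_cross (measurable_pos.sub_const o) measurable_velin
  have mD : Measurable fun z => dot (P.pos z - o) (P.vel z) :=
    measurable_dot (measurable_pos.sub_const o) measurable_vel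
  have mD' : Measurable fun z => dot (P.pos z - o) (P.velin z) :=
    measurable_dot (measurable_pos.sub_const o) measurable_velin
  have mJ : MeasurableSet {z : Fin n × ℝ × ℝ | P.Floor o ρ z.1} :=
    measurable_fst (t := {k | P.Floor o ρ k}) (Set.toFinite _).measurableSet
  have mR : Measurable fun z => ‖P.pos z - o‖ ^ 2 := (measurable_pos.sub_const o).norm.pow_const 2
  have bR : ∀ᵐ z ∂P.mu, z ∈ N → |‖P.pos z - o‖ ^ 2| ≤ (K + ‖o‖) ^ 2 := by
    filter_upwards [P.ae_dom] with z hz _
    rw [abs_of_nonneg (by positivity)]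
    gcongr
    exact (norm_sub_le _ _).trans (by linarith [hK z hz.1])
  -- outward part
  set B : Set (Fin n × ℝ × ℝ) := N ∩ ({z | 0 < dot (P.pos z - o) (P.vel z)} ∩
    ({z | |cross (P.pos z - o) (P.vel z)| < ρ} ∪ {z | P.Floor o ρ z.1})) with hB
  have mB : MeasurableSet B := by
    refine hT.meas.inter ((measurableSet_lt measurable_const mD).inter ?_)
    exact (measurableSet_lt (by simpa [Real.norm_eq_abs] using mL.norm) measurable_const).union mJ
  have hTB : P.Trap i B := by
    refine hT.sub mB (fun z hz => hz.1) (Or.inr ?_)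
    filter_upwards [hT.hits, hT.inv] with z hz hinv hφ
    have hzN : z ∈ N := hinv.1 hφ.1
    obtain ⟨hph, hph', hhit, hne⟩ := hz hzN
    obtain ⟨t, ht, hv, hpos, eD, eL, hint⟩ := hits_step (o := o) hhit
    have hs := P.sin_pos_of_phase hph'
    have hD' : 0 < dot (P.pos (P.phi z) - o) (P.vel (P.phi z)) := hφ.2.1
    have key : |cross (P.pos (P.phi z) - o) (P.velin (P.phi z))| < ρ ∧
        0 < dot (P.pos (P.phi z) - o) (P.velin (P.phi z)) := by
      rw [L_in, D_in]
      rw [D_out] at hD'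
      have hsc := Real.sin_sq_add_cos_sq (P.phi z).2.1
      set x := P.xx o (P.phi z)
      set h := P.hh o (P.phi z).1
      set s := Real.sin (P.phi z).2.1
      set c := Real.cos (P.phi z).2.1
      by_cases hJ : P.Floor o ρ (P.phi z).1
      · have hx := hJ.abs_xx hph'
        exact trig_key hs hsc hJ.1 hJ.2.1 hx hD'
      · have hw : h = 0 := (hW _ hne).resolve_right hJ
        have hL : |cross (P.pos (P.phi z) - o) (P.vel (P.phi z))| < ρ := by
          rcases hφ.2.2 with h1 | h1
          · exact h1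
          · exact absurd h1 hJ
        rw [L_out] at hL
        change |x * s + h * c| < ρ at hL
        rw [hw] at hD' hL ⊢
        rw [zero_mul, add_zero] at hL
        constructor
        · rw [zero_mul, add_zero, neg_mul, abs_neg]; exact hL
        · linarith
    have hDz : 0 < dot (P.pos z - o) (P.vel z) := by
      by_contra hcon
      have := perihelion hfar ht hint (not_lt.1 hcon) (by rw [← eD]; exact key.2.le)
      rw [← eL] at this
      linarith [key.1]
    exact ⟨hzN, hDz, Or.inl (by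
      change |cross (P.pos z - o) (P.vel z)| < ρ
      rw [← eL]; exact key.1)⟩
  have hB0 : P.mu B = 0 := by
    have hlt : ∀ᵐ z ∂P.mu, z ∈ B → - ‖P.pos (P.phi z) - o‖ ^ 2 < - ‖P.pos z - o‖ ^ 2 := by
      filter_upwards [hT.hits] with z hz hzB
      obtain ⟨hph, hph', hhit, hne⟩ := hz hzB.1
      obtain ⟨t, ht, hv, hpos, eD, eL, hint⟩ := hits_step (o := o) hhit
      rw [norm_sq_eq (P.pos (P.phi z) - o) (P.velin (P.phi z)) (norm_velin _),
        norm_sq_eq (P.pos z - o) (P.vel z) (P.norm_vel _), eD, eL]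
      have : 0 < dot (P.pos z - o) (P.vel z) := hzB.2.1
      nlinarith
    have heq := mono_eq P.measurePreserving_phi hTB.meas hTB.inv mR.neg (K := (K + ‖o‖) ^ 2)
      (by filter_upwards [bR] with z hz hzB; rw [Pi.neg_apply, abs_neg]; exact hz hzB.1)
      (by filter_upwards [hlt] with z hz hzB; exact (hz hzB).le)
    rw [measure_eq_zero_iff_ae_notMem]
    filter_upwards [hlt, heq] with z h1 h2 h3
    exact absurd (h2 h3) (h1 h3).ne
  -- inward part
  set B' : Set (Fin n × ℝ × ℝ) := N ∩ ({z | dot (P.pos z - o) (P.velin z) < 0} ∩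
    ({z | |cross (P.pos z - o) (P.velin z)| < ρ} ∪ {z | P.Floor o ρ z.1})) with hB'
  have mB' : MeasurableSet B' := by
    refine hT.meas.inter ((measurableSet_lt mD' measurable_const).inter ?_)
    exact (measurableSet_lt (by simpa [Real.norm_eq_abs] using mL'.norm) measurable_const).union mJ
  have keyB' : ∀ᵐ z ∂P.mu, z ∈ B' → dot (P.pos z - o) (P.vel z) < 0 ∧
      dot (P.pos (P.phi z) - o) (P.velin (P.phi z)) < 0 ∧ P.phi z ∈ B' := by
    filter_upwards [hT.hits, hT.inv, hT.miss] with z hz hinv hmiss hzB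
    obtain ⟨hph, hph', hhit, hne⟩ := hz hzB.1
    obtain ⟨t, ht, hv, hpos, eD, eL, hint⟩ := hits_step (o := o) hhit
    have hs := P.sin_pos_of_phase hph
    have hD' : dot (P.pos z - o) (P.velin z) < 0 := hzB.2.1
    have key : |cross (P.pos z - o) (P.vel z)| < ρ ∧ dot (P.pos z - o) (P.vel z) < 0 := by
      rw [L_out, D_out]
      rw [D_in] at hD'
      have hsc := Real.sin_sq_add_cos_sq z.2.1
      set x := P.xx o z
      set h := P.hh o z.1
      set s := Real.sin z.2.1
      set c := Real.cos z.2.1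
      by_cases hJ : P.Floor o ρ z.1
      · have hx := hJ.abs_xx hph
        have := trig_key (c := -c) hs (by rw [neg_sq]; exact hsc) hJ.1 hJ.2.1 hx (by
          change 0 < x * -c - h * s
          linarith)
        obtain ⟨g1, g2⟩ := this
        constructor
        · rw [← abs_neg, show -(x * s + h * c) = -x * s + h * -c by ring]; exact g1
        · have g2' : 0 < x * -c + h * s := g2
          linarith
      · have hw : h = 0 := (hW _ (hmiss hzB.1)).resolve_right hJ
        have hL : |cross (P.pos z - o) (P.velin z)| < ρ := by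
          rcases hzB.2.2 with h1 | h1
          · exact h1
          · exact absurd h1 hJ
        rw [L_in] at hL
        change |-x * s + h * c| < ρ at hL
        rw [hw] at hD' hL ⊢
        rw [zero_mul, add_zero, neg_mul, abs_neg] at hL
        constructor
        · rw [zero_mul, add_zero]; exact hL
        · linarith
    have hDz : dot (P.pos (P.phi z) - o) (P.velin (P.phi z)) < 0 := by
      by_contra hcon
      have := perihelion hfar ht hint key.2.le (by rw [← eD]; exact not_lt.1 hcon)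
      linarith [key.1]
    exact ⟨key.2, hDz, hinv.2 hzB.1, hDz, Or.inl (by
      change |cross (P.pos (P.phi z) - o) (P.velin (P.phi z))| < ρ
      rw [eL]; exact key.1)⟩
  have hTB' : P.Trap i B' := by
    refine hT.sub mB' (fun z hz => hz.1) (Or.inl ?_)
    filter_upwards [keyB'] with z hz hzB
    exact (hz hzB).2.2
  have hB0' : P.mu B' = 0 := by
    have hlt : ∀ᵐ z ∂P.mu, z ∈ B' → ‖P.pos (P.phi z) - o‖ ^ 2 < ‖P.pos z - o‖ ^ 2 := by
      filter_upwards [hT.hits, keyB'] with z hz hk hzB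
      obtain ⟨hph, hph', hhit, hne⟩ := hz hzB.1
      obtain ⟨t, ht, hv, hpos, eD, eL, hint⟩ := hits_step (o := o) hhit
      obtain ⟨k1, k2, _⟩ := hk hzB
      rw [norm_sq_eq (P.pos (P.phi z) - o) (P.velin (P.phi z)) (norm_velin _),
        norm_sq_eq (P.pos z - o) (P.vel z) (P.norm_vel _), eD, eL]
      rw [eD] at k2
      nlinarith
    have heq := mono_eq P.measurePreserving_phi hTB'.meas hTB'.inv mR (K := (K + ‖o‖) ^ 2)
      (by filter_upwards [bR] with z hz hzB; exact hz hzB.1)
      (by filter_upwards [hlt] with z hz hzB; exact (hz hzB).le)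
    rw [measure_eq_zero_iff_ae_notMem]
    filter_upwards [hlt, heq] with z h1 h2 h3
    exact absurd (h2 h3) (h1 h3).ne
  -- the angular momentum is large almost everywhere
  have hL : ∀ᵐ z ∂P.mu, z ∈ N → ρ ≤ |cross (P.pos z - o) (P.vel z)| := by
    filter_upwards [hT.hits, hT.inv, measure_eq_zero_iff_ae_notMem.1 hB0,
      P.measurePreserving_phi.quasiMeasurePreserving.ae (measure_eq_zero_iff_ae_notMem.1 hB0')]
      with z hz hinv h1 h2 hzN
    obtain ⟨hph, hph', hhit, hne⟩ := hz hzN
    obtain ⟨t, ht, hv, hpos, eD, eL, hint⟩ := hits_step (o := o) hhit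
    by_contra hcon
    have hlt := not_le.1 hcon
    by_cases hD : 0 < dot (P.pos z - o) (P.vel z)
    · exact h1 ⟨hzN, hD, Or.inl hlt⟩
    · by_cases hD2 : dot (P.pos (P.phi z) - o) (P.velin (P.phi z)) < 0
      · exact h2 ⟨hinv.2 hzN, hD2, Or.inl (by
          change |cross (P.pos (P.phi z) - o) (P.velin (P.phi z))| < ρ
          rw [eL]; exact hlt)⟩
      · exact hcon (perihelion hfar ht hint (not_lt.1 hD) (by rw [← eD]; exact not_lt.1 hD2))
  -- hence only walls are hit
  have hwall : ∀ᵐ z ∂P.mu, z ∈ N → P.hh o (P.phi z).1 = 0 := by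
    filter_upwards [hT.hits, hT.inv, hL,
      P.measurePreserving_phi.quasiMeasurePreserving.ae hL] with z hz hinv h1 h2 hzN
    obtain ⟨hph, hph', hhit, hne⟩ := hz hzN
    obtain ⟨t, ht, hv, hpos, eD, eL, hint⟩ := hits_step (o := o) hhit
    rcases hW _ hne with h0 | hJ
    · exact h0
    · exfalso
      have hx := hJ.abs_xx hph'
      obtain ⟨h0, hle, _, _⟩ := hJ
      have g1 := h1 hzN
      have g2 := h2 (hinv.2 hzN)
      rw [← eL, L_in] at g1
      rw [L_out] at g2
      have hs := P.sin_pos_of_phase hph'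
      have hsc := Real.sin_sq_add_cos_sq (P.phi z).2.1
      set x := P.xx o (P.phi z)
      set h := P.hh o (P.phi z).1
      set s := Real.sin (P.phi z).2.1
      set c := Real.cos (P.phi z).2.1
      have hs1 : s ≤ 1 := by nlinarith
      have hc1 : c ^ 2 < 1 := by nlinarith
      have hc2 : |c| < 1 := by
        rw [← sq_lt_one_iff_abs_lt_one]; exact hc1
      have e1 : |x * s| < ρ := by
        rw [abs_mul, abs_of_pos hs]
        calc |x| * s ≤ |x| * 1 := mul_le_mul_of_nonneg_left hs1 (abs_nonneg x)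
          _ = |x| := mul_one _
          _ < ρ := hx
      have e2 : |h * c| < ρ := by
        rw [abs_mul, abs_of_nonneg h0]
        rcases eq_or_lt_of_le h0 with h00 | h00
        · have : h * |c| = 0 := by
            rw [show h = 0 from h00.symm, zero_mul]
          rw [this]; exact hρ
        · calc h * |c| < h * 1 := mul_lt_mul_of_pos_left hc2 h00
            _ = h := mul_one _
            _ ≤ ρ := hle
      rw [abs_lt] at e1 e2
      rcases le_abs'.1 g1 with g1 | g1 <;> rcases le_abs'.1 g2 with g2 | g2 <;> linarith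
  -- and the radial component increases
  have hlt : ∀ᵐ z ∂P.mu, z ∈ N → - dot (P.pos (P.phi z) - o) (P.vel (P.phi z)) <
      - dot (P.pos z - o) (P.vel z) := by
    filter_upwards [hT.hits, hwall] with z hz hw hzN
    obtain ⟨hph, hph', hhit, hne⟩ := hz hzN
    obtain ⟨t, ht, hv, hpos, eD, eL, hint⟩ := hits_step (o := o) hhit
    have h0 := hw hzN
    rw [D_in, h0] at eD
    rw [D_out, h0]
    linarith
  have heq := mono_eq P.measurePreserving_phi hT.meas hT.inv mD.neg (K := K + ‖o‖)
    (by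
      filter_upwards [P.ae_dom] with z hz _
      rw [Pi.neg_apply, abs_neg]
      refine (abs_dot_le _ _).trans ?_
      rw [P.norm_vel, mul_one]
      exact (norm_sub_le _ _).trans (by linarith [hK z hz.1]))
    (by filter_upwards [hlt] with z hz hN; exact (hz hN).le)
  rw [measure_eq_zero_iff_ae_notMem]
  filter_upwards [hlt, heq] with z h1 h2 h3
  exact absurd (h2 h3) (h1 h3).ne

end ConvexPolygon

end Bil62
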